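import Pool.Agent.TH819.PL.FinC
import Pool.Agent.H321R3.VP.Main

/-! All moments of order greater than one, and large values. -/

open Finset MeasureTheory Filter Topology

namespace TH819.PL

open H343 H321VP

/-- pointwise bound -/
lemma DD_point {M : ℕ} {H X y : ℝ} (hH : 1 ≤ H) (hX : 3 ≤ X) (hHX : H ≤ X) (hy : y ∈ Set.Ioc 1 X) :
    |DD M H y| ≤ 4 * H * Real.log X := by
  classical
  have hX0 : 0 < X := by linarith
  have hlog1 : 1 ≤ Real.log X := by
    rw [Real.le_log_iff_exp_le hX0]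
    have := Real.exp_one_lt_d9
    linarith
  obtain ⟨hy1, hy2⟩ := hy
  have hl2X : Real.log (2 * X) ≤ 2 * Real.log X := by
    have : Real.log (2 * X) ≤ Real.log (X * X) :=
      Real.log_le_log (by positivity) (by nlinarith)
    rw [Real.log_mul hX0.ne' hX0.ne'] at this
    linarith
  set s : Finset ℕ := Icc ⌈y - H / 2⌉₊ ⌊y + H / 2⌋₊ with hs
  have hcard : (s.card : ℝ) ≤ H + 1 := by
    rw [hs, Nat.card_Icc]
    have h1 : ((⌊y + H / 2⌋₊ : ℕ) : ℝ) ≤ y + H / 2 := Nat.floor_le (by linarith)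
    have h2 : y - H / 2 ≤ (⌈y - H / 2⌉₊ : ℕ) := Nat.le_ceil _
    rcases le_or_gt ⌈y - H / 2⌉₊ (⌊y + H / 2⌋₊ + 1) with h | h
    · rw [Nat.cast_sub h]
      push_cast
      linarith
    · rw [Nat.sub_eq_zero_of_le h.le]
      push_cast
      linarith
  have h1 : ∑ n ∈ Icc 1 M, ArithmeticFunction.vonMangoldt n *
      (Set.Icc ((n : ℝ) - H / 2) (n + H / 2)).indicator (fun _ => (1 : ℝ)) y ≤
      ∑ n ∈ s, Real.log (2 * X) := by
    have h2 : ∑ n ∈ Icc 1 M, ArithmeticFunction.vonMangoldt n *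
        (Set.Icc ((n : ℝ) - H / 2) (n + H / 2)).indicator (fun _ => (1 : ℝ)) y =
        ∑ n ∈ (Icc 1 M).filter (fun n : ℕ => y ∈ Set.Icc ((n : ℝ) - H / 2) (n + H / 2)),
          ArithmeticFunction.vonMangoldt n := by
      rw [sum_filter]
      refine sum_congr rfl fun n _ => ?_
      by_cases h : y ∈ Set.Icc ((n : ℝ) - H / 2) (n + H / 2)
      · rw [Set.indicator_of_mem h, if_pos h, mul_one]
      · rw [Set.indicator_of_notMem h, if_neg h, mul_zero]
    rw [h2]
    refine (sum_le_sum (g := fun _ => Real.log (2 * X)) fun n hn => ?_).trans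
      (sum_le_sum_of_subset_of_nonneg ?_ fun _ _ _ => Real.log_nonneg (by linarith))
    · rw [mem_filter, mem_Icc, Set.mem_Icc] at hn
      refine ArithmeticFunction.vonMangoldt_le_log.trans ?_
      apply Real.log_le_log (by exact_mod_cast hn.1.1)
      linarith [hn.2.1]
    · intro n hn
      rw [mem_filter, mem_Icc, Set.mem_Icc] at hn
      rw [hs, mem_Icc]
      exact ⟨Nat.ceil_le.2 (by linarith [hn.2.2]), Nat.le_floor (by linarith [hn.2.1])⟩
  rw [sum_const, nsmul_eq_mul] at h1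
  have h3 : (s.card : ℝ) * Real.log (2 * X) ≤ 4 * H * Real.log X := by
    calc (s.card : ℝ) * Real.log (2 * X) ≤ (H + 1) * (2 * Real.log X) := by
          have : 0 ≤ Real.log (2 * X) := Real.log_nonneg (by linarith)
          gcongr
      _ ≤ (2 * H) * (2 * Real.log X) := by gcongr; linarith
      _ = _ := by ring
  have h4 : 0 ≤ ∑ n ∈ Icc 1 M, ArithmeticFunction.vonMangoldt n *
      (Set.Icc ((n : ℝ) - H / 2) (n + H / 2)).indicator (fun _ => (1 : ℝ)) y :=
    sum_nonneg fun n _ => mul_nonneg ArithmeticFunction.vonMangoldt_nonneg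
      (Set.indicator_nonneg (fun _ _ => zero_le_one) _)
  unfold DD
  rw [abs_le]
  constructor
  · nlinarith
  · linarith

theorem all_moments : ∀ k : ℕ, 2 ≤ k → ∀ δ : ℝ, 0 < δ → ∃ c X₀ : ℝ, 0 < c ∧ ∀ X H : ℝ,
    X₀ ≤ X → 1 ≤ H → H ≤ X ^ (1 / (2 * (k : ℝ)) - δ) →
    (∀ p : ℝ, 2 * (k : ℝ) / (2 * k - 1) ≤ p →
      (c * Real.sqrt (H * (1 + Real.log H))) ^ p ≤
        (1 / X) * ∫ x in (1 : ℝ)..X, |psi x H - H| ^ p) ∧
    c * X * (Real.sqrt (H * (1 + Real.log H)) / (H * Real.log X)) ^ (2 * (k : ℝ) / (2 * k - 1)) ≤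
      (volume {x : ℝ | 1 < x ∧ x ≤ X ∧
        c * Real.sqrt (H * (1 + Real.log H)) ≤ |psi x H - H|}).toReal := by
  intro k hk δ0 hδ0
  have hk0 : (2 : ℝ) ≤ k := by exact_mod_cast hk
  set δ := min δ0 (1 / (4 * (k : ℝ))) with hδdef
  have hδ : 0 < δ := lt_min hδ0 (by positivity)
  obtain ⟨c0, hc0, hev⟩ := lp_lower k hk δ hδ (min_le_right _ _)
  set p : ℝ := 2 * (k : ℝ) / (2 * k - 1) with hpdef
  have hkm : (0 : ℝ) < 2 * k - 1 := by linarith
  have hp1 : 1 < p := by
    rw [hpdef, lt_div_iff₀ hkm]; linarith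
  have hp0 : 0 < p := by linarith
  obtain ⟨X1, hX1⟩ := (hev.and (eventually_ge_atTop (3 : ℝ))).exists_forall_of_atTop
  set c : ℝ := min (c0 / 2) (1 / 2 * (c0 / 4) ^ p) with hcdef
  have hc : 0 < c := lt_min (by positivity) (by positivity)
  have hcc0 : c ≤ c0 / 2 := min_le_left _ _
  have hcc1 : c ≤ 1 / 2 * (c0 / 4) ^ p := min_le_right _ _
  refine ⟨c, X1, hc, fun X H hX hH hHX0 => ?_⟩
  obtain ⟨h1, hX3⟩ := hX1 X hX
  have hX1' : 1 < X := by linarith
  have hX0 : 0 < X := by linarith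
  have hHX : H ≤ X ^ (1 / (2 * (k : ℝ)) - δ) := by
    refine hHX0.trans (Real.rpow_le_rpow_of_exponent_le hX1'.le ?_)
    have := min_le_left δ0 (1 / (4 * (k : ℝ)))
    linarith
  obtain ⟨M, hM, hlow⟩ := h1 H hH hHX
  have hlogH : 0 ≤ Real.log H := Real.log_nonneg hH
  have hH0 : 0 < H := by linarith
  set s := Real.sqrt (H * (1 + Real.log H)) with hsdef
  have hs0 : 0 < s := Real.sqrt_pos.2 (by positivity)
  have hDm := DD_meas M H
  have hpsi : ∀ x ≤ X, psi x H - H = DD M H x := fun x hx => psi_eq (hM x hx)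
  have hHleX : H ≤ X := by
    have hkinv : 1 / (2 * (k : ℝ)) ≤ 1 / 4 := by
      apply one_div_le_one_div_of_le (by norm_num)
      linarith
    calc H ≤ X ^ (1 / (2 * (k : ℝ)) - δ) := hHX
      _ ≤ X ^ (1 : ℝ) := Real.rpow_le_rpow_of_exponent_le hX1'.le (by linarith)
      _ = X := Real.rpow_one X
  constructor
  · intro p' hp'
    have hint : ∫ x in (1 : ℝ)..X, |psi x H - H| ^ p' = ∫ x in (1 : ℝ)..X, |DD M H x| ^ p' := by
      refine intervalIntegral.integral_congr fun x hx => ?_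
      rw [Set.uIcc_of_le hX1'.le] at hx
      rw [hpsi x hx.2]
    rw [hint]
    have h2 := norm_mono hp1.le hp' hX1' hDm (DD_bound M H)
    have hp'0 : 0 < p' := by linarith
    have h3 : c * s ≤ ((1 / X) * ∫ y in (1 : ℝ)..X, |DD M H y| ^ p') ^ (1 / p') := by
      refine le_trans ?_ (hlow.trans h2)
      have : c ≤ c0 := by linarith
      gcongr
    have hI0 : 0 ≤ ∫ y in (1 : ℝ)..X, |DD M H y| ^ p' :=
      intervalIntegral.integral_nonneg hX1'.le fun y _ => by positivity
    calc (c * s) ^ p' ≤ (((1 / X) * ∫ y in (1 : ℝ)..X, |DD M H y| ^ p') ^ (1 / p')) ^ p' := by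
          gcongr
      _ = _ := by
          rw [← Real.rpow_mul (by positivity), one_div_mul_cancel hp'0.ne', Real.rpow_one]
  · -- large values
    have hlog1 : 1 ≤ Real.log X := by
      rw [Real.le_log_iff_exp_le hX0]
      have := Real.exp_one_lt_d9
      linarith
    have hlv := large_values (lam := c0 / 2 * s) hp0 hX1'.le hDm
      (fun y hy => DD_point (M := M) hH hX3 hHleX hy) (by positivity) (by positivity)
    set E : Set ℝ := {y : ℝ | y ∈ Set.Ioc 1 X ∧ c0 / 2 * s ≤ |DD M H y|} with hE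
    have hsub : E ⊆ {x : ℝ | 1 < x ∧ x ≤ X ∧ c * s ≤ |psi x H - H|} := by
      rintro x ⟨hx, hx2⟩
      refine ⟨hx.1, hx.2, ?_⟩
      rw [hpsi x hx.2]
      refine le_trans ?_ hx2
      gcongr
    have hfin : volume {x : ℝ | 1 < x ∧ x ≤ X ∧ c * s ≤ |psi x H - H|} ≠ ⊤ := by
      refine ne_of_lt (lt_of_le_of_lt (measure_mono (t := Set.Ioc 1 X) fun x hx => ⟨hx.1, hx.2.1⟩) ?_)
      exact measure_Ioc_lt_top
    have hvol := ENNReal.toReal_mono hfin (measure_mono hsub)
    refine le_trans ?_ hvol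
    set I := ∫ y in (1 : ℝ)..X, |DD M H y| ^ p with hI
    have hI0 : 0 ≤ I := intervalIntegral.integral_nonneg hX1'.le fun y _ => by positivity
    have h4 : (c0 * s) ^ p ≤ (1 / X) * I := by
      calc (c0 * s) ^ p ≤ (((1 / X) * I) ^ (1 / p)) ^ p := by
            have := hlow
            gcongr
        _ = _ := by
            rw [← Real.rpow_mul (by positivity), one_div_mul_cancel hp0.ne', Real.rpow_one]
    have h5 : X * (c0 * s) ^ p ≤ I := by
      have : X * ((1 / X) * I) = I := by field_simp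
      calc X * (c0 * s) ^ p ≤ X * ((1 / X) * I) := by gcongr
        _ = I := this
    have h6 : (c0 / 2 * s) ^ p ≤ 1 / 2 * (c0 * s) ^ p := by
      have e : c0 / 2 * s = 1 / 2 * (c0 * s) := by ring
      rw [e, Real.mul_rpow (by norm_num) (by positivity)]
      apply mul_le_mul_of_nonneg_right _ (by positivity)
      calc (1 / 2 : ℝ) ^ p ≤ (1 / 2 : ℝ) ^ (1 : ℝ) :=
            Real.rpow_le_rpow_of_exponent_ge (by norm_num) (by norm_num) hp1.le
        _ = 1 / 2 := Real.rpow_one _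
    have h7 : X * (1 / 2 * (c0 * s) ^ p) ≤ (4 * H * Real.log X) ^ p * (volume E).toReal := by
      have : X * (c0 / 2 * s) ^ p ≤ X * (1 / 2 * (c0 * s) ^ p) := by gcongr
      linarith
    have hCD : 0 < (4 * H * Real.log X) ^ p := by positivity
    have h8 : X * (1 / 2 * (c0 * s) ^ p) / (4 * H * Real.log X) ^ p ≤ (volume E).toReal := by
      rw [div_le_iff₀ hCD]
      linarith
    refine le_trans ?_ h8
    have h9 : X * (1 / 2 * (c0 * s) ^ p) / (4 * H * Real.log X) ^ p =
        (1 / 2 * (c0 / 4) ^ p) * X * (s / (H * Real.log X)) ^ p := by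
      have e1 : (c0 * s) ^ p / (4 * H * Real.log X) ^ p = (c0 / 4) ^ p * (s / (H * Real.log X)) ^ p := by
        rw [← Real.div_rpow (by positivity) (by positivity), ← Real.mul_rpow (by positivity)
          (by positivity)]
        congr 1
        field_simp
      calc X * (1 / 2 * (c0 * s) ^ p) / (4 * H * Real.log X) ^ p =
          1 / 2 * X * ((c0 * s) ^ p / (4 * H * Real.log X) ^ p) := by ring
        _ = _ := by rw [e1]; ring
    rw [h9]
    have h10 : 0 ≤ (s / (H * Real.log X)) ^ p := by positivity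
    gcongr

end TH819.PL
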