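import Mathlib

/-! Trigonometric polynomials with rational frequencies as elements of the monoid algebra `ℝ[ℚ]`. -/

open Finset

namespace TH819.PL

/-- `ℝ[ℚ]` -/
abbrev AA := AddMonoidAlgebra ℝ ℚ

/-- coefficients of a product -/
lemma cmul (u v : AA) (α : ℚ) :
    (u * v).coeff α = ∑ β ∈ u.coeff.support, u.coeff β * v.coeff (α - β) := by
  classical
  rw [AddMonoidAlgebra.coeff_mul, Finsupp.sum]
  refine sum_congr rfl fun β _ => ?_
  rw [Finsupp.sum]
  have h1 : ∀ γ ∈ v.coeff.support, (if β + γ = α then u.coeff β * v.coeff γ else 0) =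
      if γ = α - β then u.coeff β * v.coeff (α - β) else 0 := by
    intro γ _
    by_cases h : β + γ = α
    · rw [if_pos h, if_pos (by linarith), ← h]
      congr 2
      ring
    · rw [if_neg h, if_neg (fun h2 => h (by rw [h2]; ring))]
  rw [sum_congr rfl h1, sum_ite_eq']
  by_cases h : α - β ∈ v.coeff.support
  · rw [if_pos h]
  · rw [if_neg h, Finsupp.notMem_support_iff.1 h, mul_zero]

/-- nonnegative coefficients -/
def NN (u : AA) : Prop := ∀ α, 0 ≤ u.coeff α

/-- `u` is dominated by `U` -/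
def Dom (u U : AA) : Prop := ∀ α, |u.coeff α| ≤ U.coeff α

lemma NN_mul {u v : AA} (hu : NN u) (hv : NN v) : NN (u * v) := by
  intro α
  rw [cmul]
  exact sum_nonneg fun β _ => mul_nonneg (hu _) (hv _)

lemma coeff_one' (α : ℚ) : (1 : AA).coeff α = if α = 0 then 1 else 0 := by
  classical
  rw [AddMonoidAlgebra.one_def, AddMonoidAlgebra.coeff_single, Finsupp.single_apply]
  by_cases h : α = 0
  · rw [if_pos h, if_pos h.symm]
  · rw [if_neg h, if_neg (fun h2 => h h2.symm)]

lemma NN_one : NN 1 := by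
  intro α
  rw [coeff_one']
  split_ifs <;> norm_num

lemma NN_pow {u : AA} (hu : NN u) (n : ℕ) : NN (u ^ n) := by
  induction n with
  | zero => rw [pow_zero]; exact NN_one
  | succ n ih => rw [pow_succ]; exact NN_mul ih hu

lemma coeff_sum' {ι : Type*} (s : Finset ι) (f : ι → AA) (α : ℚ) :
    (∑ i ∈ s, f i).coeff α = ∑ i ∈ s, (f i).coeff α := by
  rw [AddMonoidAlgebra.coeff_sum, Finsupp.finsetSum_apply]

lemma NN_sum {ι : Type*} {s : Finset ι} {f : ι → AA} (h : ∀ i ∈ s, NN (f i)) :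
    NN (∑ i ∈ s, f i) := by
  intro α
  rw [coeff_sum']
  exact sum_nonneg fun i hi => h i hi α

lemma NN_single (r : ℚ) {c : ℝ} (hc : 0 ≤ c) : NN (AddMonoidAlgebra.single r c) := by
  classical
  intro α
  rw [AddMonoidAlgebra.coeff_single, Finsupp.single_apply]
  split_ifs <;> simp [hc]

/-- sum over any set containing the support -/
lemma cmul' (u v : AA) (α : ℚ) {s : Finset ℚ} (hs : u.coeff.support ⊆ s) :
    (u * v).coeff α = ∑ β ∈ s, u.coeff β * v.coeff (α - β) := by
  rw [cmul]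
  refine sum_subset hs fun β _ hβ => ?_
  rw [Finsupp.notMem_support_iff.1 hβ, zero_mul]

lemma Dom_mul {u v U V : AA} (hu : Dom u U) (hv : Dom v V) : Dom (u * v) (U * V) := by
  classical
  intro α
  rw [cmul' u v α (subset_union_left (s₂ := U.coeff.support)),
    cmul' U V α (subset_union_right (s₁ := u.coeff.support))]
  refine (abs_sum_le_sum_abs _ _).trans (sum_le_sum fun β _ => ?_)
  rw [abs_mul]
  exact mul_le_mul (hu β) (hv _) (abs_nonneg _) ((abs_nonneg _).trans (hu β))

lemma Dom_one : Dom 1 1 := by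
  intro α
  rw [abs_of_nonneg (NN_one α)]

lemma Dom_pow {u U : AA} (hu : Dom u U) (n : ℕ) : Dom (u ^ n) (U ^ n) := by
  induction n with
  | zero => rw [pow_zero, pow_zero]; exact Dom_one
  | succ n ih => rw [pow_succ, pow_succ]; exact Dom_mul ih hu

lemma Dom_self {u : AA} (hu : NN u) : Dom u u := fun α => by rw [abs_of_nonneg (hu α)]

/-- monotonicity of powers -/
lemma pow_mono {u U : AA} (hu : NN u) (h : ∀ α, u.coeff α ≤ U.coeff α) (n : ℕ) (α : ℚ) :
    (u ^ n).coeff α ≤ (U ^ n).coeff α :=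
  (le_abs_self _).trans (Dom_pow (fun α => by rw [abs_of_nonneg (hu α)]; exact h α) n α)

/-- evaluation at `y`, through a character -/
noncomputable def chr (y : ℝ) : Multiplicative ℚ →* ℂ where
  toFun q := Complex.exp ((2 * Real.pi * (y * ((q.toAdd : ℚ) : ℝ)) : ℝ) * Complex.I)
  map_one' := by simp
  map_mul' a b := by
    rw [← Complex.exp_add]
    congr 1
    rw [toAdd_mul]
    push_cast
    ring

/-- evaluation -/
noncomputable def ev (y : ℝ) : AA →ₐ[ℝ] ℂ := AddMonoidAlgebra.lift ℝ ℂ ℚ (chr y)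

lemma ev_apply (y : ℝ) (u : AA) : ev y u = ∑ α ∈ u.coeff.support, (u.coeff α : ℂ) *
    Complex.exp ((2 * Real.pi * (y * (α : ℝ)) : ℝ) * Complex.I) := by
  unfold ev
  rw [AddMonoidAlgebra.lift_apply, Finsupp.sum]
  refine sum_congr rfl fun α _ => ?_
  rw [Complex.real_smul]
  rfl

lemma ev_single (y : ℝ) (r : ℚ) (c : ℝ) : ev y (AddMonoidAlgebra.single r c) = (c : ℂ) *
    Complex.exp ((2 * Real.pi * (y * (r : ℝ)) : ℝ) * Complex.I) := by
  unfold ev
  rw [AddMonoidAlgebra.lift_single, Complex.real_smul]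
  rfl

/-- total mass -/
noncomputable def mass (u : AA) : ℝ := ∑ α ∈ u.coeff.support, u.coeff α

lemma mass_ev (u : AA) : (mass u : ℂ) = ev 0 u := by
  rw [ev_apply, mass, Complex.ofReal_sum]
  refine sum_congr rfl fun α _ => ?_
  simp

lemma mass_mul (u v : AA) : mass (u * v) = mass u * mass v := by
  have h : ((mass (u * v) : ℝ) : ℂ) = ((mass u * mass v : ℝ) : ℂ) := by
    rw [Complex.ofReal_mul, mass_ev, mass_ev, mass_ev, map_mul]
  exact_mod_cast h

lemma mass_pow (u : AA) (n : ℕ) : mass (u ^ n) = mass u ^ n := by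
  have h : ((mass (u ^ n) : ℝ) : ℂ) = ((mass u ^ n : ℝ) : ℂ) := by
    rw [Complex.ofReal_pow, mass_ev, mass_ev, map_pow]
  exact_mod_cast h

lemma mass_single (r : ℚ) (c : ℝ) : mass (AddMonoidAlgebra.single r c) = c := by
  have h : ((mass (AddMonoidAlgebra.single r c) : ℝ) : ℂ) = (c : ℂ) := by
    rw [mass_ev, ev_single]
    simp
  exact_mod_cast h

lemma mass_sum {ι : Type*} (s : Finset ι) (f : ι → AA) : mass (∑ i ∈ s, f i) = ∑ i ∈ s, mass (f i) := by
  have h : ((mass (∑ i ∈ s, f i) : ℝ) : ℂ) = ((∑ i ∈ s, mass (f i) : ℝ) : ℂ) := by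
    rw [mass_ev, map_sum, Complex.ofReal_sum]
    exact sum_congr rfl fun i _ => (mass_ev _).symm
  exact_mod_cast h

/-- the constant coefficient of a product is at most mass times supremum -/
lemma coeff_mul_le {u v : AA} (hu : NN u) {s : ℝ} (hv : ∀ α, v.coeff α ≤ s) (α : ℚ) :
    (u * v).coeff α ≤ mass u * s := by
  rw [cmul, mass, sum_mul]
  exact sum_le_sum fun β _ => mul_le_mul_of_nonneg_left (hv _) (hu _)

/-- support predicates -/
def In (P : ℚ → Prop) (u : AA) : Prop := ∀ α, u.coeff α ≠ 0 → P α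

lemma In_mul {P Q R : ℚ → Prop} {u v : AA} (hu : In P u) (hv : In Q v)
    (h : ∀ a b, P a → Q b → R (a + b)) : In R (u * v) := by
  intro α hα
  rw [cmul] at hα
  obtain ⟨β, _, h2⟩ := exists_ne_zero_of_sum_ne_zero hα
  have h3 := hu β (left_ne_zero_of_mul h2)
  have h4 := hv (α - β) (right_ne_zero_of_mul h2)
  have := h _ _ h3 h4
  rwa [add_sub_cancel] at this

lemma In_one {P : ℚ → Prop} (h : P 0) : In P 1 := by
  intro α hα
  rw [coeff_one'] at hα
  by_cases h0 : α = 0
  · rwa [h0]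
  · rw [if_neg h0] at hα
    exact absurd rfl hα

lemma In_pow {P : ℕ → ℚ → Prop} {u : AA} (h0 : P 0 0) (hu : In (P 1) u)
    (h : ∀ n a b, P n a → P 1 b → P (n + 1) (a + b)) (n : ℕ) : In (P n) (u ^ n) := by
  induction n with
  | zero => rw [pow_zero]; exact In_one h0
  | succ n ih => rw [pow_succ]; exact In_mul ih hu (h n)

lemma In_sum {ι : Type*} {P : ℚ → Prop} {s : Finset ι} {f : ι → AA} (h : ∀ i ∈ s, In P (f i)) :
    In P (∑ i ∈ s, f i) := by
  intro α hα
  rw [coeff_sum'] at hα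
  obtain ⟨i, hi, h2⟩ := exists_ne_zero_of_sum_ne_zero hα
  exact h i hi α h2

lemma In_single {P : ℚ → Prop} {r : ℚ} (c : ℝ) (h : P r) : In P (AddMonoidAlgebra.single r c) := by
  classical
  intro α hα
  rw [AddMonoidAlgebra.coeff_single, Finsupp.single_apply] at hα
  by_cases h0 : r = α
  · rwa [← h0]
  · rw [if_neg h0] at hα
    exact absurd rfl hα

/-- factorization of the constant coefficient -/
lemma factor {P Q : ℚ → Prop} {u v : AA} (hu : In P u) (hv : In Q v)
    (h : ∀ a, P a → Q (-a) → a = 0) : (u * v).coeff 0 = u.coeff 0 * v.coeff 0 := by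
  classical
  rw [cmul' u v 0 (subset_insert 0 _), sum_eq_single 0]
  · rw [sub_zero]
  · intro β _ hβ
    by_contra h2
    have h3 := hu β (left_ne_zero_of_mul h2)
    have h4 := hv (0 - β) (right_ne_zero_of_mul h2)
    rw [zero_sub] at h4
    exact hβ (h β h3 h4)
  · intro h2
    exact absurd (mem_insert_self _ _) h2

/-- **the recursion**: moments of a sum of independent terms -/
theorem moments (P : Finset ℕ) (b : ℕ → AA) (hNN : ∀ p ∈ P, NN (b p)) (n : ℕ)
    (hfac : ∀ p ∈ P, ∀ j i, j + i ≤ n → (b p ^ j * (∑ q ∈ P.erase p, b q) ^ i).coeff 0 =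
      (b p ^ j).coeff 0 * ((∑ q ∈ P.erase p, b q) ^ i).coeff 0)
    (h1 : ∀ p ∈ P, (b p).coeff 0 = 0) (W : ℝ) (hW : 0 ≤ W)
    (hj : ∀ j, 2 ≤ j → j ≤ n → ∑ p ∈ P, (b p ^ j).coeff 0 ≤ W ^ j) :
    ∀ i ≤ n, ((∑ p ∈ P, b p) ^ i).coeff 0 ≤ 2 ^ (i ^ 2) * W ^ i := by
  classical
  set T := ∑ p ∈ P, b p with hT
  have hTN : NN T := NN_sum hNN
  have hj' : ∀ j, 1 ≤ j → j ≤ n → ∑ p ∈ P, (b p ^ j).coeff 0 ≤ W ^ j := by
    intro j h1' h2
    rcases Nat.lt_or_ge 1 j with h | h
    · exact hj j h h2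
    · have : j = 1 := by omega
      subst this
      rw [sum_eq_zero fun p hp => by rw [pow_one, h1 p hp], pow_one]
      exact hW
  intro i
  induction i using Nat.strong_induction_on with
  | _ i ih =>
    intro hi
    rcases Nat.eq_zero_or_pos i with h0 | h0
    · subst h0
      rw [pow_zero, coeff_one', if_pos rfl]
      norm_num
    · obtain ⟨k, rfl⟩ : ∃ k, i = k + 1 := ⟨i - 1, by omega⟩
      have hexp : (T ^ (k + 1)).coeff 0 = ∑ p ∈ P, ∑ j ∈ range (k + 1),
          (k.choose j : ℝ) * ((b p ^ (j + 1)).coeff 0 *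
            ((∑ q ∈ P.erase p, b q) ^ (k - j)).coeff 0) := by
        have h2 : T ^ (k + 1) = ∑ p ∈ P, b p * T ^ k := by
          rw [← sum_mul, ← hT, pow_succ, mul_comm]
        rw [h2, coeff_sum']
        refine sum_congr rfl fun p hp => ?_
        have h3 : T = b p + ∑ q ∈ P.erase p, b q := (add_sum_erase P b hp).symm
        rw [h3, add_pow, mul_sum, coeff_sum']
        refine sum_congr rfl fun j hj => ?_
        rw [mem_range] at hj
        have h4 : b p * (b p ^ j * (∑ q ∈ P.erase p, b q) ^ (k - j) * (k.choose j : AA)) =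
            (k.choose j : ℝ) • (b p ^ (j + 1) * (∑ q ∈ P.erase p, b q) ^ (k - j)) := by
          rw [Algebra.smul_def, map_natCast, pow_succ]
          ring
        rw [h4, AddMonoidAlgebra.coeff_smul_apply, smul_eq_mul, hfac p hp (j + 1) (k - j) (by omega)]
      rw [hexp, sum_comm]
      have h5 : ∀ j ∈ range (k + 1), ∑ p ∈ P, (k.choose j : ℝ) * ((b p ^ (j + 1)).coeff 0 *
            ((∑ q ∈ P.erase p, b q) ^ (k - j)).coeff 0) ≤
          (k.choose j : ℝ) * (2 ^ (k ^ 2) * W ^ (k + 1)) := by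
        intro j hj
        rw [mem_range] at hj
        rw [← mul_sum]
        apply mul_le_mul_of_nonneg_left _ (by positivity)
        have h6 : ∀ p ∈ P, (b p ^ (j + 1)).coeff 0 *
            ((∑ q ∈ P.erase p, b q) ^ (k - j)).coeff 0 ≤
            (b p ^ (j + 1)).coeff 0 * (T ^ (k - j)).coeff 0 := by
          intro p hp
          apply mul_le_mul_of_nonneg_left _ (NN_pow (hNN p hp) _ _)
          refine pow_mono (NN_sum fun q hq => hNN q (mem_of_mem_erase hq)) (fun α => ?_) _ _
          have h3 : T = b p + ∑ q ∈ P.erase p, b q := (add_sum_erase P b hp).symm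
          rw [h3, AddMonoidAlgebra.coeff_add, Finsupp.add_apply]
          linarith [hNN p hp α]
        refine (sum_le_sum h6).trans ?_
        rw [← sum_mul]
        have h7 := ih (k - j) (by omega) (by omega)
        have h8 : (0 : ℝ) ≤ (T ^ (k - j)).coeff 0 := NN_pow hTN _ _
        calc (∑ p ∈ P, (b p ^ (j + 1)).coeff 0) * (T ^ (k - j)).coeff 0 ≤
            W ^ (j + 1) * (2 ^ ((k - j) ^ 2) * W ^ (k - j)) := by
              apply mul_le_mul (hj' (j + 1) (by omega) (by omega)) h7 h8 (by positivity)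
          _ = 2 ^ ((k - j) ^ 2) * W ^ (k + 1) := by
              rw [show k + 1 = (j + 1) + (k - j) by omega, pow_add W]
              ring
          _ ≤ 2 ^ (k ^ 2) * W ^ (k + 1) := by
              apply mul_le_mul_of_nonneg_right _ (by positivity)
              apply pow_le_pow_right₀ (by norm_num)
              exact Nat.pow_le_pow_left (by omega) 2
      refine (sum_le_sum h5).trans ?_
      rw [← sum_mul]
      have h9 : ∑ j ∈ range (k + 1), (k.choose j : ℝ) = 2 ^ k := by
        exact_mod_cast Nat.sum_range_choose k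
      rw [h9, ← mul_assoc, ← pow_add]
      apply mul_le_mul_of_nonneg_right _ (by positivity)
      apply pow_le_pow_right₀ (by norm_num)
      nlinarith

end TH819.PL
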