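import Mathlib

/-! Hölder's inequality on an interval and consequences. -/

open MeasureTheory

namespace TH819.PL

lemma holder_int {p q : ℝ} (hpq : p.HolderConjugate q) {a X : ℝ} (haX : a ≤ X) {D G : ℝ → ℝ}
    (hD : Measurable D) (hG : Measurable G) {CD CG : ℝ} (hDb : ∀ y, |D y| ≤ CD)
    (hGb : ∀ y ∈ Set.Ioc a X, |G y| ≤ CG) :
    ∫ y in a..X, D y * G y ≤
      (∫ y in a..X, |D y| ^ p) ^ (1 / p) * (∫ y in a..X, |G y| ^ q) ^ (1 / q) := by
  rw [intervalIntegral.integral_of_le haX, intervalIntegral.integral_of_le haX,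
    intervalIntegral.integral_of_le haX]
  have hDm : MemLp D (ENNReal.ofReal p) (volume.restrict (Set.Ioc a X)) :=
    MemLp.of_bound hD.aestronglyMeasurable CD (Filter.Eventually.of_forall fun y => by
      rw [Real.norm_eq_abs]; exact hDb y)
  have hGm : MemLp G (ENNReal.ofReal q) (volume.restrict (Set.Ioc a X)) := by
    refine MemLp.of_bound hG.aestronglyMeasurable CG ?_
    rw [ae_restrict_iff' measurableSet_Ioc]
    exact Filter.Eventually.of_forall fun y hy => by rw [Real.norm_eq_abs]; exact hGb y hy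
  have h1 := integral_mul_norm_le_Lp_mul_Lq hpq hDm hGm
  simp only [Real.norm_eq_abs] at h1
  refine le_trans ?_ h1
  refine (le_abs_self _).trans ((abs_integral_le_integral_abs).trans (le_of_eq ?_))
  congr 1
  ext y
  rw [abs_mul]

/-- monotonicity of the normalized norms -/
lemma norm_mono {p p' : ℝ} (hp : 1 ≤ p) (hpp : p ≤ p') {X : ℝ} (hX : 1 < X) {D : ℝ → ℝ}
    (hD : Measurable D) {CD : ℝ} (hDb : ∀ y, |D y| ≤ CD) :
    ((1 / X) * ∫ y in (1 : ℝ)..X, |D y| ^ p) ^ (1 / p) ≤
      ((1 / X) * ∫ y in (1 : ℝ)..X, |D y| ^ p') ^ (1 / p') := by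
  have hX0 : 0 < X := by linarith
  have hp0 : 0 < p := by linarith
  have hp'0 : 0 < p' := by linarith
  rcases hpp.eq_or_lt with h | h
  · rw [h]
  have hC0 : 0 ≤ CD := (abs_nonneg _).trans (hDb 0)
  have hr : 1 < p' / p := by rw [one_lt_div hp0]; exact h
  have hpq : (p' / p).HolderConjugate ((p' / p).conjExponent) := Real.HolderConjugate.conjExponent hr
  have h1 := holder_int hpq hX.le (D := fun y => |D y| ^ p) (G := fun _ => (1 : ℝ))
    ((continuous_abs.measurable.comp hD).pow_const p) measurable_const (CD := CD ^ p) (CG := 1)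
    (fun y => by
      rw [abs_of_nonneg (by positivity)]
      exact Real.rpow_le_rpow (abs_nonneg _) (hDb y) hp0.le) (fun y _ => by simp)
  simp only [mul_one, abs_one, Real.one_rpow] at h1
  rw [intervalIntegral.integral_const, smul_eq_mul, mul_one] at h1
  have h2 : ∀ y, |(|D y| ^ p)| ^ (p' / p) = |D y| ^ p' := by
    intro y
    rw [abs_of_nonneg (by positivity), ← Real.rpow_mul (abs_nonneg _)]
    congr 1
    field_simp
  simp only [h2] at h1
  set I := ∫ y in (1 : ℝ)..X, |D y| ^ p with hI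
  set I' := ∫ y in (1 : ℝ)..X, |D y| ^ p' with hI'
  have hI0 : 0 ≤ I := intervalIntegral.integral_nonneg hX.le fun y _ => by positivity
  have hI'0 : 0 ≤ I' := intervalIntegral.integral_nonneg hX.le fun y _ => by positivity
  have e1 : 1 / (p' / p) = p / p' := by field_simp
  have e2 : 1 / (p' / p).conjExponent = 1 - p / p' := by
    have := hpq.inv_add_inv_eq_one
    rw [← one_div, ← one_div, e1] at this
    linarith
  rw [e1, e2] at h1
  have h3 : (1 / X) * I ≤ ((1 / X) * I') ^ (p / p') := by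
    have h4 : (X - 1) ^ (1 - p / p') ≤ X ^ (1 - p / p') := by
      apply Real.rpow_le_rpow (by linarith) (by linarith)
      have : p / p' ≤ 1 := by rw [div_le_one hp'0]; exact hpp
      linarith
    have h5 : I ≤ I' ^ (p / p') * X ^ (1 - p / p') := h1.trans (by gcongr)
    rw [Real.mul_rpow (by positivity) hI'0]
    have h6 : (1 / X) ^ (p / p') = (1 / X) * X ^ (1 - p / p') := by
      rw [one_div, Real.inv_rpow hX0.le, Real.rpow_sub hX0, Real.rpow_one]
      field_simp
    rw [h6]
    calc 1 / X * I ≤ 1 / X * (I' ^ (p / p') * X ^ (1 - p / p')) := by gcongr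
      _ = _ := by ring
  calc ((1 / X) * I) ^ (1 / p) ≤ (((1 / X) * I') ^ (p / p')) ^ (1 / p) := by
        apply Real.rpow_le_rpow (by positivity) h3 (by positivity)
    _ = ((1 / X) * I') ^ (1 / p') := by
        rw [← Real.rpow_mul (by positivity)]
        congr 1
        field_simp

/-- large values -/
lemma large_values {p : ℝ} (hp : 0 < p) {X : ℝ} (hX : 1 ≤ X) {D : ℝ → ℝ}
    (hD : Measurable D) {CD lam : ℝ} (hDb : ∀ y ∈ Set.Ioc 1 X, |D y| ≤ CD) (hC : 0 ≤ CD)
    (hlam : 0 ≤ lam) :
    ∫ y in (1 : ℝ)..X, |D y| ^ p ≤ X * lam ^ p +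
      CD ^ p * (volume {y : ℝ | y ∈ Set.Ioc 1 X ∧ lam ≤ |D y|}).toReal := by
  set E : Set ℝ := {y : ℝ | y ∈ Set.Ioc 1 X ∧ lam ≤ |D y|} with hE
  have hEm : MeasurableSet E := by
    apply measurableSet_Ioc.inter
    exact measurableSet_le measurable_const (continuous_abs.measurable.comp hD)
  have hEf : volume E < ⊤ := lt_of_le_of_lt (measure_mono fun y hy => hy.1) measure_Ioc_lt_top
  rw [intervalIntegral.integral_of_le hX]
  have h1 : ∀ y ∈ Set.Ioc 1 X, |D y| ^ p ≤ lam ^ p + E.indicator (fun _ => CD ^ p) y := by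
    intro y hy
    by_cases h : lam ≤ |D y|
    · rw [Set.indicator_of_mem (show y ∈ E from ⟨hy, h⟩)]
      have := Real.rpow_le_rpow (abs_nonneg _) (hDb y hy) hp.le
      have h3 : 0 ≤ lam ^ p := by positivity
      linarith
    · rw [Set.indicator_of_notMem (fun h2 : y ∈ E => h h2.2), add_zero]
      push Not at h
      exact Real.rpow_le_rpow (abs_nonneg _) h.le hp.le
  have hint1 : IntegrableOn (fun y => |D y| ^ p) (Set.Ioc 1 X) := by
    refine Measure.integrableOn_of_bounded (M := CD ^ p) measure_Ioc_lt_top.ne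
      ((continuous_abs.measurable.comp hD).pow_const p).aestronglyMeasurable ?_
    rw [ae_restrict_iff' measurableSet_Ioc]
    refine Filter.Eventually.of_forall fun y hy => ?_
    rw [Real.norm_of_nonneg (by positivity)]
    exact Real.rpow_le_rpow (abs_nonneg _) (hDb y hy) hp.le
  have hint3 : IntegrableOn (E.indicator (fun _ => CD ^ p)) (Set.Ioc 1 X) := by
    apply Integrable.integrableOn
    rw [integrable_indicator_iff hEm]
    exact integrableOn_const hEf.ne
  have hint2 : IntegrableOn (fun y => lam ^ p + E.indicator (fun _ => CD ^ p) y)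
      (Set.Ioc 1 X) := by
    apply Integrable.add _ hint3
    exact integrableOn_const measure_Ioc_lt_top.ne
  refine (setIntegral_mono_on hint1 hint2 measurableSet_Ioc h1).trans ?_
  have hi4 : Integrable (fun _ : ℝ => lam ^ p) (volume.restrict (Set.Ioc 1 X)) :=
    integrableOn_const (s := Set.Ioc (1 : ℝ) X) measure_Ioc_lt_top.ne
  rw [integral_add hi4 hint3, setIntegral_const,
    setIntegral_indicator hEm, setIntegral_const]
  have h5 : Set.Ioc 1 X ∩ E = E := Set.inter_eq_right.2 fun y hy => hy.1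
  rw [h5, smul_eq_mul, smul_eq_mul, Measure.real, Measure.real, Real.volume_Ioc,
    ENNReal.toReal_ofReal (by linarith)]
  have h6 : 0 ≤ lam ^ p := by positivity
  have h7 : (X - 1) * lam ^ p ≤ X * lam ^ p := by nlinarith
  linarith

end TH819.PL
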