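import Pool.Agent.TH819.PL.Pol
import Pool.Agent.TH819.PL.Hold

/-! Pieces of the final argument. -/

open Finset MeasureTheory Filter Topology

namespace TH819.PL

open H343 H321VP

/-- final algebra -/
lemma fin_alg {k : ℕ} (hk : 2 ≤ k) {X H C4 LW κ a1 I : ℝ} (hX : 0 < X) (hH : 0 < H)
    (hC4 : 0 < C4) (hLW : 0 < LW) (hκ : 0 < κ) (hI : 0 ≤ I)
    (h : a1 * H * X * LW ≤ I ^ (1 / (2 * (k : ℝ) / (2 * k - 1))) *
      (X * H ^ (2 * k) * (C4 * (LW * (κ / H)) ^ k)) ^ (1 / (2 * (k : ℝ)))) :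
    a1 / (C4 ^ (1 / (2 * (k : ℝ))) * Real.sqrt κ) * Real.sqrt (H * LW) ≤
      ((1 / X) * I) ^ (1 / (2 * (k : ℝ) / (2 * k - 1))) := by
  have hk0 : (2 : ℝ) ≤ k := by exact_mod_cast hk
  have h2k : (0 : ℝ) < 2 * k := by linarith
  set Z := LW * (κ / H) with hZ
  have hZ0 : 0 < Z := by positivity
  have hpinv : 1 / (2 * (k : ℝ) / (2 * k - 1)) = 1 - 1 / (2 * (k : ℝ)) := by
    have : (2 * (k : ℝ) - 1) ≠ 0 := by linarith
    field_simp
  have e1 : (X * H ^ (2 * k) * (C4 * Z ^ k)) ^ (1 / (2 * (k : ℝ))) =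
      X ^ (1 / (2 * (k : ℝ))) * H * (C4 ^ (1 / (2 * (k : ℝ))) * Real.sqrt Z) := by
    rw [Real.mul_rpow (by positivity) (by positivity), Real.mul_rpow (by positivity)
      (by positivity), Real.mul_rpow (by positivity) (by positivity)]
    have h1 : (H ^ (2 * k)) ^ (1 / (2 * (k : ℝ))) = H := by
      rw [← Real.rpow_natCast, ← Real.rpow_mul hH.le]
      have : ((2 * k : ℕ) : ℝ) * (1 / (2 * (k : ℝ))) = 1 := by
        push_cast
        field_simp
      rw [this, Real.rpow_one]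
    have h2 : (Z ^ k) ^ (1 / (2 * (k : ℝ))) = Real.sqrt Z := by
      rw [← Real.rpow_natCast, ← Real.rpow_mul hZ0.le, Real.sqrt_eq_rpow]
      congr 1
      field_simp
    rw [h1, h2]
  have e2 : ((1 / X) * I) ^ (1 / (2 * (k : ℝ) / (2 * k - 1))) =
      X ^ (1 / (2 * (k : ℝ))) / X * I ^ (1 / (2 * (k : ℝ) / (2 * k - 1))) := by
    rw [Real.mul_rpow (by positivity) hI, hpinv, one_div X, Real.inv_rpow hX.le,
      Real.rpow_sub hX, Real.rpow_one]
    congr 1
    rw [inv_div]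
  rw [e1] at h
  rw [e2]
  set CC := C4 ^ (1 / (2 * (k : ℝ))) with hCC
  have hCC0 : 0 < CC := by positivity
  set XX := X ^ (1 / (2 * (k : ℝ))) with hXX
  have hXX0 : 0 < XX := by positivity
  set J := I ^ (1 / (2 * (k : ℝ) / (2 * k - 1))) with hJ
  have hsZ : 0 < Real.sqrt Z := Real.sqrt_pos.2 hZ0
  have hsκ : 0 < Real.sqrt κ := Real.sqrt_pos.2 hκ
  have e3 : Real.sqrt (H * LW) * Real.sqrt Z = LW * Real.sqrt κ := by
    rw [← Real.sqrt_mul (by positivity), hZ]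
    have : H * LW * (LW * (κ / H)) = LW ^ 2 * κ := by field_simp
    rw [this, Real.sqrt_mul (by positivity), Real.sqrt_sq hLW.le]
  have e4 : a1 / (CC * Real.sqrt κ) * Real.sqrt (H * LW) = (a1 * H * X * LW) /
      (X * H * CC * Real.sqrt Z) := by
    rw [div_mul_eq_mul_div, div_eq_div_iff (by positivity) (by positivity)]
    calc a1 * Real.sqrt (H * LW) * (X * H * CC * Real.sqrt Z) =
        a1 * X * H * CC * (Real.sqrt (H * LW) * Real.sqrt Z) := by ring
      _ = a1 * X * H * CC * (LW * Real.sqrt κ) := by rw [e3]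
      _ = _ := by ring
  rw [e4, div_le_iff₀ (by positivity)]
  refine h.trans (le_of_eq ?_)
  field_simp

/-- the phase function is positive -/
lemma sn_half {κ B v : ℝ} (hκ : 0 < κ) (hκB : κ * Real.exp B ≤ 1 / 2) (hv : v ≤ B) :
    1 / 2 ≤ sn (v + Real.log κ) := by
  unfold sn
  have e1 : Real.exp (v + Real.log κ) = Real.exp v * κ := by rw [Real.exp_add, Real.exp_log hκ]
  rw [e1]
  have h1 : Real.exp v ≤ Real.exp B := Real.exp_le_exp.2 hv
  have h2 : Real.exp v * κ ≤ 1 / 2 := by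
    calc Real.exp v * κ ≤ Real.exp B * κ := by gcongr
      _ ≤ 1 / 2 := by linarith
  have h0 : 0 < Real.exp v * κ := by positivity
  have hpi := Real.pi_pos
  have hx0 : 0 < Real.pi * (Real.exp v * κ) := by positivity
  have hx1 : Real.pi * (Real.exp v * κ) ≤ Real.pi / 2 := by nlinarith
  have h3 := Real.mul_le_sin hx0.le hx1
  rw [le_div_iff₀ hx0]
  have h4 : 2 / Real.pi * (Real.pi * (Real.exp v * κ)) = 2 * (Real.exp v * κ) := by field_simp
  rw [h4] at h3
  have h5 : Real.pi ≤ 4 := Real.pi_le_four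
  nlinarith

/-- tests for the lower bound -/
lemma tests2 : ∃ (B : ℝ) (ρ lam : ℝ → ℝ), 1 ≤ B ∧ Test B ρ ∧ Test B lam ∧ (∀ v, 0 ≤ lam v) ∧
    (∀ v, lam v ≤ 1) ∧ (∀ v, 0 ≤ v → ρ v = 0) ∧ 0 < (∫ v, ρ v * Real.exp v) ∧
    ∀ κ : ℝ, 0 < κ → κ * Real.exp B ≤ 1 / 2 →
      Test B (fun v => lam v * sn (v + Real.log κ)) ∧
      0 < ∫ v, (lam v * sn (v + Real.log κ)) * Real.exp v := by
  obtain ⟨B, ρ, lam, hB1, hρ, hlam, hρ01, hlam01, hρ0, hρm, hlm⟩ := tests (1 / 4) (by norm_num)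
    (by norm_num)
  refine ⟨B, ρ, lam, hB1, hρ, hlam, fun v => (hlam01 v).1, fun v => (hlam01 v).2, hρ0,
    by linarith, fun κ hκ hκB => ?_⟩
  have ht : Test B (fun v => lam v * sn (v + Real.log κ)) := ⟨hlam.smooth.mul
    (sn_smooth.comp (contDiff_id.add contDiff_const)), fun v hv => by
      rw [hlam.supp v hv, zero_mul]⟩
  refine ⟨ht, ?_⟩
  have hintr : ∀ {f g : ℝ → ℝ}, Test B f → Continuous g → Integrable fun v => f v * g v := by
    intro f g hf hg
    apply Continuous.integrable_of_hasCompactSupport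
    · exact (tcont hf).mul hg
    · exact (tsupp hf).mul_right
  have h1 : (1 / 2) * ∫ v, lam v * (sn v ^ 2 * Real.exp v) ≤
      ∫ v, (lam v * sn (v + Real.log κ)) * Real.exp v := by
    rw [← integral_const_mul]
    refine integral_mono ((hintr hlam ((sn_smooth.continuous.pow 2).mul
      Real.continuous_exp)).const_mul _) (hintr ht Real.continuous_exp) fun v => ?_
    simp only
    rcases le_or_gt v B with h | h
    · have h2 := sn_half hκ hκB h
      have h3 := (hlam01 v).1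
      have h4 : sn v ^ 2 ≤ 1 := by
        rw [← sq_abs]
        exact pow_le_one₀ (abs_nonneg _) (sn_abs v)
      have h5 := Real.exp_pos v
      have h6 : 0 ≤ lam v * Real.exp v := by positivity
      calc 1 / 2 * (lam v * (sn v ^ 2 * Real.exp v)) = (lam v * Real.exp v) * (1 / 2 * sn v ^ 2) := by
            ring
        _ ≤ (lam v * Real.exp v) * sn (v + Real.log κ) := by
            apply mul_le_mul_of_nonneg_left _ h6
            nlinarith
        _ = _ := by ring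
    · have h2 : lam v = 0 := hlam.supp v (by
        rw [abs_of_pos (by linarith)]
        exact h.le)
      rw [h2]
      simp
  linarith

/-- the mass of the moduli -/
lemma LW_eq {M0 : ℕ} {P : Finset ℕ} (hP : ∀ p ∈ P, p.Prime ∧ M0 < p) :
    ∑ q ∈ WM M0 P, 1 / (Nat.totient q : ℝ) = (∑ p ∈ P, 1 / ((p : ℝ) - 1)) * LL 0 M0 := by
  rw [sum_WM M0 P hP, sum_mul]
  refine sum_congr rfl fun p hp => ?_
  obtain ⟨h1, h2⟩ := hP p hp
  rw [LL, mul_sum]
  refine sum_congr rfl fun m hm => ?_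
  rw [H343.Mod, mem_filter, mem_Ioc] at hm
  have hm1 : 1 ≤ m := hm.1.1
  rw [tot_mul h1 h2 hm1 hm.1.2]
  rw [one_div_mul_one_div]

/-- mass of `U` -/
lemma mass_le {B : ℝ} {l : ℝ → ℝ} (hl : Test B l) (hl0 : ∀ v, 0 ≤ l v) (hl1 : ∀ v, l v ≤ 1)
    {Y : ℝ} (hY : 0 < Y) {N M0 P2 : ℕ} {P : Finset ℕ} (hM0 : 1 ≤ M0)
    (hP : ∀ p ∈ P, p.Prime ∧ M0 < p) (hP2 : P ⊆ Icc 1 P2) :
    0 ≤ mass (∑ p ∈ P, bU l Y N M0 p) ∧
    mass (∑ p ∈ P, bU l Y N M0 p) = ∑ p ∈ P, ∑ i ∈ IP l Y N M0 p, wt l Y p i ∧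
    ∑ p ∈ P, ∑ i ∈ IP l Y N M0 p, wt l Y p i ≤
      2 * (Real.exp B * Y) * ((P2 * M0 : ℕ) : ℝ) ^ 2 := by
  have hUN : NN (∑ p ∈ P, bU l Y N M0 p) := NN_sum fun p _ => bU_NN hl0 N M0 p
  refine ⟨sum_nonneg fun α _ => hUN α, ?_, ?_⟩
  · rw [mass_sum]
    refine sum_congr rfl fun p _ => ?_
    unfold bU
    rw [mass_sum]
    exact sum_congr rfl fun i _ => sym_mass _ _
  · have h1 : ∀ p ∈ P, ∑ i ∈ IP l Y N M0 p, wt l Y p i ≤ 2 * Real.exp B * (M0 : ℝ) ^ 2 * Y :=
      fun p hp => wt_sum hl hl1 hY (hP p hp).1 (hP p hp).2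
    refine (sum_le_sum h1).trans ?_
    rw [sum_const, nsmul_eq_mul]
    have h2 : (P.card : ℝ) ≤ P2 := by
      have := card_le_card hP2
      rw [Nat.card_Icc] at this
      have h3 : P.card ≤ P2 := by omega
      exact_mod_cast h3
    rcases Nat.eq_zero_or_pos P2 with h0 | h0
    · have h3 : (P.card : ℝ) = 0 := by
        rw [h0] at h2
        have := Nat.cast_nonneg (α := ℝ) P.card
        push_cast at h2
        linarith
      rw [h3, zero_mul]
      positivity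
    · have h3 : (1 : ℝ) ≤ P2 := by exact_mod_cast h0
      have h4 : (P2 : ℝ) ≤ (P2 : ℝ) ^ 2 := by nlinarith
      push_cast
      calc (P.card : ℝ) * (2 * Real.exp B * (M0 : ℝ) ^ 2 * Y) ≤
          (P2 : ℝ) ^ 2 * (2 * Real.exp B * (M0 : ℝ) ^ 2 * Y) := by
            apply mul_le_mul_of_nonneg_right (h2.trans h4) (by positivity)
        _ = _ := by ring

/-- crude bound for `Λ` -/
lemma Ms_le {B X : ℝ} (hB : 0 < B) (hX : Real.exp B + 1 ≤ X) {M : ℕ} (hM1 : 1 ≤ M)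
    (hM : (M : ℝ) ≤ Real.exp B * X + 1) :
    ∑ n ∈ Icc 1 M, ArithmeticFunction.vonMangoldt n ≤ 4 * Real.exp B * X * Real.log X := by
  have heB : 1 ≤ Real.exp B := Real.one_le_exp hB.le
  have hX1 : 1 ≤ X := by linarith
  have hX0 : 0 < X := by linarith
  have hMpos : (0 : ℝ) < M := by exact_mod_cast hM1
  have hlogX : 0 ≤ Real.log X := Real.log_nonneg hX1
  have hMX : (M : ℝ) ≤ X * X := by nlinarith
  have hM2 : (M : ℝ) ≤ 2 * Real.exp B * X := by nlinarith
  have hlogM : Real.log M ≤ 2 * Real.log X := by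
    calc Real.log M ≤ Real.log (X * X) := Real.log_le_log hMpos hMX
      _ = 2 * Real.log X := by rw [Real.log_mul hX0.ne' hX0.ne']; ring
  calc ∑ n ∈ Icc 1 M, ArithmeticFunction.vonMangoldt n ≤ ∑ n ∈ Icc 1 M, Real.log M := by
        refine sum_le_sum fun n hn => ?_
        rw [mem_Icc] at hn
        refine ArithmeticFunction.vonMangoldt_le_log.trans ?_
        apply Real.log_le_log (by exact_mod_cast hn.1)
        exact_mod_cast hn.2
    _ = M * Real.log M := by rw [sum_const, Nat.card_Icc, nsmul_eq_mul]; simp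
    _ ≤ (2 * Real.exp B * X) * (2 * Real.log X) := by
        have : 0 ≤ Real.log M := Real.log_nonneg (by exact_mod_cast hM1)
        gcongr
    _ = _ := by ring

end TH819.PL
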