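import Pool.Agent.TH819.PL.Mom
import Pool.Agent.Helper256.KM.Mertens

/-! Choice of the parameters. -/

open Finset Filter Topology

namespace TH819.PL

open H343

/-- many primes between `P1` and `P2` -/
lemma primes_V : ∃ C : ℝ, 0 ≤ C ∧ ∀ P1 P2 : ℕ, 1 ≤ P1 → P1 ≤ P2 → 2 ≤ P2 →
    (Real.log P2 - Real.log P1 - C) / Real.log P2 ≤
      ∑ p ∈ (Ioc P1 P2).filter Nat.Prime, 1 / ((p : ℝ) - 1) := by
  obtain ⟨C, hC⟩ := Pool.Agent.Helper256.KM.mertens_log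
  have hC0 : 0 ≤ C := (abs_nonneg _).trans (hC 1 le_rfl)
  refine ⟨2 * C, by positivity, fun P1 P2 h1 h12 h2 => ?_⟩
  have a1 := (abs_le.1 (hC P1 h1)).2
  have a2 := (abs_le.1 (hC P2 (h1.trans h12))).1
  have hlog : 0 < Real.log P2 := Real.log_pos (by exact_mod_cast h2)
  have hsplit : ∑ p ∈ (Icc 1 P2).filter Nat.Prime, Real.log p / p =
      ∑ p ∈ (Icc 1 P1).filter Nat.Prime, Real.log p / p +
      ∑ p ∈ (Ioc P1 P2).filter Nat.Prime, Real.log p / p := by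
    rw [← sum_union]
    · congr 1
      ext p
      simp only [mem_filter, mem_Icc, mem_union, mem_Ioc]
      constructor
      · rintro ⟨⟨h3, h4⟩, h5⟩
        rcases le_or_gt p P1 with h | h
        · exact Or.inl ⟨⟨h3, h⟩, h5⟩
        · exact Or.inr ⟨⟨h, h4⟩, h5⟩
      · rintro (⟨⟨h3, h4⟩, h5⟩ | ⟨⟨h3, h4⟩, h5⟩)
        · exact ⟨⟨h3, by omega⟩, h5⟩
        · exact ⟨⟨by omega, h4⟩, h5⟩
    · rw [disjoint_left]
      intro p hp hp2
      rw [mem_filter, mem_Icc] at hp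
      rw [mem_filter, mem_Ioc] at hp2
      omega
  rw [div_le_iff₀ hlog]
  calc Real.log P2 - Real.log P1 - 2 * C ≤
      ∑ p ∈ (Ioc P1 P2).filter Nat.Prime, Real.log p / p := by linarith
    _ ≤ ∑ p ∈ (Ioc P1 P2).filter Nat.Prime, (1 / ((p : ℝ) - 1)) * Real.log P2 := by
        refine sum_le_sum fun p hp => ?_
        rw [mem_filter, mem_Ioc] at hp
        have hp2 : (2 : ℝ) ≤ p := by exact_mod_cast hp.2.two_le
        have hlp : Real.log p ≤ Real.log P2 := Real.log_le_log (by linarith) (by exact_mod_cast hp.1.2)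
        have hlp0 : 0 ≤ Real.log p := Real.log_nonneg (by linarith)
        have h6 : 1 / (p : ℝ) ≤ 1 / ((p : ℝ) - 1) := one_div_le_one_div_of_le (by linarith) (by linarith)
        calc Real.log p / p = 1 / (p : ℝ) * Real.log p := by ring
          _ ≤ (1 / ((p : ℝ) - 1)) * Real.log P2 := by
              apply mul_le_mul h6 hlp hlp0
              apply one_div_nonneg.2
              linarith
    _ = _ := by rw [sum_mul]

/-- the log mass of the small parts -/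
lemma LL_low {τ H : ℝ} (hτ : 0 < τ) (hτ1 : τ ≤ 1) (hH : 1 ≤ H) :
    τ / 4 * (1 + Real.log H) ≤ LL 0 ⌊H ^ τ⌋₊ := by
  have hH0 : 0 < H := by linarith
  have h1 : 1 ≤ H ^ τ := Real.one_le_rpow hH hτ.le
  have hM : 1 ≤ ⌊H ^ τ⌋₊ := Nat.le_floor (by exact_mod_cast h1)
  have hL1 := LL_ge_one hM
  have hlogH : 0 ≤ Real.log H := Real.log_nonneg hH
  rcases le_or_gt (τ * Real.log H) 2 with h | h
  · nlinarith
  · have h2 := PhiSum.totient_lower ⌊H ^ τ⌋₊ hM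
    have h3 : H ^ τ / 2 ≤ (⌊H ^ τ⌋₊ : ℕ) := by
      have := Nat.lt_floor_add_one (H ^ τ)
      have h4 : (1 : ℝ) ≤ (⌊H ^ τ⌋₊ : ℕ) := by exact_mod_cast hM
      linarith
    have h4 : Real.log (H ^ τ / 2) ≤ Real.log (⌊H ^ τ⌋₊ : ℕ) :=
      Real.log_le_log (by positivity) h3
    rw [Real.log_div (by positivity) (by norm_num), Real.log_rpow hH0] at h4
    have := Real.log_two_lt_d9
    nlinarith

/-- all parameters at once -/
lemma params (k : ℕ) (hk : 2 ≤ k) (δ κ B A : ℝ) (hδ : 0 < δ) (hδ1 : δ ≤ 1 / (4 * (k : ℝ)))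
    (hκ : 0 < κ) (hB : 0 < B) (hκB : (2 * k : ℝ) * (Real.exp B * κ) ≤ 1 / 2) :
    ∀ᶠ X : ℝ in atTop, ∀ H : ℝ, 1 ≤ H → H ≤ X ^ (1 / (2 * (k : ℝ)) - δ) →
      Range (δ / 32) X (κ / H) ∧ A ≤ X * (κ / H) ∧ X ^ (3 / 4 : ℝ) ≤ X * (κ / H) ∧
      ∃ Q P2 N M : ℕ, Cuts (δ / 32) B X (κ / H) Q (P2 * ⌊H ^ (δ / 64)⌋₊) N M ∧
        (M : ℝ) ≤ Real.exp B * X + 1 ∧ 1 ≤ P2 * ⌊H ^ (δ / 64)⌋₊ ∧
        ((P2 * ⌊H ^ (δ / 64)⌋₊ : ℕ) : ℝ) ≤ X ^ (1 / (2 * (k : ℝ)) - δ / 4) ∧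
        (∀ p ∈ (Ioc Q P2).filter Nat.Prime, p.Prime ∧ ⌊H ^ (δ / 64)⌋₊ < p ∧
          Real.exp B * (p * ⌊H ^ (δ / 64)⌋₊) * (κ / H) ≤ N ∧
          (⌊H ^ (δ / 64)⌋₊ : ℝ) ^ 2 ≤ (κ / H) * (p - 1)) ∧
        ((2 * k : ℕ) : ℝ) * (Real.exp B * (κ / H)) * (⌊H ^ (δ / 64)⌋₊ : ℝ) ^ (2 * k) < 1 ∧
        (⌊H ^ (δ / 64)⌋₊ : ℝ) ^ 8 * (κ / H) ≤ 1 ∧
        δ / 8 ≤ ∑ p ∈ (Ioc Q P2).filter Nat.Prime, 1 / ((p : ℝ) - 1) := by
  obtain ⟨Cm, hCm, hV⟩ := primes_V
  have hk0 : (2 : ℝ) ≤ k := by exact_mod_cast hk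
  have hkd : δ ≤ 1 / 8 := hδ1.trans (by
    apply one_div_le_one_div_of_le (by norm_num)
    linarith)
  have heB : 1 ≤ Real.exp B := Real.one_le_exp hB.le
  have hκ1 : κ ≤ 1 / 8 := by
    have h1 : κ ≤ Real.exp B * κ := le_mul_of_one_le_left hκ.le heB
    have h2 : 4 * (Real.exp B * κ) ≤ (2 * k : ℝ) * (Real.exp B * κ) := by
      apply mul_le_mul_of_nonneg_right _ (by positivity)
      linarith
    linarith
  have hkinv : 1 / (2 * (k : ℝ)) ≤ 1 / 4 := by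
    apply one_div_le_one_div_of_le (by norm_num)
    linarith
  have hkinv0 : 0 < 1 / (2 * (k : ℝ)) := by positivity
  have hkdel : δ ≤ 1 / (2 * (k : ℝ)) / 2 := by
    refine hδ1.trans (le_of_eq ?_)
    field_simp
    ring
  have t1 : ∀ a : ℝ, 0 < a → ∀ c : ℝ, ∀ᶠ X : ℝ in atTop, c ≤ X ^ a := fun a ha c =>
    (tendsto_rpow_atTop ha).eventually_ge_atTop c
  have t2 : ∀ c : ℝ, ∀ᶠ X : ℝ in atTop, c ≤ Real.log X := fun c =>
    Real.tendsto_log_atTop.eventually_ge_atTop c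
  filter_upwards [t1 (δ / 8) (by positivity) (4 / κ), t1 (3 / 4) (by norm_num) A,
    t2 (8 / δ * (Cm + 2)), eventually_ge_atTop (4 : ℝ)] with X e1 e2 e3 e4 H hH hHX
  have hX1 : 1 ≤ X := by linarith
  have hX0 : 0 < X := by linarith
  have hH0 : 0 < H := by linarith
  have hlogX : 0 < Real.log X := Real.log_pos (by linarith)
  have hpm : ∀ {a b : ℝ}, a ≤ b → X ^ a ≤ X ^ b := fun h =>
    Real.rpow_le_rpow_of_exponent_le hX1 h
  have hHX4 : H ≤ X ^ (1 / 4 - δ) := hHX.trans (hpm (by linarith))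
  have hHleX : H ≤ X := by
    calc H ≤ X ^ (1 / 4 - δ) := hHX4
      _ ≤ X ^ (1 : ℝ) := hpm (by linarith)
      _ = X := Real.rpow_one X
  set M0 := ⌊H ^ (δ / 64)⌋₊ with hM0
  set Y := κ / H with hY
  have hY0 : 0 < Y := by positivity
  have hYκ : Y ≤ κ := by
    rw [hY, div_le_iff₀ hH0]; nlinarith
  have hY1 : Y ≤ 1 := by linarith
  have hτ1 : 1 ≤ H ^ (δ / 64) := Real.one_le_rpow hH (by positivity)
  have hM01 : 1 ≤ M0 := Nat.le_floor (by exact_mod_cast hτ1)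
  have hM0r : (1 : ℝ) ≤ M0 := by exact_mod_cast hM01
  have hM0H : (M0 : ℝ) ≤ H ^ (δ / 64) := Nat.floor_le (by positivity)
  have hM0X : (M0 : ℝ) ≤ X ^ (δ / 64) := hM0H.trans (by gcongr)
  -- `T`
  have hT34 : X ^ (3 / 4 : ℝ) ≤ X * Y := by
    have h1 : X ^ (3 / 4 : ℝ) * X ^ (1 / 4 - δ) * X ^ δ = X := by
      rw [← Real.rpow_add hX0, ← Real.rpow_add hX0]
      have : (3 / 4 + (1 / 4 - δ) + δ : ℝ) = 1 := by ring
      rw [this, Real.rpow_one]
    have h2 : 1 / κ ≤ X ^ δ := by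
      have h3 : 1 / κ ≤ 4 / κ := by gcongr; norm_num
      exact (h3.trans e1).trans (hpm (by linarith))
    have h3 : 1 ≤ X ^ δ * κ := by
      rw [div_le_iff₀ hκ] at h2
      exact h2
    rw [hY, ← mul_div_assoc, le_div_iff₀ hH0]
    have hp34 : 0 < X ^ (3 / 4 : ℝ) := Real.rpow_pos_of_pos hX0 _
    have hp14 : 0 < X ^ (1 / 4 - δ) := Real.rpow_pos_of_pos hX0 _
    calc X ^ (3 / 4 : ℝ) * H ≤ X ^ (3 / 4 : ℝ) * X ^ (1 / 4 - δ) := by gcongr
      _ = X ^ (3 / 4 : ℝ) * X ^ (1 / 4 - δ) * 1 := by ring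
      _ ≤ X ^ (3 / 4 : ℝ) * X ^ (1 / 4 - δ) * (X ^ δ * κ) := by gcongr
      _ = (X ^ (3 / 4 : ℝ) * X ^ (1 / 4 - δ) * X ^ δ) * κ := by ring
      _ = X * κ := by rw [h1]
  have hT1 : 1 ≤ X * Y := (Real.one_le_rpow hX1 (by norm_num)).trans hT34
  have hT0 : 0 < X * Y := by positivity
  have hTX : X * Y ≤ X := mul_le_of_le_one_right hX0.le hY1
  have hRange : Range (δ / 32) X Y := by
    refine ⟨hX0, hY0, hT1, ?_, ?_⟩
    · calc (X * Y) ^ (1 - δ / 32) ≤ (X * Y) ^ (1 : ℝ) :=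
            Real.rpow_le_rpow_of_exponent_le hT1 (by linarith)
        _ = X * Y := Real.rpow_one _
        _ ≤ X := hTX
    · calc X = X ^ (1 : ℝ) := (Real.rpow_one X).symm
        _ ≤ X ^ (3 / 4 * (3 / 2) : ℝ) := hpm (by norm_num)
        _ = (X ^ (3 / 4 : ℝ)) ^ (3 / 2 : ℝ) := by rw [Real.rpow_mul hX0.le]
        _ ≤ (X * Y) ^ (3 / 2 : ℝ) := by gcongr
  refine ⟨hRange, e2.trans hT34, hT34, ?_⟩
  -- the cut-offs
  set q0 : ℝ := H * X ^ (δ / 4) with hq0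
  set r0 : ℝ := H * X ^ (δ / 2) with hr0
  have hXd4 : 1 ≤ X ^ (δ / 4) := Real.one_le_rpow hX1 (by positivity)
  have hXd2 : 1 ≤ X ^ (δ / 2) := Real.one_le_rpow hX1 (by positivity)
  have hXd8 : 4 ≤ X ^ (δ / 8) := by
    refine le_trans ?_ e1
    rw [le_div_iff₀ hκ]
    linarith
  have hq01 : 1 ≤ q0 := one_le_mul_of_one_le_of_one_le hH hXd4
  have hr01 : 1 ≤ r0 := one_le_mul_of_one_le_of_one_le hH hXd2
  have hr0q0 : 16 * q0 ≤ r0 := by
    have h1 : X ^ (δ / 2) = X ^ (δ / 4) * (X ^ (δ / 8) * X ^ (δ / 8)) := by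
      rw [← Real.rpow_add hX0, ← Real.rpow_add hX0]
      congr 1
      ring
    rw [hr0, hq0, h1]
    have h2 : (16 : ℝ) ≤ X ^ (δ / 8) * X ^ (δ / 8) := by nlinarith
    have h3 : 0 < H * X ^ (δ / 4) := by positivity
    nlinarith
  set Q := ⌈q0⌉₊ with hQ
  set P2 := ⌊r0⌋₊ with hP2
  have hQl : q0 ≤ Q := Nat.le_ceil q0
  have hQu : (Q : ℝ) ≤ 2 * q0 := by
    have := Nat.ceil_lt_add_one (a := q0) (by linarith)
    linarith
  have hP2u : (P2 : ℝ) ≤ r0 := Nat.floor_le (by linarith)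
  have hP2l : r0 / 2 ≤ P2 := by
    have h1 := Nat.lt_floor_add_one r0
    have h2 : 1 ≤ P2 := Nat.le_floor (by exact_mod_cast hr01)
    have h3 : (1 : ℝ) ≤ P2 := by exact_mod_cast h2
    linarith
  have hQ1 : 1 ≤ Q := by
    have : (1 : ℝ) ≤ Q := hq01.trans hQl
    exact_mod_cast this
  have hQP : Q ≤ P2 := by
    have : (Q : ℝ) ≤ P2 := by linarith
    exact_mod_cast this
  have hP22 : 2 ≤ P2 := by
    have : (2 : ℝ) ≤ P2 := by linarith
    exact_mod_cast this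
  have hRu : ((P2 * M0 : ℕ) : ℝ) ≤ X ^ (1 / (2 * (k : ℝ)) - δ / 4) := by
    push_cast
    have hpos1 : 0 < X ^ (δ / 2) := Real.rpow_pos_of_pos hX0 _
    calc (P2 : ℝ) * M0 ≤ r0 * X ^ (δ / 64) := by gcongr
      _ = H * X ^ (δ / 2) * X ^ (δ / 64) := rfl
      _ ≤ X ^ (1 / (2 * (k : ℝ)) - δ) * X ^ (δ / 2) * X ^ (δ / 64) := by gcongr
      _ = X ^ (1 / (2 * (k : ℝ)) - δ + δ / 2 + δ / 64) := by
          rw [← Real.rpow_add hX0, ← Real.rpow_add hX0]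
      _ ≤ _ := hpm (by linarith)
  have hcop : ((X * Y) ^ (4 * (δ / 32))) ≤ X ^ (δ / 8) := by
    calc ((X * Y) ^ (4 * (δ / 32))) ≤ X ^ (4 * (δ / 32)) := by gcongr
      _ = X ^ (δ / 8) := by congr 1; ring
  refine ⟨Q, P2, ⌈Real.exp B * (P2 * M0 : ℕ) * Y⌉₊, ⌈Real.exp B * X⌉₊, ⟨?_, ?_, ?_, Nat.le_ceil _,
    Nat.le_ceil _⟩, (Nat.ceil_lt_add_one (by positivity)).le, ?_, hRu, ?_, ?_, ?_, ?_⟩
  · -- hQ1
    calc ((X * Y) ^ (4 * (δ / 32))) ≤ X ^ (δ / 8) := hcop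
      _ ≤ X ^ (δ / 4) := hpm (by linarith)
      _ ≤ q0 := le_mul_of_one_le_left (by positivity) hH
      _ ≤ Q := hQl
  · -- hQ2
    refine le_trans ?_ hQl
    rw [div_le_iff₀ hY0]
    have h1 : X ^ (δ / 4) = X ^ (δ / 8) * X ^ (δ / 8) := by
      rw [← Real.rpow_add hX0]
      congr 1
      ring
    have h2 : q0 * Y = κ * X ^ (δ / 4) := by
      rw [hq0, hY]
      field_simp
    rw [h2, h1]
    have h3 : 4 ≤ X ^ (δ / 8) * κ := by
      rw [div_le_iff₀ hκ] at e1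
      exact e1
    have h4 : 0 < X ^ (δ / 8) := by positivity
    calc (X * Y) ^ (4 * (δ / 32)) ≤ X ^ (δ / 8) := hcop
      _ ≤ X ^ (δ / 8) * (X ^ (δ / 8) * κ) := by nlinarith
      _ = _ := by ring
  · -- hR
    refine hRu.trans ?_
    calc X ^ (1 / (2 * (k : ℝ)) - δ / 4) ≤ X ^ (3 / 4 * (1 / 2 - δ / 32)) := hpm (by linarith)
      _ = (X ^ (3 / 4 : ℝ)) ^ (1 / 2 - δ / 32) := by rw [Real.rpow_mul hX0.le]
      _ ≤ (X * Y) ^ (1 / 2 - δ / 32) := by
          apply Real.rpow_le_rpow (by positivity) hT34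
          linarith
  · exact Nat.one_le_iff_ne_zero.2 (by positivity)
  · intro p hp
    rw [mem_filter, mem_Ioc] at hp
    have hpr : (p : ℝ) ≤ P2 := by exact_mod_cast hp.1.2
    have hpQ : (Q : ℝ) + 1 ≤ p := by exact_mod_cast hp.1.1
    refine ⟨hp.2, ?_, ?_, ?_⟩
    · have h1 : (M0 : ℝ) < p := by
        calc (M0 : ℝ) ≤ H ^ (δ / 64) := hM0H
          _ ≤ H ^ (1 : ℝ) := Real.rpow_le_rpow_of_exponent_le hH (by linarith)
          _ = H := Real.rpow_one H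
          _ ≤ q0 := le_mul_of_one_le_right hH0.le hXd4
          _ < p := by linarith
      exact_mod_cast h1
    · refine le_trans ?_ (Nat.le_ceil _)
      push_cast
      gcongr
    · have h1 : q0 ≤ (p : ℝ) - 1 := by linarith
      have h2 : (M0 : ℝ) ^ 2 ≤ X ^ (δ / 8) := by
        calc (M0 : ℝ) ^ 2 ≤ (X ^ (δ / 64)) ^ 2 := by gcongr
          _ = X ^ (δ / 32) := by
              rw [← Real.rpow_natCast, ← Real.rpow_mul hX0.le]
              congr 1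
              push_cast
              ring
          _ ≤ X ^ (δ / 8) := hpm (by linarith)
      have h3 : Y * q0 = κ * (X ^ (δ / 8) * X ^ (δ / 8)) := by
        rw [← Real.rpow_add hX0, hY, hq0]
        have : δ / 8 + δ / 8 = δ / 4 := by ring
        rw [this]
        field_simp
      have h4 : 4 ≤ X ^ (δ / 8) * κ := by
        rw [div_le_iff₀ hκ] at e1
        exact e1
      have h5 : 0 < X ^ (δ / 8) := by positivity
      calc (M0 : ℝ) ^ 2 ≤ X ^ (δ / 8) := h2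
        _ ≤ κ * (X ^ (δ / 8) * X ^ (δ / 8)) := by nlinarith
        _ = Y * q0 := h3.symm
        _ ≤ Y * (p - 1) := by gcongr
  · -- smallness
    have h1 : (M0 : ℝ) ^ (2 * k) ≤ H := by
      calc (M0 : ℝ) ^ (2 * k) ≤ (H ^ (δ / 64)) ^ (2 * k) := by gcongr
        _ = H ^ (δ / 64 * ((2 * k : ℕ) : ℝ)) := by
            rw [Real.rpow_mul hH0.le, Real.rpow_natCast]
        _ ≤ H ^ (1 : ℝ) := by
            apply Real.rpow_le_rpow_of_exponent_le hH
            push_cast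
            have : δ * (4 * k) ≤ 1 := by
              rw [le_div_iff₀ (by positivity)] at hδ1
              exact hδ1
            nlinarith
        _ = H := Real.rpow_one H
    have h2 : ((2 * k : ℕ) : ℝ) * (Real.exp B * (κ / H)) * (M0 : ℝ) ^ (2 * k) ≤
        (2 * k : ℝ) * (Real.exp B * κ) := by
      calc ((2 * k : ℕ) : ℝ) * (Real.exp B * (κ / H)) * (M0 : ℝ) ^ (2 * k) ≤
          ((2 * k : ℕ) : ℝ) * (Real.exp B * (κ / H)) * H := by gcongr
        _ = (2 * k : ℝ) * (Real.exp B * κ) := by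
            push_cast
            field_simp
    linarith
  · have h1 : (M0 : ℝ) ^ 8 ≤ H := by
      calc (M0 : ℝ) ^ 8 ≤ (H ^ (δ / 64)) ^ 8 := by gcongr
        _ = H ^ (δ / 8) := by
            rw [← Real.rpow_natCast, ← Real.rpow_mul hH0.le]
            congr 1
            push_cast
            ring
        _ ≤ H ^ (1 : ℝ) := Real.rpow_le_rpow_of_exponent_le hH (by linarith)
        _ = H := Real.rpow_one H
    calc (M0 : ℝ) ^ 8 * Y ≤ H * Y := by gcongr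
      _ = κ := by rw [hY]; field_simp
      _ ≤ 1 := by linarith
  · refine le_trans ?_ (hV Q P2 hQ1 hQP hP22)
    have hlP : Real.log P2 ≤ Real.log X := by
      apply Real.log_le_log (by linarith)
      calc (P2 : ℝ) ≤ r0 := hP2u
        _ ≤ X ^ (1 / 4 - δ) * X ^ (δ / 2) := by rw [hr0]; gcongr
        _ = X ^ (1 / 4 - δ + δ / 2) := by rw [← Real.rpow_add hX0]
        _ ≤ X ^ (1 : ℝ) := hpm (by linarith)
        _ = X := Real.rpow_one X
    have hlP0 : 0 < Real.log P2 := Real.log_pos (by exact_mod_cast hP22)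
    have h1 : Real.log (r0 / 2) ≤ Real.log P2 := Real.log_le_log (by positivity) hP2l
    have h2 : Real.log Q ≤ Real.log (2 * q0) :=
      Real.log_le_log (by exact_mod_cast hQ1) hQu
    rw [Real.log_div (by positivity) (by norm_num), hr0, Real.log_mul (by positivity)
      (by positivity), Real.log_rpow hX0] at h1
    rw [Real.log_mul (by norm_num) (by positivity), hq0, Real.log_mul (by positivity)
      (by positivity), Real.log_rpow hX0] at h2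
    have hl2 := Real.log_two_lt_d9
    rw [le_div_iff₀ hlP0]
    have h3 : 8 / δ * (Cm + 2) ≤ Real.log X := e3
    have h4 : Cm + 2 ≤ δ / 8 * Real.log X := by
      rw [div_mul_eq_mul_div, div_le_iff₀ hδ] at h3
      linarith
    have h5 : δ / 8 * Real.log P2 ≤ δ / 8 * Real.log X := by gcongr
    linarith

end TH819.PL
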