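import Pool.Agent.TH819.PL.FinA
import Pool.Agent.TH819.PL.Par

/-! The lower bound for the `p`-norm. -/

open Finset MeasureTheory Filter Topology

namespace TH819.PL

open H343 H321VP

/-- the norm of the test function, with parameters -/
lemma norm_bd (k : ℕ) (hk : 2 ≤ k) (δ κ B v0 C2 K : ℝ) (hδ : 0 < δ) (hδ1 : δ ≤ 1 / (4 * (k : ℝ)))
    (hκ : 0 < κ) (hκ1 : κ ≤ 1) (hB : 0 < B) (hκB : 2 * (Real.exp B * κ) ≤ 1) (hv0 : 0 < v0)
    (hC2 : 0 < C2) (hK : 1 ≤ K) :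
    ∀ᶠ X : ℝ in atTop, ∀ (H Y LW U0 ms : ℝ) (R : ℕ), 1 ≤ H → H ≤ X → Y = κ / H → 1 ≤ R →
      (R : ℝ) ≤ X ^ (1 / (2 * (k : ℝ)) - δ / 4) → v0 ≤ LW → 0 ≤ ms →
      ms ≤ 2 * (Real.exp B * Y) * (R : ℝ) ^ 2 →
      U0 ≤ 2 ^ ((2 * k) ^ 2) * (K * Real.sqrt (LW * Y)) ^ (2 * k) →
      C2 * U0 + ms ^ (2 * k) * (C2 / (X / (R : ℝ) ^ (2 * k)) ^ ⌈(3 * (k : ℝ) + 1) / δ⌉₊) ≤
        (C2 * (2 ^ ((2 * k) ^ 2) * K ^ (2 * k)) + 1) * (LW * Y) ^ k := by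
  have hk0 : (2 : ℝ) ≤ k := by exact_mod_cast hk
  have ev1 : ∀ᶠ X : ℝ in atTop, C2 / (v0 * κ) ^ k ≤ X := eventually_ge_atTop _
  filter_upwards [ev1, eventually_ge_atTop (1 : ℝ)] with X e1 hX1 H Y LW U0 ms R hH hHX hY hR hRX
    hLW hms hmsle hU0
  have hX0 : 0 < X := by linarith
  have hH0 : 0 < H := by linarith
  have hY0 : 0 < Y := by rw [hY]; positivity
  have hLW0 : 0 < LW := by linarith
  have hR0 : (0 : ℝ) < R := by exact_mod_cast hR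
  set m := ⌈(3 * (k : ℝ) + 1) / δ⌉₊ with hm
  have hpm : ∀ {a b : ℝ}, a ≤ b → X ^ a ≤ X ^ b := fun h =>
    Real.rpow_le_rpow_of_exponent_le hX1 h
  have hkinv : 1 / (2 * (k : ℝ)) ≤ 1 / 4 := by
    apply one_div_le_one_div_of_le (by norm_num)
    linarith
  -- the mass is at most `X`
  have hmsX : ms ≤ X := by
    have h1 : 2 * (Real.exp B * Y) ≤ 1 := by
      have : Y ≤ κ := by
        rw [hY, div_le_iff₀ hH0]; nlinarith
      calc 2 * (Real.exp B * Y) ≤ 2 * (Real.exp B * κ) := by gcongr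
        _ ≤ 1 := hκB
    have h2 : (R : ℝ) ^ 2 ≤ X := by
      calc (R : ℝ) ^ 2 ≤ (X ^ (1 / (2 * (k : ℝ)) - δ / 4)) ^ 2 := by gcongr
        _ = X ^ ((1 / (2 * (k : ℝ)) - δ / 4) * 2) := by
            rw [← Real.rpow_natCast, ← Real.rpow_mul hX0.le]
            norm_num
        _ ≤ X ^ (1 : ℝ) := hpm (by linarith)
        _ = X := Real.rpow_one X
    calc ms ≤ 2 * (Real.exp B * Y) * (R : ℝ) ^ 2 := hmsle
      _ ≤ 1 * X := by gcongr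
      _ = X := one_mul X
  -- the separation
  have hsep : X ^ δ ≤ X / (R : ℝ) ^ (2 * k) := by
    rw [le_div_iff₀ (by positivity)]
    have h1 : (R : ℝ) ^ (2 * k) ≤ X ^ (1 - (k : ℝ) * δ / 2) := by
      calc (R : ℝ) ^ (2 * k) ≤ (X ^ (1 / (2 * (k : ℝ)) - δ / 4)) ^ (2 * k) := by gcongr
        _ = X ^ (1 - (k : ℝ) * δ / 2) := by
            rw [← Real.rpow_natCast, ← Real.rpow_mul hX0.le]
            congr 1
            push_cast
            field_simp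
            ring
    calc X ^ δ * (R : ℝ) ^ (2 * k) ≤ X ^ δ * X ^ (1 - (k : ℝ) * δ / 2) := by gcongr
      _ = X ^ (δ + (1 - (k : ℝ) * δ / 2)) := by rw [← Real.rpow_add hX0]
      _ ≤ X ^ (1 : ℝ) := hpm (by nlinarith)
      _ = X := Real.rpow_one X
  have hsepm : X ^ (3 * (k : ℝ) + 1) ≤ (X / (R : ℝ) ^ (2 * k)) ^ m := by
    have h1 : (3 * (k : ℝ) + 1) / δ ≤ m := Nat.le_ceil _
    rw [div_le_iff₀ hδ] at h1
    calc X ^ (3 * (k : ℝ) + 1) ≤ X ^ (δ * (m : ℝ)) := hpm (by linarith)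
      _ = (X ^ δ) ^ m := by rw [Real.rpow_mul hX0.le, Real.rpow_natCast]
      _ ≤ _ := by gcongr
  have hZ : (v0 * κ) ^ k / X ^ k ≤ (LW * Y) ^ k := by
    rw [← div_pow]
    apply pow_le_pow_left₀ (by positivity)
    rw [hY]
    calc v0 * κ / X ≤ LW * κ / H := by gcongr
      _ = LW * (κ / H) := by ring
  have hsecond : ms ^ (2 * k) * (C2 / (X / (R : ℝ) ^ (2 * k)) ^ m) ≤ (LW * Y) ^ k := by
    refine le_trans ?_ hZ
    have h3 : X ^ (3 * (k : ℝ) + 1) = X ^ (3 * k + 1) := by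
      rw [← Real.rpow_natCast]
      congr 1
      push_cast
      ring
    rw [h3] at hsepm
    calc ms ^ (2 * k) * (C2 / (X / (R : ℝ) ^ (2 * k)) ^ m) ≤ X ^ (2 * k) * (C2 / X ^ (3 * k + 1)) := by
          gcongr
      _ = C2 / X ^ (k + 1) := by
          rw [show 3 * k + 1 = 2 * k + (k + 1) by ring, pow_add]
          field_simp
      _ ≤ (v0 * κ) ^ k / X ^ k := by
          rw [div_le_iff₀ (by positivity)] at e1
          rw [div_le_div_iff₀ (by positivity) (by positivity), pow_succ]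
          nlinarith [pow_pos hX0 k]
  have hfirst : C2 * U0 ≤ C2 * (2 ^ ((2 * k) ^ 2) * K ^ (2 * k)) * (LW * Y) ^ k := by
    have h4 : (K * Real.sqrt (LW * Y)) ^ (2 * k) = K ^ (2 * k) * (LW * Y) ^ k := by
      rw [mul_pow, pow_mul (Real.sqrt _), Real.sq_sqrt (by positivity)]
    rw [h4] at hU0
    calc C2 * U0 ≤ C2 * (2 ^ ((2 * k) ^ 2) * (K ^ (2 * k) * (LW * Y) ^ k)) := by gcongr
      _ = _ := by ring
  calc C2 * U0 + ms ^ (2 * k) * (C2 / (X / (R : ℝ) ^ (2 * k)) ^ m) ≤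
      C2 * (2 ^ ((2 * k) ^ 2) * K ^ (2 * k)) * (LW * Y) ^ k + (LW * Y) ^ k := by linarith
    _ = _ := by ring

/-- the scalar product, with parameters -/
lemma lin_bd (k : ℕ) (hk : 2 ≤ k) (δ κ B v0 C5 AI : ℝ) (hδ : 0 < δ)
    (hκ : 0 < κ) (hB : 0 < B) (hκB : 2 * (Real.exp B * κ) ≤ 1) (hv0 : 0 < v0) (hv1 : v0 ≤ 1)
    (hC5 : 0 < C5) (hAI : 0 < AI) :
    ∀ᶠ X : ℝ in atTop, ∀ (H Y T LW Ms Sc MS : ℝ) (R : ℕ), 1 ≤ H → H ≤ X → Y = κ / H → T = X * Y →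
      X ^ (3 / 4 : ℝ) ≤ T → (R : ℝ) ≤ X ^ (1 / (2 * (k : ℝ)) - δ / 4) → v0 ≤ LW → 0 ≤ Sc →
      0 ≤ Ms → Ms ≤ 4 * Real.exp B * X * Real.log X →
      Sc ≤ H * (2 * (Real.exp B * Y) * (R : ℝ) ^ 2) →
      T * AI * LW - AI * v0 / 4 * T * (1 + LW) ≤ MS →
      AI * κ / 4 * H * X * LW ≤ H ^ 2 * MS - C5 * (H ^ 2 / X * Ms * Sc +
        H / (X * (Real.exp (-B) * Y) ^ 2) * Sc) := by
  have hk0 : (2 : ℝ) ≤ k := by exact_mod_cast hk
  set E := C5 * (4 * Real.exp B + Real.exp B ^ 2 / κ ^ 2) with hE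
  have hE0 : 0 < E := by positivity
  have ev1 : ∀ᶠ X : ℝ in atTop, 8 * E / (AI / 4 * v0) ≤ X ^ (1 / 8 : ℝ) :=
    (tendsto_rpow_atTop (by norm_num)).eventually_ge_atTop _
  filter_upwards [ev1, eventually_ge_atTop (Real.exp 1)] with X e1 hXe H Y T LW Ms Sc MS R hH hHX
    hY hT hT34 hRX hLW hSc hMs0 hMs hScle hMS
  have hX1 : 1 ≤ X := (Real.one_le_exp (by norm_num)).trans hXe
  have hX0 : 0 < X := by linarith
  have hH0 : 0 < H := by linarith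
  have hY0 : 0 < Y := by rw [hY]; positivity
  have hLW0 : 0 < LW := by linarith
  have hT0 : 0 < T := by rw [hT]; positivity
  have hlog1 : 1 ≤ Real.log X := by rwa [Real.le_log_iff_exp_le hX0]
  have hpm : ∀ {a b : ℝ}, a ≤ b → X ^ a ≤ X ^ b := fun h =>
    Real.rpow_le_rpow_of_exponent_le hX1 h
  have hkinv : 1 / (2 * (k : ℝ)) ≤ 1 / 4 := by
    apply one_div_le_one_div_of_le (by norm_num)
    linarith
  have hYH : Y * H = κ := by rw [hY]; field_simp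
  have hR2 : (R : ℝ) ^ 2 ≤ X ^ (1 / 2 : ℝ) := by
    calc (R : ℝ) ^ 2 ≤ (X ^ (1 / (2 * (k : ℝ)) - δ / 4)) ^ 2 := by gcongr
      _ = X ^ ((1 / (2 * (k : ℝ)) - δ / 4) * 2) := by
          rw [← Real.rpow_natCast, ← Real.rpow_mul hX0.le]
          norm_num
      _ ≤ _ := hpm (by linarith)
  have hSc2 : Sc ≤ X ^ (1 / 2 : ℝ) := by
    calc Sc ≤ H * (2 * (Real.exp B * Y) * (R : ℝ) ^ 2) := hScle
      _ = 2 * (Real.exp B * (Y * H)) * (R : ℝ) ^ 2 := by ring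
      _ = 2 * (Real.exp B * κ) * (R : ℝ) ^ 2 := by rw [hYH]
      _ ≤ 1 * X ^ (1 / 2 : ℝ) := by gcongr
      _ = _ := one_mul _
  -- the errors
  have hE1 : H ^ 2 / X * Ms * Sc ≤ H ^ 2 * (4 * Real.exp B * Real.log X * X ^ (1 / 2 : ℝ)) := by
    calc H ^ 2 / X * Ms * Sc ≤ H ^ 2 / X * (4 * Real.exp B * X * Real.log X) * X ^ (1 / 2 : ℝ) := by
          gcongr
      _ = _ := by field_simp
  have hE2 : H / (X * (Real.exp (-B) * Y) ^ 2) * Sc ≤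
      H ^ 2 * (Real.exp B ^ 2 / κ ^ 2 * Real.log X * X ^ (1 / 2 : ℝ)) := by
    have h1 : H / (X * (Real.exp (-B) * Y) ^ 2) = H ^ 2 * (Real.exp B ^ 2 / κ ^ 2) * (H / X) := by
      rw [hY, Real.exp_neg]
      field_simp
    have h2 : H / X ≤ 1 := by rw [div_le_one hX0]; exact hHX
    rw [h1]
    calc H ^ 2 * (Real.exp B ^ 2 / κ ^ 2) * (H / X) * Sc ≤
        H ^ 2 * (Real.exp B ^ 2 / κ ^ 2) * 1 * X ^ (1 / 2 : ℝ) := by gcongr
      _ = H ^ 2 * (Real.exp B ^ 2 / κ ^ 2 * 1 * X ^ (1 / 2 : ℝ)) := by ring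
      _ ≤ _ := by gcongr
  have hlogle : Real.log X ≤ 8 * X ^ (1 / 8 : ℝ) := by
    have := Real.log_le_rpow_div hX0.le (show (0 : ℝ) < 1 / 8 by norm_num)
    linarith
  have hErr : C5 * (H ^ 2 / X * Ms * Sc + H / (X * (Real.exp (-B) * Y) ^ 2) * Sc) ≤
      H ^ 2 * (AI / 4 * (T * LW)) := by
    have h1 : C5 * (H ^ 2 / X * Ms * Sc + H / (X * (Real.exp (-B) * Y) ^ 2) * Sc) ≤
        H ^ 2 * (E * Real.log X * X ^ (1 / 2 : ℝ)) := by
      calc C5 * (H ^ 2 / X * Ms * Sc + H / (X * (Real.exp (-B) * Y) ^ 2) * Sc) ≤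
          C5 * (H ^ 2 * (4 * Real.exp B * Real.log X * X ^ (1 / 2 : ℝ)) +
            H ^ 2 * (Real.exp B ^ 2 / κ ^ 2 * Real.log X * X ^ (1 / 2 : ℝ))) := by gcongr
        _ = _ := by rw [hE]; ring
    refine h1.trans ?_
    apply mul_le_mul_of_nonneg_left _ (by positivity)
    have h3 : 8 * E ≤ X ^ (1 / 8 : ℝ) * (AI / 4 * v0) := by
      rw [div_le_iff₀ (by positivity)] at e1
      exact e1
    have h4 : X ^ (3 / 4 : ℝ) = X ^ (1 / 8 : ℝ) * X ^ (1 / 8 : ℝ) * X ^ (1 / 2 : ℝ) := by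
      rw [← Real.rpow_add hX0, ← Real.rpow_add hX0]
      norm_num
    calc E * Real.log X * X ^ (1 / 2 : ℝ) ≤ E * (8 * X ^ (1 / 8 : ℝ)) * X ^ (1 / 2 : ℝ) := by gcongr
      _ = (8 * E) * (X ^ (1 / 8 : ℝ) * X ^ (1 / 2 : ℝ)) := by ring
      _ ≤ (X ^ (1 / 8 : ℝ) * (AI / 4 * v0)) * (X ^ (1 / 8 : ℝ) * X ^ (1 / 2 : ℝ)) := by gcongr
      _ = AI / 4 * (X ^ (3 / 4 : ℝ) * v0) := by rw [h4]; ring
      _ ≤ AI / 4 * (T * LW) := by gcongr
  have hmain : AI / 2 * (T * LW) ≤ MS := by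
    refine le_trans ?_ hMS
    have h1 : v0 * (1 + LW) ≤ 2 * LW := by nlinarith
    have h2 : AI * v0 / 4 * T * (1 + LW) ≤ AI / 4 * T * (2 * LW) := by
      calc AI * v0 / 4 * T * (1 + LW) = AI / 4 * T * (v0 * (1 + LW)) := by ring
        _ ≤ _ := by gcongr
    linarith
  have hfin : AI * κ / 4 * H * X * LW = H ^ 2 * (AI / 4 * (T * LW)) := by
    rw [hT, ← hYH]
    ring
  rw [hfin]
  have h5 : H ^ 2 * (AI / 2 * (T * LW)) ≤ H ^ 2 * MS := by gcongr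
  linarith

end TH819.PL
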