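import Pool.Agent.TH819.PL.FinB

/-! The lower bound for the `p`-norm: assembly. -/

open Finset MeasureTheory Filter Topology

namespace TH819.PL

open H343 H321VP

lemma mem_SP {l : ℝ → ℝ} {Y : ℝ} {N M0 : ℕ} {P : Finset ℕ} {i : ℕ × (ℕ × ℕ)}
    (hi : i ∈ SP l Y N M0 P) : i.1 ∈ P ∧ i.2 ∈ IP l Y N M0 i.1 := by
  rw [SP, mem_filter, mem_product] at hi
  exact ⟨hi.1.1, by rw [IP, mem_filter]; exact ⟨hi.1.2, hi.2⟩⟩

theorem lp_lower (k : ℕ) (hk : 2 ≤ k) (δ : ℝ) (hδ : 0 < δ) (hδ1 : δ ≤ 1 / (4 * (k : ℝ))) :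
    ∃ c : ℝ, 0 < c ∧ ∀ᶠ X : ℝ in atTop, ∀ H : ℝ, 1 ≤ H → H ≤ X ^ (1 / (2 * (k : ℝ)) - δ) →
      ∃ M : ℕ, (∀ x ≤ X, x + H / 2 ≤ M) ∧ c * Real.sqrt (H * (1 + Real.log H)) ≤
        ((1 / X) * ∫ y in (1 : ℝ)..X, |DD M H y| ^ (2 * (k : ℝ) / (2 * k - 1))) ^
          (1 / (2 * (k : ℝ) / (2 * k - 1))) := by
  classical
  have hk0 : (2 : ℝ) ≤ k := by exact_mod_cast hk
  have hkd : δ ≤ 1 / 8 := hδ1.trans (by
    apply one_div_le_one_div_of_le (by norm_num)
    linarith)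
  obtain ⟨B, ρ, lam, hB1, hρ, hlam, hl0, hl1, hρ0, hA, hκt⟩ := tests2
  have hB : 0 < B := by linarith
  set κ : ℝ := Real.exp (-B) / (4 * k) with hκdef
  have hκ : 0 < κ := by positivity
  have hBκ : Real.exp B * κ = 1 / (4 * k) := by
    rw [hκdef, Real.exp_neg]
    have := Real.exp_pos B
    field_simp
  have hBκ8 : Real.exp B * κ ≤ 1 / 8 := by
    rw [hBκ]
    apply one_div_le_one_div_of_le (by norm_num)
    linarith
  have heB : 2 ≤ Real.exp B := by
    have h3 : Real.exp 1 ≤ Real.exp B := Real.exp_le_exp.2 hB1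
    have := Real.exp_one_gt_d9
    linarith
  have hκ1 : κ ≤ 1 := by nlinarith
  obtain ⟨ht, hIl⟩ := hκt κ hκ (by rw [mul_comm]; linarith)
  set l2 : ℝ → ℝ := fun v => lam v * sn (v + Real.log κ) with hl2
  set A := ∫ v, ρ v * Real.exp v with hAdef
  set Il := ∫ v, l2 v * Real.exp v with hIldef
  have hIl' : 0 < Il := hIl
  set AI := A * Il with hAIdef
  have hAI : 0 < AI := by positivity
  set v0 : ℝ := δ / 8 with hv0def
  have hv0 : 0 < v0 := by positivity
  have hv1 : v0 ≤ 1 := by rw [hv0def]; linarith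
  obtain ⟨K, hK, hmom⟩ := mom hlam hl0 hl1 v0 hv0 hv1
  set m := ⌈(3 * (k : ℝ) + 1) / δ⌉₊ with hm
  obtain ⟨C2, hC2, hnorm⟩ := norm2k hρ hρ0 hB k m (by omega)
  obtain ⟨C5, hC5, hlin⟩ := lin hρ hρ0 hB
  obtain ⟨T0, hmain⟩ := main_sub hρ ht (δ / 32) (AI * v0 / 4) (by positivity) (by linarith)
    (by positivity)
  have hpar := params k hk δ κ B T0 hδ hδ1 hκ hB (by
    rw [hBκ]
    apply le_of_eq
    field_simp
    ring)
  have hnb := norm_bd k hk δ κ B v0 C2 K hδ hδ1 hκ hκ1 hB (by linarith) hv0 hC2 hK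
  have hlb := lin_bd k hk δ κ B v0 C5 AI hδ hκ hB (by linarith) hv0 hv1 hC5 hAI
  set C4 : ℝ := C2 * (2 ^ ((2 * k) ^ 2) * K ^ (2 * k)) + 1 with hC4def
  have hC4 : 0 < C4 := by positivity
  refine ⟨(AI * κ / 4) / (C4 ^ (1 / (2 * (k : ℝ))) * Real.sqrt κ) *
    Real.sqrt (v0 * (δ / 64 / 4)), by positivity, ?_⟩
  filter_upwards [hpar, hnb, hlb, eventually_ge_atTop (Real.exp B + 1)] with X p1 p2 p3 hXB H hH hHX
  obtain ⟨hRange, hTT0, hT34, Q, P2, N, M, hCuts, hMle, hR1, hRX, hP, hsm, hM8, hV⟩ := p1 H hH hHX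
  have hX1 : 1 ≤ X := by linarith
  have hX0 : 0 < X := by linarith
  have hH0 : 0 < H := by linarith
  have hkinv : 1 / (2 * (k : ℝ)) ≤ 1 / 4 := by
    apply one_div_le_one_div_of_le (by norm_num)
    linarith
  have hHleX : H ≤ X := by
    calc H ≤ X ^ (1 / (2 * (k : ℝ)) - δ) := hHX
      _ ≤ X ^ (1 : ℝ) := Real.rpow_le_rpow_of_exponent_le hX1 (by linarith)
      _ = X := Real.rpow_one X
  set M0 := ⌊H ^ (δ / 64)⌋₊ with hM0def
  have hτ1 : 1 ≤ H ^ (δ / 64) := Real.one_le_rpow hH (by positivity)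
  have hM01 : 1 ≤ M0 := Nat.le_floor (by exact_mod_cast hτ1)
  set Y := κ / H with hYdef
  have hY0 : 0 < Y := by positivity
  have hYH : Y * H = κ := by rw [hYdef]; field_simp
  set P := (Ioc Q P2).filter Nat.Prime with hPdef
  set V := ∑ p ∈ P, 1 / ((p : ℝ) - 1) with hVdef
  set L1 := LL 0 M0 with hL1def
  have hL1 : 1 ≤ L1 := LL_ge_one hM01
  set LW := V * L1 with hLWdef
  have hV0 : 0 < V := by linarith
  have hLWv : v0 ≤ LW := by nlinarith
  have hLW0 : 0 < LW := by linarith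
  have hP' : ∀ p ∈ P, p.Prime ∧ M0 < p := fun p hp => ⟨(hP p hp).1, (hP p hp).2.1⟩
  have hPQ : ∀ p ∈ P, Q < p ∧ p ≤ P2 := fun p hp => by
    rw [hPdef, mem_filter, mem_Ioc] at hp
    exact hp.1
  have hM1 : 1 ≤ M := by
    have h1 : Real.exp B * X ≤ M := hCuts.hM
    have h2 : (1 : ℝ) ≤ M := by nlinarith
    exact_mod_cast h2
  refine ⟨M, fun x hx => ?_, ?_⟩
  · have h1 : Real.exp B * X ≤ M := hCuts.hM
    nlinarith
  -- the moments
  have hmo := hmom Y N M0 P (2 * k) hY0 hM01 hP hsm hM8 hV (2 * k) le_rfl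
  have hVLY : V * (L1 * Y) = LW * Y := by rw [hLWdef]; ring
  rw [← hVdef, ← hL1def, hVLY] at hmo
  obtain ⟨hms0, hmseq, hmsle⟩ := mass_le hlam hl0 hl1 hY0 (N := N) (P2 := P2) hM01 hP' (by
    intro p hp
    have := hPQ p hp
    rw [mem_Icc]
    omega)
  set ms := mass (∑ p ∈ P, bU lam Y N M0 p) with hmsdef
  have hmsle' : ms ≤ 2 * (Real.exp B * Y) * ((P2 * M0 : ℕ) : ℝ) ^ 2 := by
    rw [hmseq]; exact hmsle
  have hno := hnorm lam hlam hl0 X H Y N M0 (P2 * M0) P hX0 hH0 hY0 hR1 (fun p hp =>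
    ⟨(hP' p hp).1.one_le, Nat.mul_le_mul_right M0 (hPQ p hp).2⟩)
  have hnb2 := p2 H Y LW (((∑ p ∈ P, bU lam Y N M0 p) ^ (2 * k)).coeff 0) ms (P2 * M0) hH hHleX rfl hR1
    hRX hLWv hms0 hmsle' hmo
  rw [← hmsdef] at hno
  set S := SP lam Y N M0 P with hSdef
  set G := GG ρ B X S th (cf H lam Y) with hGdef
  have hnormf : ∫ y in (X * Real.exp (-B))..X, |G y| ^ (2 * k) ≤
      X * H ^ (2 * k) * (C4 * (LW * Y) ^ k) := hno.trans (by
    apply mul_le_mul_of_nonneg_left _ (by positivity)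
    exact hnb2)
  -- the scalar product
  have hθ : ∀ i ∈ S, Real.exp (-B) * Y ≤ th i := by
    intro i hi
    obtain ⟨h1, h2⟩ := mem_SP hi
    obtain ⟨a1, -, -, -, -, -, a7⟩ := IP_mem hlam hY0 (hP' _ h1).1.one_le h2
    unfold th
    have hq1 : 1 ≤ i.1 * i.2.1 := Nat.one_le_iff_ne_zero.2 (by
      have := (hP' _ h1).1.pos
      positivity)
    have hq0 : (0 : ℝ) < (i.1 * i.2.1 : ℕ) := by exact_mod_cast hq1
    rw [le_div_iff₀ hq0]
    push_cast
    linarith
  have hli := hlin X H M hX0 hH0 (ℕ × (ℕ × ℕ)) S th (cf H lam Y) (Real.exp (-B) * Y)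
    (by positivity) hθ
  rw [hSdef, lin_sum hlam hκ hH0 hY0 hYH (fun v => rfl) ρ N M M0 hP', Complex.re_ofReal_mul,
    ← hSdef] at hli
  have hma := hmain X Y hRange hTT0 Q (P2 * M0) N M hCuts (WM M0 P) (WM_sub fun p hp =>
    ⟨(hP' p hp).1, (hP' p hp).2, (hPQ p hp).1, Nat.mul_le_mul_right M0 (hPQ p hp).2⟩)
  rw [LW_eq hP', ← hVdef, ← hL1def, ← hLWdef] at hma
  set MSc : ℂ := ∑ q ∈ WM M0 P, ∑ a ∈ (Icc 1 N).filter (fun a => a.Coprime q),
        (((ArithmeticFunction.moebius q : ℤ) : ℝ) / (Nat.totient q : ℝ)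
          * l2 (Real.log (a / (q * Y))) : ℝ) *
        ∑ n ∈ Icc 1 M, ((ArithmeticFunction.vonMangoldt n * ρ (Real.log (n / X)) : ℝ) : ℂ) *
          ex (n * (a / q)) with hMScdef
  have hMSre : (X * Y) * AI * LW - AI * v0 / 4 * (X * Y) * (1 + LW) ≤ MSc.re := by
    have h3 := (Complex.abs_re_le_norm _).trans hma
    rw [Complex.sub_re, Complex.ofReal_re] at h3
    have h4 := (abs_le.1 h3).1
    have h5 : X * Y * A * Il * LW = (X * Y) * AI * LW := by rw [hAIdef]; ring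
    rw [← hAdef, ← hIldef, h5] at h4
    linarith
  set Sc := ∑ i ∈ S, |cf H lam Y i| with hScdef
  have hSc0 : 0 ≤ Sc := sum_nonneg fun _ _ => abs_nonneg _
  have hScle : Sc ≤ H * (2 * (Real.exp B * Y) * ((P2 * M0 : ℕ) : ℝ) ^ 2) := by
    rw [hScdef, hSdef, sum_SP]
    calc ∑ p ∈ P, ∑ j ∈ IP lam Y N M0 p, |cf H lam Y (p, j)| ≤
        ∑ p ∈ P, ∑ j ∈ IP lam Y N M0 p, H * wt lam Y p j := by
          refine sum_le_sum fun p _ => sum_le_sum fun j _ => ?_
          unfold cf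
          simp only
          rw [abs_mul, abs_of_pos hH0, abs_mul, abs_of_nonneg (wt_nonneg hl0 p j)]
          apply mul_le_mul_of_nonneg_left _ hH0.le
          exact mul_le_of_le_one_left (wt_nonneg hl0 p j) (abs_mu_le _)
      _ = H * ∑ p ∈ P, ∑ j ∈ IP lam Y N M0 p, wt lam Y p j := by
          rw [mul_sum]
          refine sum_congr rfl fun p _ => ?_
          rw [mul_sum]
      _ ≤ _ := by gcongr
  set Ms := ∑ n ∈ Icc 1 M, ArithmeticFunction.vonMangoldt n with hMsdef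
  have hMs0 : 0 ≤ Ms := sum_nonneg fun _ _ => ArithmeticFunction.vonMangoldt_nonneg
  have hMsle := Ms_le hB hXB hM1 hMle
  rw [← hMsdef] at hMsle
  have hlb2 := p3 H Y (X * Y) LW Ms Sc MSc.re (P2 * M0) hH hHleX rfl rfl hT34 hRX hLWv hSc0 hMs0
    hMsle hScle hMSre
  have hJ : AI * κ / 4 * H * X * LW ≤ ∫ y in (X * Real.exp (-B))..X, DD M H y * G y :=
    hlb2.trans hli
  -- Hölder
  set p : ℝ := 2 * (k : ℝ) / (2 * k - 1) with hpdef
  have hkm : (0 : ℝ) < 2 * k - 1 := by linarith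
  have hp1 : 1 < p := by
    rw [hpdef, lt_div_iff₀ hkm]; linarith
  have hpq : p.HolderConjugate (2 * (k : ℝ)) := by
    rw [Real.holderConjugate_iff]
    refine ⟨hp1, ?_⟩
    rw [hpdef]
    field_simp
    ring
  have haX : X * Real.exp (-B) ≤ X := by
    have : Real.exp (-B) ≤ 1 := Real.exp_le_one_iff.2 (by linarith)
    exact mul_le_of_le_one_right hX0.le this
  have ha1 : 1 ≤ X * Real.exp (-B) := by
    have h1 : Real.exp (-B) = 1 / Real.exp B := by rw [Real.exp_neg, one_div]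
    rw [h1, ← mul_div_assoc, mul_one, le_div_iff₀ (by positivity)]
    linarith
  have hDm := DD_meas M H
  have hGc : Continuous G := by
    obtain ⟨K', hK'0, hK'⟩ := rho_lip hρ
    have hWl := WW_lip (B := B) hX0 hK'0.le hK'
    have hWc : Continuous (WW ρ (X * Real.exp (-B)) X) := by
      have : LipschitzWith (K' / (X * Real.exp (-B))).toNNReal (WW ρ (X * Real.exp (-B)) X) := by
        refine LipschitzWith.of_dist_le_mul fun y z => ?_
        rw [Real.dist_eq, Real.dist_eq, Real.coe_toNNReal _ (by positivity)]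
        exact hWl y z
      exact this.continuous
    exact hWc.mul (Complex.continuous_re.comp (BB_cont _ _ _))
  obtain ⟨CG, hCG⟩ := (isCompact_Icc (a := X * Real.exp (-B)) (b := X)).exists_bound_of_continuousOn
    hGc.continuousOn
  have hhol := holder_int hpq haX hDm hGc.measurable (fun y => DD_bound M H y)
    (fun y hy => by
      have := hCG y (Set.Ioc_subset_Icc_self hy)
      rwa [Real.norm_eq_abs] at this)
  have hG2 : ∫ y in (X * Real.exp (-B))..X, |G y| ^ (2 * (k : ℝ)) =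
      ∫ y in (X * Real.exp (-B))..X, |G y| ^ (2 * k) := by
    refine intervalIntegral.integral_congr fun y _ => ?_
    rw [← Real.rpow_natCast]
    congr 1
    push_cast
    ring
  rw [hG2] at hhol
  set Ia := ∫ y in (X * Real.exp (-B))..X, |DD M H y| ^ p with hIadef
  have hIa0 : 0 ≤ Ia := intervalIntegral.integral_nonneg haX fun y _ => by positivity
  have hN0 : 0 ≤ ∫ y in (X * Real.exp (-B))..X, |G y| ^ (2 * k) :=
    intervalIntegral.integral_nonneg haX fun y _ => by positivity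
  have hfin := fin_alg hk (a1 := AI * κ / 4) hX0 hH0 hC4 hLW0 hκ hIa0 (by
    refine hJ.trans (hhol.trans ?_)
    apply mul_le_mul_of_nonneg_left _ (by positivity)
    exact Real.rpow_le_rpow hN0 hnormf (by positivity))
  rw [← hpdef] at hfin
  have hIaI : Ia ≤ ∫ y in (1 : ℝ)..X, |DD M H y| ^ p := by
    refine intervalIntegral.integral_mono_interval ha1 haX le_rfl
      (Filter.Eventually.of_forall fun x => by
        simp only [Pi.zero_apply]
        positivity) ?_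
    refine ii_of (C := (Ms + |H|) ^ p) ((continuous_abs.measurable.comp hDm).pow_const p)
      fun y _ => ?_
    rw [abs_of_nonneg (by positivity)]
    exact Real.rpow_le_rpow (abs_nonneg _) (DD_bound M H y) (by linarith)
  have hlow := LL_low (τ := δ / 64) (H := H) (by positivity) (by linarith) hH
  rw [← hM0def, ← hL1def] at hlow
  have hlogH : 0 ≤ Real.log H := Real.log_nonneg hH
  calc (AI * κ / 4) / (C4 ^ (1 / (2 * (k : ℝ))) * Real.sqrt κ) *
      Real.sqrt (v0 * (δ / 64 / 4)) * Real.sqrt (H * (1 + Real.log H)) =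
      (AI * κ / 4) / (C4 ^ (1 / (2 * (k : ℝ))) * Real.sqrt κ) *
      Real.sqrt (H * (v0 * (δ / 64 / 4 * (1 + Real.log H)))) := by
        rw [mul_assoc, ← Real.sqrt_mul (by positivity)]
        congr 2
        ring
    _ ≤ (AI * κ / 4) / (C4 ^ (1 / (2 * (k : ℝ))) * Real.sqrt κ) * Real.sqrt (H * LW) := by
        apply mul_le_mul_of_nonneg_left _ (by positivity)
        apply Real.sqrt_le_sqrt
        apply mul_le_mul_of_nonneg_left _ hH0.le
        rw [hLWdef]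
        exact mul_le_mul hV hlow (by positivity) hV0.le
    _ ≤ ((1 / X) * Ia) ^ (1 / p) := hfin
    _ ≤ ((1 / X) * ∫ y in (1 : ℝ)..X, |DD M H y| ^ p) ^ (1 / p) := by
        apply Real.rpow_le_rpow (by positivity) _ (by positivity)
        gcongr

end TH819.PL
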