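import Pool.Agent.H321R3.VP.Dual

/-! The linear term: primes in short intervals against a windowed exponential polynomial. -/

open Finset MeasureTheory

namespace TH819.PL

open H343 H321VP

/-- the real test function -/
noncomputable def GG {ι : Type} (ρ : ℝ → ℝ) (B X : ℝ) (S : Finset ι) (θ c : ι → ℝ) (y : ℝ) : ℝ :=
  WW ρ (X * Real.exp (-B)) X y * (BB S θ c y).re

theorem lin {B : ℝ} {ρ : ℝ → ℝ} (hρ : Test B ρ) (hρ0 : ∀ v, 0 ≤ v → ρ v = 0) (hB : 0 < B) :
    ∃ C : ℝ, 0 < C ∧ ∀ (X H : ℝ) (M : ℕ), 0 < X → 0 < H → 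
    ∀ (ι : Type) (S : Finset ι) (θ c : ι → ℝ) (θ0 : ℝ), 0 < θ0 → (∀ i ∈ S, θ0 ≤ θ i) →
    (∑ n ∈ Icc 1 M, (ArithmeticFunction.vonMangoldt n : ℂ) *
        (ρ (Real.log (n / X)) : ℂ) * ∑ i ∈ S, ((c i * sg H (θ i) : ℝ) : ℂ) * ex (n * θ i)).re -
      C * (H ^ 2 / X * (∑ n ∈ Icc 1 M, ArithmeticFunction.vonMangoldt n) * ∑ i ∈ S, |c i| +
        H / (X * θ0 ^ 2) * (∑ i ∈ S, |c i|)) ≤
      ∫ y in (X * Real.exp (-B))..X, DD M H y * GG ρ B X S θ c y := by
  obtain ⟨K, hK0, hK⟩ := rho_lip hρ
  -- test functions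
  have hg1 : Test B (fun v => Real.exp v * ρ v) := ⟨Real.contDiff_exp.mul hρ.smooth,
    fun v hv => by rw [hρ.supp v hv, mul_zero]⟩
  obtain ⟨C1, hC1, hosc1⟩ := osc hg1
  refine ⟨K * Real.exp B + C1, by positivity, ?_⟩
  intro X H M hX hH ι S θ c θ0 hθ0 hθ
  set a := X * Real.exp (-B) with ha
  have ha0 : 0 < a := by positivity
  have haX : a ≤ X := by
    rw [ha]
    have : Real.exp (-B) ≤ 1 := Real.exp_le_one_iff.2 (by linarith)
    nlinarith
  have hθpos : ∀ i ∈ S, 0 < θ i := fun i hi => lt_of_lt_of_le hθ0 (hθ i hi)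
  set W : ℝ → ℝ := WW ρ a X with hW
  have hWl := WW_lip (B := B) hX hK0.le hK
  have hWc : Continuous W := by
    have : LipschitzWith (K / a).toNNReal (WW ρ a X) := by
      refine LipschitzWith.of_dist_le_mul fun y z => ?_
      rw [Real.dist_eq, Real.dist_eq, Real.coe_toNNReal _ (by positivity)]
      exact hWl y z
    exact this.continuous
  have hW1 : ∀ y, y ≤ a → W y = 0 := fun y hy => WW_low hρ hB hX hy
  have hW2 : ∀ y, X ≤ y → W y = 0 := fun y hy => WW_high hρ0 hX hy
  have hWe : ∀ v, W (X * Real.exp v) = ρ v := fun v => WW_exp hρ hB hX v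
  set b : ℝ → ℂ := BB S θ c with hb
  have hbc : Continuous b := BB_cont S θ c
  set F : ℝ → ℂ := fun y => (W y : ℂ) * b y with hF
  have hFc : Continuous F := by fun_prop
  set Sc := ∑ i ∈ S, |c i| with hSc
  have hSc0 : 0 ≤ Sc := sum_nonneg fun _ _ => abs_nonneg _
  set Ms := ∑ n ∈ Icc 1 M, ArithmeticFunction.vonMangoldt n with hMs
  have hGF : ∀ y, GG ρ B X S θ c y = (F y).re := by
    intro y
    simp only [hF, GG]
    rw [Complex.re_ofReal_mul]
  -- integrability
  have hDm := DD_meas M H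
  obtain ⟨CF, hCF⟩ := (isCompact_Icc (a := a) (b := X)).exists_bound_of_continuousOn hFc.continuousOn
  have hsub : Set.uIoc a X ⊆ Set.Icc a X := by
    rw [Set.uIoc_of_le haX]; exact Set.Ioc_subset_Icc_self
  -- the mean
  have hmean : ‖∫ y in a..X, F y‖ ≤ C1 / (X * θ0 ^ 2) * Sc := by
    refine int_F S θ c hg1 hB hX hFc (fun y hy => by simp only [hF]; rw [hW1 y hy]; simp)
      (fun y hy => by simp only [hF]; rw [hW2 y hy]; simp)
      (fun v => by
        simp only [hF]
        rw [hWe]
        push_cast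
        ring) hC1 hosc1 hθ0 hθ
  -- the mixed term
  have hmix : ∫ y in a..X, DD M H y * (F y).re =
      ∑ n ∈ Icc 1 M, ArithmeticFunction.vonMangoldt n *
        (∫ y in ((n : ℝ) - H / 2)..(n + H / 2), F y).re - H * (∫ y in a..X, F y).re := by
    have hFi : IntervalIntegrable (fun y => (F y).re) volume a X :=
      (Complex.continuous_re.comp hFc).intervalIntegrable _ _
    have h1 : ∀ n : ℕ, IntervalIntegrable (fun y =>
        (Set.Icc ((n : ℝ) - H / 2) (n + H / 2)).indicator (fun _ => (1 : ℝ)) y * (F y).re)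
        volume a X := by
      intro n
      refine ii_of (C := CF) ((measurable_const.indicator measurableSet_Icc).mul
        (Complex.continuous_re.comp hFc).measurable) fun y hy => ?_
      rw [abs_mul]
      have h2 := (Complex.abs_re_le_norm (F y)).trans (hCF y (hsub hy))
      have h3 : |(Set.Icc ((n : ℝ) - H / 2) (n + H / 2)).indicator (fun _ => (1 : ℝ)) y| ≤ 1 := by
        unfold Set.indicator
        split_ifs <;> simp
      calc _ ≤ 1 * CF := by gcongr
        _ = CF := one_mul _
    have h2 : ∀ y, DD M H y * (F y).re = (∑ n ∈ Icc 1 M, ArithmeticFunction.vonMangoldt n *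
        ((Set.Icc ((n : ℝ) - H / 2) (n + H / 2)).indicator (fun _ => (1 : ℝ)) y * (F y).re)) -
          H * (F y).re := by
      intro y
      unfold DD
      rw [sub_mul, sum_mul]
      congr 1
      refine sum_congr rfl fun n _ => ?_
      ring
    simp_rw [h2]
    have hsi : IntervalIntegrable (fun y => ∑ n ∈ Icc 1 M, ArithmeticFunction.vonMangoldt n *
        ((Set.Icc ((n : ℝ) - H / 2) (n + H / 2)).indicator (fun _ => (1 : ℝ)) y * (F y).re))
        volume a X := by
      have h3 := IntervalIntegrable.sum (Icc 1 M) (f := fun (n : ℕ) (y : ℝ) =>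
        ArithmeticFunction.vonMangoldt n *
        ((Set.Icc ((n : ℝ) - H / 2) (n + H / 2)).indicator (fun _ => (1 : ℝ)) y * (F y).re))
        (fun n _ => (h1 n).const_mul _)
      have h4 : (fun y => ∑ n ∈ Icc 1 M, ArithmeticFunction.vonMangoldt n *
          ((Set.Icc ((n : ℝ) - H / 2) (n + H / 2)).indicator (fun _ => (1 : ℝ)) y * (F y).re)) =
          ∑ n ∈ Icc 1 M, fun (y : ℝ) => ArithmeticFunction.vonMangoldt n *
          ((Set.Icc ((n : ℝ) - H / 2) (n + H / 2)).indicator (fun _ => (1 : ℝ)) y * (F y).re) := by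
        funext y
        rw [Finset.sum_apply]
      rw [h4]
      exact h3
    rw [intervalIntegral.integral_sub hsi
      (hFi.const_mul H), intervalIntegral.integral_finsetSum (fun n _ => (h1 n).const_mul _),
      intervalIntegral.integral_const_mul]
    congr 1
    · refine sum_congr rfl fun n _ => ?_
      rw [intervalIntegral.integral_const_mul]
      congr 1
      have hz : ∀ y, y ∉ Set.Ioc a X → F y = 0 := by
        intro y hy
        rw [Set.mem_Ioc, not_and_or, not_lt, not_le] at hy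
        simp only [hF]
        rcases hy with hy | hy
        · rw [hW1 y hy]; simp
        · rw [hW2 y hy.le]; simp
      have h4 : (∫ y in ((n : ℝ) - H / 2)..(n + H / 2), F y).re =
          ∫ y in ((n : ℝ) - H / 2)..(n + H / 2), (F y).re := by
        have h5 : IntervalIntegrable F volume ((n : ℝ) - H / 2) (n + H / 2) :=
          hFc.intervalIntegrable _ _
        exact (Complex.reCLM.intervalIntegral_comp_comm h5).symm
      rw [h4, intervalIntegral.integral_of_le haX,
        intervalIntegral.integral_of_le (by linarith : (n : ℝ) - H / 2 ≤ n + H / 2),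
        ← integral_Icc_eq_integral_Ioc (x := (n : ℝ) - H / 2), ← integral_indicator measurableSet_Icc,
        setIntegral_eq_integral_of_forall_compl_eq_zero]
      · congr 1
        ext y
        by_cases hy : y ∈ Set.Icc ((n : ℝ) - H / 2) (n + H / 2)
        · rw [Set.indicator_of_mem hy, Set.indicator_of_mem hy, one_mul]
        · rw [Set.indicator_of_notMem hy, Set.indicator_of_notMem hy, zero_mul]
      · intro y hy
        rw [hz y hy]
        simp
    · congr 1
      exact Complex.reCLM.intervalIntegral_comp_comm (hFc.intervalIntegrable _ _)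
  -- the primes
  have hpr : (∑ n ∈ Icc 1 M, (ArithmeticFunction.vonMangoldt n : ℂ) *
        (ρ (Real.log (n / X)) : ℂ) * ∑ i ∈ S, ((c i * sg H (θ i) : ℝ) : ℂ) * ex (n * θ i)).re -
      Ms * (K / a * H ^ 2 * Sc) ≤ ∑ n ∈ Icc 1 M, ArithmeticFunction.vonMangoldt n *
        (∫ y in ((n : ℝ) - H / 2)..(n + H / 2), F y).re := by
    rw [Complex.re_sum, hMs, sum_mul, ← sum_sub_distrib]
    refine sum_le_sum fun n hn => ?_
    rw [mem_Icc] at hn
    have hn0 : (0 : ℝ) < n := by exact_mod_cast hn.1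
    have h1 := one_prime (B := B) (X := X) (ρ := ρ) S θ c hθpos hX hK0.le hK H hH n
    rw [WW_log hρ hB hX hn0] at h1
    have h2 := (Complex.abs_re_le_norm _).trans h1
    rw [Complex.sub_re] at h2
    have h3 := (abs_le.1 h2).1
    rw [mul_assoc, Complex.re_ofReal_mul, ← mul_sub]
    apply mul_le_mul_of_nonneg_left _ ArithmeticFunction.vonMangoldt_nonneg
    linarith
  have hre := (abs_le.1 ((Complex.abs_re_le_norm _).trans hmean)).2
  have hHre : H * (∫ y in a..X, F y).re ≤ H * (C1 / (X * θ0 ^ 2) * Sc) := by gcongr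
  have hfin : ∫ y in a..X, DD M H y * GG ρ B X S θ c y = ∫ y in a..X, DD M H y * (F y).re := by
    refine intervalIntegral.integral_congr fun y _ => ?_
    rw [hGF]
  rw [hfin, hmix]
  have hea : K / a = K * Real.exp B / X := by
    rw [ha, Real.exp_neg]
    field_simp
  rw [hea] at hpr
  have hMs0 : 0 ≤ Ms := sum_nonneg fun _ _ => ArithmeticFunction.vonMangoldt_nonneg
  set E1 := H ^ 2 / X * Ms * Sc with hE1
  set E2 := H / (X * θ0 ^ 2) * Sc with hE2
  have hE10 : 0 ≤ E1 := by positivity
  have hE20 : 0 ≤ E2 := by positivity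
  have e1 : Ms * (K * Real.exp B / X * H ^ 2 * Sc) = K * Real.exp B * E1 := by
    rw [hE1]; ring
  have e2 : H * (C1 / (X * θ0 ^ 2) * Sc) = C1 * E2 := by rw [hE2]; ring
  rw [e1] at hpr
  rw [e2] at hHre
  have p1 : 0 ≤ K * Real.exp B * E2 := by positivity
  have p3 : 0 ≤ C1 * E1 := by positivity
  linarith

end TH819.PL
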