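import Pool.Agent.H321R3.VP.Osc
import Pool.Agent.TH819.PL.Alg

/-! Mean values of trigonometric polynomials over a smooth dyadic window. -/

open Finset MeasureTheory

namespace TH819.PL

open H343 H321VP

/-- repeated integration by parts -/
lemma osc_pow (m : ℕ) : ∀ {B : ℝ} {g : ℝ → ℝ}, Test B g → ∃ C : ℝ, 0 < C ∧
    ∀ x τ : ℝ, 0 < x → τ ≠ 0 → ‖∫ v, (g v : ℂ) * ex (x * Real.exp v * τ)‖ ≤ C / (x * |τ|) ^ m := by
  induction m with
  | zero =>
    intro B g hg
    refine ⟨(∫ v, |g v|) + 1, ?_, fun x τ hx hτ => ?_⟩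
    · have : 0 ≤ ∫ v, |g v| := integral_nonneg fun _ => abs_nonneg _
      linarith
    · rw [pow_zero, div_one]
      refine (norm_integral_le_integral_norm _).trans ?_
      have : ∫ v, ‖(g v : ℂ) * ex (x * Real.exp v * τ)‖ = ∫ v, |g v| := by
        congr 1
        ext v
        rw [norm_mul, exnorm, mul_one, Complex.norm_real, Real.norm_eq_abs]
      linarith
  | succ m ih =>
    intro B g hg
    obtain ⟨C, hC, h⟩ := ih (dg_test hg)
    refine ⟨C, hC, fun x τ hx hτ => ?_⟩
    have h1 := osc_step hg x τ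
    have h2 := h x τ hx hτ
    set I0 := ∫ v, (g v : ℂ) * ex (x * Real.exp v * τ) with hI0
    set I1 := ∫ v, (dg g v : ℂ) * ex (x * Real.exp v * τ) with hI1
    have hxt : 0 < x * |τ| := by positivity
    have h3 : x * |τ| * ‖I0‖ ≤ ‖I1‖ := by
      have h4 : ‖I1‖ = 2 * Real.pi * (x * |τ|) * ‖I0‖ := by
        rw [← norm_neg I1, ← h1, norm_mul, norm_mul, norm_mul, norm_mul, Complex.norm_I,
          Complex.norm_real, Complex.norm_real, Real.norm_eq_abs, Real.norm_eq_abs,
          abs_of_pos Real.pi_pos, abs_mul, abs_of_pos hx]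
        have h6 : ‖(2 : ℂ)‖ = 2 := by simp
        rw [h6]
        ring
      rw [h4]
      apply mul_le_mul_of_nonneg_right _ (norm_nonneg _)
      have := Real.pi_gt_three
      nlinarith
    rw [le_div_iff₀ (by positivity), pow_succ]
    rw [le_div_iff₀ (by positivity)] at h2
    calc ‖I0‖ * ((x * |τ|) ^ m * (x * |τ|)) = (x * |τ| * ‖I0‖) * (x * |τ|) ^ m := by ring
      _ ≤ ‖I1‖ * (x * |τ|) ^ m := by gcongr
      _ ≤ C := h2

theorem mean {B : ℝ} {g : ℝ → ℝ} (hg : Test B g) (hg0 : ∀ v, 0 ≤ g v) (m : ℕ) :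
    ∃ C : ℝ, 0 < C ∧ ∀ (X δ : ℝ) (u U : AA), 0 < X → 0 < δ → Dom u U →
      (∀ α, U.coeff α ≠ 0 → α ≠ 0 → δ ≤ |(α : ℝ)|) →
      ‖∫ v, (g v : ℂ) * ev (X * Real.exp v) u‖ ≤
        (∫ v, g v) * U.coeff 0 + mass U * (C / (X * δ) ^ m) := by
  classical
  obtain ⟨C, hC, h⟩ := osc_pow m hg
  refine ⟨C, hC, fun X δ u U hX hδ hD hsep => ?_⟩
  have hU0 : ∀ α, 0 ≤ U.coeff α := fun α => (abs_nonneg _).trans (hD α)
  have hsub : u.coeff.support ⊆ U.coeff.support := by
    intro α hα
    rw [Finsupp.mem_support_iff] at hα ⊢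
    intro h0
    have := hD α
    rw [h0] at this
    exact hα (abs_nonpos_iff.1 this)
  have hev : ∀ v, (g v : ℂ) * ev (X * Real.exp v) u = ∑ α ∈ u.coeff.support,
      (u.coeff α : ℂ) * ((g v : ℂ) * ex (X * Real.exp v * (α : ℝ))) := by
    intro v
    rw [ev_apply, mul_sum]
    refine sum_congr rfl fun α _ => ?_
    unfold ex
    ring
  have hE : ∀ α ∈ u.coeff.support, Integrable (fun v : ℝ => (u.coeff α : ℂ) * ((g v : ℂ) *
      ex (X * Real.exp v * (α : ℝ)))) := fun α _ => by
    have h : Continuous fun v : ℝ => ex (X * Real.exp v * (α : ℝ)) := excont.comp (by fun_prop)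
    exact (tint hg _ h).const_mul _
  simp_rw [hev]
  rw [integral_finsetSum _ hE]
  have hterm : ∀ α ∈ u.coeff.support, ‖∫ v, (u.coeff α : ℂ) * ((g v : ℂ) *
      ex (X * Real.exp v * (α : ℝ)))‖ ≤ U.coeff α * ((if α = 0 then ∫ v, g v else 0) +
        C / (X * δ) ^ m) := by
    intro α hα
    rw [integral_const_mul, norm_mul, Complex.norm_real, Real.norm_eq_abs]
    have hCp : 0 < C / (X * δ) ^ m := by positivity
    by_cases h0 : α = 0
    · rw [if_pos h0]
      apply mul_le_mul (hD α) _ (norm_nonneg _) (hU0 α)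
      have h2 : ‖∫ v, (g v : ℂ) * ex (X * Real.exp v * (α : ℝ))‖ ≤ ∫ v, g v := by
        refine (norm_integral_le_integral_norm _).trans (le_of_eq ?_)
        congr 1
        ext v
        rw [norm_mul, exnorm, mul_one, Complex.norm_real, Real.norm_of_nonneg (hg0 v)]
      linarith
    · rw [if_neg h0, zero_add]
      apply mul_le_mul (hD α) _ (norm_nonneg _) (hU0 α)
      have h3 : (α : ℝ) ≠ 0 := by exact_mod_cast h0
      refine (h X α hX h3).trans ?_
      have h4 := hsep α (Finsupp.mem_support_iff.1 (hsub hα)) h0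
      gcongr
  refine (norm_sum_le _ _).trans ((sum_le_sum hterm).trans ?_)
  have h5 : ∑ α ∈ u.coeff.support, U.coeff α * ((if α = 0 then ∫ v, g v else 0) +
        C / (X * δ) ^ m) ≤ ∑ α ∈ insert 0 U.coeff.support, U.coeff α *
          ((if α = 0 then ∫ v, g v else 0) + C / (X * δ) ^ m) := by
    apply sum_le_sum_of_subset_of_nonneg (hsub.trans (subset_insert _ _))
    intro α _ _
    have : 0 ≤ (if α = 0 then ∫ v, g v else 0) := by
      split_ifs
      · exact integral_nonneg hg0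
      · exact le_rfl
    have hCp : 0 < C / (X * δ) ^ m := by positivity
    have := hU0 α
    positivity
  refine h5.trans (le_of_eq ?_)
  simp_rw [mul_add]
  rw [sum_add_distrib]
  congr 1
  · rw [sum_eq_single 0]
    · rw [if_pos rfl, mul_comm]
    · intro α _ h0
      rw [if_neg h0, mul_zero]
    · intro h0
      exact absurd (mem_insert_self _ _) h0
  · rw [← sum_mul, mass]
    congr 1
    symm
    refine sum_subset (subset_insert _ _) fun α _ hα => ?_
    exact Finsupp.notMem_support_iff.1 hα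

end TH819.PL
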