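import Pool.Agent.H343R2.MainSum

/-! The main term of the linear sum, for an arbitrary set of squarefree moduli. -/

open Finset

namespace TH819.PL

open H343

theorem main_sub {B : ℝ} {f l : ℝ → ℝ} (hf : Test B f) (hl : Test B l) (ε η : ℝ) (hε : 0 < ε)
    (hε1 : ε ≤ 1 / 100) (hη : 0 < η) : ∃ H0 : ℝ, ∀ x Y : ℝ, Range ε x Y → H0 ≤ x * Y →
    ∀ Q R N M : ℕ, Cuts ε B x Y Q R N M → ∀ W : Finset ℕ, W ⊆ Mod Q R →
    ‖∑ q ∈ W, ∑ a ∈ (Icc 1 N).filter (fun a => a.Coprime q),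
        (((ArithmeticFunction.moebius q : ℤ) : ℝ) / (Nat.totient q : ℝ)
          * l (Real.log (a / (q * Y))) : ℝ) *
        ∑ n ∈ Icc 1 M, ((ArithmeticFunction.vonMangoldt n * f (Real.log (n / x)) : ℝ) : ℂ) *
          ex (n * (a / q))
      - ((x * Y * (∫ v, f v * Real.exp v) * (∫ v, l v * Real.exp v) *
        ∑ q ∈ W, 1 / (Nat.totient q : ℝ) : ℝ) : ℂ)‖
      ≤ η * (x * Y) * (1 + ∑ q ∈ W, 1 / (Nat.totient q : ℝ)) := by
  classical
  obtain ⟨M0, hM0, hMl⟩ := hl.bounded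
  obtain ⟨C1, hC1, hcop⟩ := coprime_count hl
  set If := ∫ v, f v * Real.exp v with hIf
  set Il := ∫ v, l v * Real.exp v with hIl
  set η' : ℝ := min 1 (η / (|Il| + 1)) with hη'
  have hIl0 : 0 < |Il| + 1 := by positivity
  have hη'0 : 0 < η' := lt_min one_pos (by positivity)
  have hη'1 : η' ≤ 1 := min_le_left _ _
  have hη'2 : η' * (|Il| + 1) ≤ η := by
    calc η' * (|Il| + 1) ≤ (η / (|Il| + 1)) * (|Il| + 1) := by
          gcongr; exact min_le_right _ _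
      _ = η := by field_simp
  obtain ⟨X0, C2, hX0, hC2, hpnt⟩ := pnt_smooth hf η' hη'0
  obtain ⟨C3, hC3, hnc⟩ := not_coprime hf
  obtain ⟨Cd, hCd, hdiv⟩ := div_bound (ε / 8) (by positivity)
  obtain ⟨H1, hkey⟩ := key hf hl ε hε hε1
  set K : ℝ := C1 * (|If| + 1) * Cd ^ 3 +
    (|Il| * C2 + M0 * Real.exp B * C3) * (3 / 2) * Cd ^ 2 + C1 * C2 * (3 / 2) * Cd ^ 4 + 1 with hK
  have hK0 : 0 < K := by positivity
  have hev : ∃ H2 : ℝ, ∀ H : ℝ, H2 ≤ H → K / (ε / 80) * H ^ (-(ε / 80)) ≤ η := by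
    have h1 : Filter.Tendsto (fun H : ℝ => K / (ε / 80) * H ^ (-(ε / 80))) Filter.atTop
        (nhds (K / (ε / 80) * 0)) :=
      (tendsto_rpow_neg_atTop (by positivity)).const_mul _
    rw [mul_zero] at h1
    have h2 := h1.eventually_le_const (show (0:ℝ) < η by positivity)
    exact Filter.eventually_atTop.1 h2
  obtain ⟨H2, hH2⟩ := hev
  refine ⟨max (max H1 H2) (max (Real.exp 1) ((max X0 2) ^ 2)), ?_⟩
  intro x Y hr hH Q R N M hcut W hW
  set H := x * Y with hHdef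
  have hx := hr.hx
  have hY := hr.hY
  have hHH1 : H1 ≤ H := (le_max_left _ _).trans ((le_max_left _ _).trans hH)
  have hHH2 : H2 ≤ H := (le_max_right _ _).trans ((le_max_left _ _).trans hH)
  have hHe : Real.exp 1 ≤ H := (le_max_left _ _).trans ((le_max_right _ _).trans hH)
  have hHX : (max X0 2) ^ 2 ≤ H := (le_max_right _ _).trans ((le_max_right _ _).trans hH)
  have hH0 : 0 < H := by positivity
  have hH1 : 1 ≤ H := hr.h1
  have hlogH : 1 ≤ Real.log H := by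
    rw [Real.le_log_iff_exp_le hH0]; exact hHe
  have hYe : Y ≤ H ^ ε := by
    have h1 : H ^ (1 - ε) * Y ≤ H ^ (1 - ε) * H ^ ε := by
      rw [← Real.rpow_add hH0, sub_add_cancel, Real.rpow_one]
      calc H ^ (1 - ε) * Y ≤ x * Y := by gcongr; exact hr.hlow
        _ = H := rfl
    exact le_of_mul_le_mul_left h1 (Real.rpow_pos_of_pos hH0 _)
  have hxL : Real.log x ≤ 3 / 2 * Real.log H := by
    rw [← Real.log_rpow hH0]
    exact Real.log_le_log hx hr.hhigh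
  have hxm : max X0 2 ≤ x := by
    have h1 : max X0 2 ≤ H ^ (1 / 2 : ℝ) := by
      rw [← Real.sqrt_eq_rpow]
      exact Real.le_sqrt_of_sq_le hHX
    refine h1.trans (le_trans ?_ hr.hlow)
    exact Real.rpow_le_rpow_of_exponent_le hH1 (by linarith)
  have hxX0 : X0 ≤ x := (le_max_left _ _).trans hxm
  have hx2 : 2 ≤ x := (le_max_right _ _).trans hxm
  have hL0 : 0 ≤ Real.log x := Real.log_nonneg (by linarith)
  set L := Real.log x with hL
  have hQ0 : (0:ℝ) < Q := lt_of_lt_of_le (Real.rpow_pos_of_pos hH0 _) hcut.hQ1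
  have hQ1 : 1 ≤ Q := by exact_mod_cast hQ0
  have hRH : (R : ℝ) ≤ H := hcut.hR.trans (by
    calc H ^ (1 / 2 - ε) ≤ H ^ (1:ℝ) := Real.rpow_le_rpow_of_exponent_le hH1 (by linarith)
      _ = H := Real.rpow_one H)
  set D := Cd * H ^ (ε / 8) with hD
  have hD0 : 0 < D := by positivity
  -- facts on `q`
  have hqf : ∀ q ∈ Mod Q R, 1 ≤ q ∧ q ≤ R ∧ Squarefree q ∧ (q.divisors.card : ℝ) ≤ D := by
    intro q hq
    rw [H343.Mod, Finset.mem_filter, Finset.mem_Ioc] at hq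
    refine ⟨by omega, hq.1.2, hq.2, ?_⟩
    refine (hdiv q (by omega)).trans ?_
    rw [hD]
    have : (q : ℝ) ≤ H := le_trans (by exact_mod_cast hq.1.2) hRH
    gcongr
  set E : ℝ := ((|Il| * C2 + M0 * Real.exp B * C3) * Y * L * D ^ 2 + C1 * C2 * L * D ^ 4) with hE
  have hE0 : 0 ≤ E := by positivity
  set G : ℕ → ℝ := fun q => 1 / (Nat.totient q : ℝ) ^ 2 *
      ∑ χ ∈ (univ : Finset (DirichletCharacter ℂ q)).filter (fun χ => χ ≠ 1),
        ‖GS χ⁻¹‖ * ‖KK l Y N χ‖ * ‖PS f x M χ‖ with hG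
  have hterm : ∀ q ∈ Mod Q R, ‖∑ a ∈ (Icc 1 N).filter (fun a => a.Coprime q),
        (((ArithmeticFunction.moebius q : ℤ) : ℝ) / (Nat.totient q : ℝ)
          * l (Real.log (a / (q * Y))) : ℝ) *
        ∑ n ∈ Icc 1 M, ((ArithmeticFunction.vonMangoldt n * f (Real.log (n / x)) : ℝ) : ℂ) *
          ex (n * (a / q)) - ((x * Y * If * Il * (1 / (Nat.totient q : ℝ)) : ℝ) : ℂ)‖ ≤
      η' * |Il| * H * (1 / (Nat.totient q : ℝ)) + C1 * (|If| + 1) * x * D ^ 3 * (1 / (q:ℝ) ^ 2)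
        + E + G q := by
    intro q hq
    obtain ⟨hq1, hqR, hsq, hdD⟩ := hqf q hq
    have hqr : (1:ℝ) ≤ q := by exact_mod_cast hq1
    have hqR' : (q:ℝ) ≤ R := by exact_mod_cast hqR
    have hNq : Real.exp B * q * Y ≤ N := le_trans (by gcongr) hcut.hN
    have h := q_term f l x Y N M q hq1 hsq hx.le hY.le If Il (C1 * q.divisors.card)
      (η' * x + C2 * q.divisors.card * L) (C3 * q.divisors.card * L)
      (M0 * (Real.exp B * q * Y)) (hcop q N Y hq1 hY hNq) (hpnt x q M hxX0 hq1 hcut.hM)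
      (hnc x q M hx2 hq1) (weight_count hl hMl N q Y hq1 hY)
    refine h.trans ?_
    have hφ : (0:ℝ) < Nat.totient q := by exact_mod_cast Nat.totient_pos.2 hq1
    have h2 := real_term (Nat.totient q : ℝ) q q.divisors.card D x Y L C1 C2 C3 |If| |Il| η' M0
      (Real.exp B) hqr hφ (by positivity) hdD (by exact_mod_cast phi_mul_card q hq1) hx.le hY.le
      hL0 hC1.le hC2.le hC3.le (abs_nonneg _) (abs_nonneg _) hη'1 hM0.le (Real.exp_pos B).le
    simp only [hG]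
    have h3 := add_le_add_left h2 (1 / (Nat.totient q : ℝ) ^ 2 *
      ∑ χ ∈ (univ : Finset (DirichletCharacter ℂ q)).filter (fun χ => χ ≠ 1),
        ‖GS χ⁻¹‖ * ‖KK l Y N χ‖ * ‖PS f x M χ‖)
    refine le_trans (le_of_eq ?_) (h3.trans (le_of_eq ?_))
    · congr 1
    · ring
  -- sum over q
  set LW := ∑ q ∈ W, 1 / (Nat.totient q : ℝ) with hLW
  have hLW0 : 0 ≤ LW := Finset.sum_nonneg fun q _ => by positivity
  have hLLe : ((x * Y * If * Il * LW : ℝ) : ℂ) =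
      ∑ q ∈ W, ((x * Y * If * Il * (1 / (Nat.totient q : ℝ)) : ℝ) : ℂ) := by
    rw [hLW, Finset.mul_sum, Complex.ofReal_sum]
  have hsum : ‖∑ q ∈ W, ∑ a ∈ (Icc 1 N).filter (fun a => a.Coprime q),
        (((ArithmeticFunction.moebius q : ℤ) : ℝ) / (Nat.totient q : ℝ)
          * l (Real.log (a / (q * Y))) : ℝ) *
        ∑ n ∈ Icc 1 M, ((ArithmeticFunction.vonMangoldt n * f (Real.log (n / x)) : ℝ) : ℂ) *
          ex (n * (a / q)) - ((x * Y * If * Il * LW : ℝ) : ℂ)‖ ≤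
      η' * |Il| * H * LW + C1 * (|If| + 1) * x * D ^ 3 * (1 / (Q:ℝ)) + E * R +
        H ^ (1 - ε / 40) := by
    rw [hLLe, ← Finset.sum_sub_distrib]
    refine (norm_sum_le _ _).trans ((Finset.sum_le_sum fun q hq => hterm q (hW hq)).trans ?_)
    rw [Finset.sum_add_distrib, Finset.sum_add_distrib, Finset.sum_add_distrib]
    rw [← Finset.mul_sum, ← Finset.mul_sum, Finset.sum_const, nsmul_eq_mul, ← hLW]
    have h1 : ∑ q ∈ W, 1 / (q : ℝ) ^ 2 ≤ 1 / (Q : ℝ) :=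
      (Finset.sum_le_sum_of_subset_of_nonneg hW fun q _ _ => by positivity).trans
        (sum_inv_sq Q R hQ1)
    have h2 : (W.card : ℝ) ≤ R := le_trans (by exact_mod_cast Finset.card_le_card hW) (card_Mod Q R)
    have h3 := hkey x Y hr hHH1 Q R N M hcut
    have h4 : ∑ q ∈ W, G q ≤ H ^ (1 - ε / 40) := by
      refine le_trans (Finset.sum_le_sum_of_subset_of_nonneg hW fun q _ _ => ?_) h3
      simp only [hG]
      positivity
    have h5 : (W.card : ℝ) * E ≤ E * R := by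
      rw [mul_comm E]; gcongr
    have h6 : C1 * (|If| + 1) * x * D ^ 3 * ∑ q ∈ W, 1 / (q:ℝ) ^ 2 ≤
        C1 * (|If| + 1) * x * D ^ 3 * (1 / (Q:ℝ)) := by gcongr
    linarith
  refine hsum.trans ?_
  -- final numerics
  have hP : ∀ a : ℝ, a ≤ 1 - ε / 40 → H ^ a ≤ H ^ (1 - ε / 40) := fun a ha =>
    Real.rpow_le_rpow_of_exponent_le hH1 ha
  have hpow : ∀ n : ℕ, (H ^ (ε / 8)) ^ n = H ^ (n * (ε / 8)) := by
    intro n
    rw [← Real.rpow_natCast, ← Real.rpow_mul hH0.le]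
    congr 1; ring
  -- (ii)
  have b1 : η' * |Il| * H * LW ≤ η * H * LW := by
    calc η' * |Il| * H * LW ≤ η' * (|Il| + 1) * H * LW := by gcongr; linarith
      _ ≤ η * H * LW := by gcongr
  -- (i)
  have b2 : C1 * (|If| + 1) * x * D ^ 3 * (1 / (Q:ℝ)) ≤
      C1 * (|If| + 1) * Cd ^ 3 * (H ^ (1 - ε / 40) * Real.log H) := by
    have h1 : x * (1 / (Q:ℝ)) ≤ H ^ (1 - 4 * ε) := by
      have h2 : H ^ (4 * ε) ≤ Q * Y := by
        have := hcut.hQ2
        rwa [div_le_iff₀ hY] at this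
      rw [mul_one_div, div_le_iff₀ hQ0]
      have h3 : x * H ^ (4 * ε) ≤ H * Q := by
        calc x * H ^ (4 * ε) ≤ x * (Q * Y) := by gcongr
          _ = H * Q := by rw [hHdef]; ring
      have h4 : H ^ (1 - 4 * ε) * H ^ (4 * ε) = H := by
        rw [← Real.rpow_add hH0, sub_add_cancel, Real.rpow_one]
      have h5 : 0 < H ^ (4 * ε) := Real.rpow_pos_of_pos hH0 _
      apply le_of_mul_le_mul_right _ h5
      calc x * H ^ (4 * ε) ≤ H * Q := h3
        _ = (H ^ (1 - 4 * ε) * H ^ (4 * ε)) * Q := by rw [h4]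
        _ = H ^ (1 - 4 * ε) * Q * H ^ (4 * ε) := by ring
    have h6 : (H ^ (ε / 8)) ^ 3 * H ^ (1 - 4 * ε) ≤ H ^ (1 - ε / 40) := by
      rw [hpow, ← Real.rpow_add hH0]
      apply hP
      push_cast
      linarith
    calc C1 * (|If| + 1) * x * D ^ 3 * (1 / (Q:ℝ))
        = C1 * (|If| + 1) * Cd ^ 3 * ((H ^ (ε / 8)) ^ 3 * (x * (1 / (Q:ℝ)))) := by
          rw [hD]; ring
      _ ≤ C1 * (|If| + 1) * Cd ^ 3 * ((H ^ (ε / 8)) ^ 3 * H ^ (1 - 4 * ε)) := by gcongr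
      _ ≤ C1 * (|If| + 1) * Cd ^ 3 * (H ^ (1 - ε / 40) * Real.log H) := by
          apply mul_le_mul_of_nonneg_left _ (by positivity)
          calc (H ^ (ε / 8)) ^ 3 * H ^ (1 - 4 * ε) ≤ H ^ (1 - ε / 40) * 1 := by
                rw [mul_one]; exact h6
            _ ≤ H ^ (1 - ε / 40) * Real.log H := by gcongr
  have b3 : E * R ≤ ((|Il| * C2 + M0 * Real.exp B * C3) * (3 / 2) * Cd ^ 2 +
      C1 * C2 * (3 / 2) * Cd ^ 4) * (H ^ (1 - ε / 40) * Real.log H) := by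
    have h1 : (H ^ (ε / 8)) ^ 2 * (Y * R) ≤ H ^ (1 - ε / 40) := by
      calc (H ^ (ε / 8)) ^ 2 * (Y * R) ≤ (H ^ (ε / 8)) ^ 2 * (H ^ ε * H ^ (1 / 2 - ε)) := by
            gcongr; exact hcut.hR
        _ ≤ H ^ (1 - ε / 40) := by
            rw [hpow, ← Real.rpow_add hH0, ← Real.rpow_add hH0]
            apply hP
            push_cast
            linarith
    have h2 : (H ^ (ε / 8)) ^ 4 * R ≤ H ^ (1 - ε / 40) := by
      calc (H ^ (ε / 8)) ^ 4 * R ≤ (H ^ (ε / 8)) ^ 4 * H ^ (1 / 2 - ε) := by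
            gcongr; exact hcut.hR
        _ ≤ H ^ (1 - ε / 40) := by
            rw [hpow, ← Real.rpow_add hH0]
            apply hP
            push_cast
            linarith
    have e1 : E * R = L * ((|Il| * C2 + M0 * Real.exp B * C3) * Cd ^ 2 *
        ((H ^ (ε / 8)) ^ 2 * (Y * R)) + C1 * C2 * Cd ^ 4 * ((H ^ (ε / 8)) ^ 4 * R)) := by
      rw [hE, hD]; ring
    rw [e1]
    calc L * ((|Il| * C2 + M0 * Real.exp B * C3) * Cd ^ 2 *
        ((H ^ (ε / 8)) ^ 2 * (Y * R)) + C1 * C2 * Cd ^ 4 * ((H ^ (ε / 8)) ^ 4 * R))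
        ≤ (3 / 2 * Real.log H) * ((|Il| * C2 + M0 * Real.exp B * C3) * Cd ^ 2 *
          H ^ (1 - ε / 40) + C1 * C2 * Cd ^ 4 * H ^ (1 - ε / 40)) := by gcongr
      _ = _ := by ring
  have b4 : H ^ (1 - ε / 40) ≤ 1 * (H ^ (1 - ε / 40) * Real.log H) := by
    rw [one_mul]
    calc H ^ (1 - ε / 40) = H ^ (1 - ε / 40) * 1 := (mul_one _).symm
      _ ≤ H ^ (1 - ε / 40) * Real.log H := by gcongr
  have b5 : K * (H ^ (1 - ε / 40) * Real.log H) ≤ η * H := by
    have h1 : H ^ (1 - ε / 40) = H * (H ^ (-(ε / 80)) * H ^ (-(ε / 80))) := by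
      rw [← Real.rpow_add hH0]
      nth_rw 2 [← Real.rpow_one H]
      rw [← Real.rpow_add hH0]
      congr 1
      ring
    have h2 : Real.log H ≤ H ^ (ε / 80) / (ε / 80) := Real.log_le_rpow_div hH0.le (by positivity)
    have h3 : H ^ (-(ε / 80)) * H ^ (ε / 80) = 1 := by
      rw [← Real.rpow_add hH0]; simp
    have hp := Real.rpow_pos_of_pos hH0 (-(ε / 80))
    rw [h1]
    calc K * (H * (H ^ (-(ε / 80)) * H ^ (-(ε / 80))) * Real.log H) ≤
        K * (H * (H ^ (-(ε / 80)) * H ^ (-(ε / 80))) * (H ^ (ε / 80) / (ε / 80))) := by gcongr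
      _ = (K / (ε / 80) * H ^ (-(ε / 80))) * H * (H ^ (-(ε / 80)) * H ^ (ε / 80)) := by ring
      _ = (K / (ε / 80) * H ^ (-(ε / 80))) * H := by rw [h3, mul_one]
      _ ≤ η * H := by
          gcongr
          exact hH2 H hHH2
  calc η' * |Il| * H * LW + C1 * (|If| + 1) * x * D ^ 3 * (1 / (Q:ℝ)) + E * R +
        H ^ (1 - ε / 40)
      ≤ η * H * LW + K * (H ^ (1 - ε / 40) * Real.log H) := by
        rw [hK]
        linarith
    _ ≤ η * H * LW + η * H := by gcongr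
    _ = η * H * (1 + LW) := by ring

end TH819.PL
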