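import Pool.Agent.TH819.PL.Mom
import Pool.Agent.TH819.PL.Mean
import Pool.Agent.TH819.PL.Lin
import Pool.Agent.TH819.PL.Sub
import Pool.Agent.H321R3.VP.Bump

/-! The test polynomial: its `2k`-norm and its scalar product with the primes. -/

open Finset MeasureTheory

namespace TH819.PL

open H343 H321VP

/-- all indices -/
noncomputable def SP (l : ℝ → ℝ) (Y : ℝ) (N M0 : ℕ) (P : Finset ℕ) : Finset (ℕ × (ℕ × ℕ)) :=
  (P ×ˢ ((Mod 0 M0) ×ˢ Icc 1 N)).filter (fun i => i.2.2.Coprime (i.1 * i.2.1) ∧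
    l (Real.log (i.2.2 / ((i.1 * i.2.1 : ℕ) * Y))) ≠ 0)

lemma sum_SP {E : Type*} [AddCommMonoid E] (l : ℝ → ℝ) (Y : ℝ) (N M0 : ℕ) (P : Finset ℕ)
    (f : ℕ × (ℕ × ℕ) → E) :
    ∑ i ∈ SP l Y N M0 P, f i = ∑ p ∈ P, ∑ j ∈ IP l Y N M0 p, f (p, j) := by
  classical
  rw [SP, sum_filter, sum_product]
  refine sum_congr rfl fun p _ => ?_
  rw [IP, sum_filter]

/-- frequencies -/
noncomputable def th (i : ℕ × (ℕ × ℕ)) : ℝ := (i.2.2 : ℝ) / ((i.1 * i.2.1 : ℕ) : ℝ)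

/-- coefficients -/
noncomputable def cf (H : ℝ) (l : ℝ → ℝ) (Y : ℝ) (i : ℕ × (ℕ × ℕ)) : ℝ :=
  H * (((ArithmeticFunction.moebius (i.1 * i.2.1) : ℤ) : ℝ) * wt l Y i.1 i.2)

lemma ex_re (x : ℝ) : (ex x).re = Real.cos (2 * Real.pi * x) := by
  unfold ex
  rw [Complex.exp_ofReal_mul_I_re]

lemma BB_re (H : ℝ) (l : ℝ → ℝ) (Y : ℝ) (N M0 : ℕ) (P : Finset ℕ) (y : ℝ) :
    (((BB (SP l Y N M0 P) th (cf H l Y) y).re : ℝ) : ℂ) =
      (H : ℂ) * ev y (∑ p ∈ P, bu l Y N M0 p) := by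
  have h1 : (BB (SP l Y N M0 P) th (cf H l Y) y).re = H * ∑ p ∈ P, ∑ j ∈ IP l Y N M0 p,
      (((ArithmeticFunction.moebius (p * j.1) : ℤ) : ℝ) * wt l Y p j) *
        Real.cos (2 * Real.pi * (y * (fr p j : ℝ))) := by
    unfold BB
    rw [Complex.re_sum, sum_SP, mul_sum]
    refine sum_congr rfl fun p _ => ?_
    rw [mul_sum]
    refine sum_congr rfl fun j _ => ?_
    rw [Complex.re_ofReal_mul, ex_re]
    have e : th (p, j) = (fr p j : ℝ) := by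
      unfold th fr
      push_cast
      ring
    rw [e]
    unfold cf
    ring
  rw [h1, map_sum, Complex.ofReal_mul, Complex.ofReal_sum]
  congr 1
  refine sum_congr rfl fun p _ => ?_
  unfold bu
  rw [map_sum, Complex.ofReal_sum]
  refine sum_congr rfl fun j _ => ?_
  rw [ev_sym]

/-- the `2k`-norm of the test function -/
theorem norm2k {B : ℝ} {ρ : ℝ → ℝ} (hρ : Test B ρ) (hρ0 : ∀ v, 0 ≤ v → ρ v = 0) (hB : 0 < B)
    (k m : ℕ) (hk : 1 ≤ k) :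
    ∃ C : ℝ, 0 < C ∧ ∀ (l : ℝ → ℝ), Test B l → (∀ v, 0 ≤ l v) →
    ∀ (X H Y : ℝ) (N M0 R : ℕ) (P : Finset ℕ), 0 < X → 0 < H → 0 < Y → 1 ≤ R →
    (∀ p ∈ P, 1 ≤ p ∧ p * M0 ≤ R) →
    ∫ y in (X * Real.exp (-B))..X, |GG ρ B X (SP l Y N M0 P) th (cf H l Y) y| ^ (2 * k) ≤
      X * H ^ (2 * k) * (C * ((∑ p ∈ P, bU l Y N M0 p) ^ (2 * k)).coeff 0 +
        mass (∑ p ∈ P, bU l Y N M0 p) ^ (2 * k) * (C / (X / (R : ℝ) ^ (2 * k)) ^ m)) := by
  set g : ℝ → ℝ := fun v => Real.exp v * ρ v ^ (2 * k) with hgdef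
  have hg : Test B g := ⟨Real.contDiff_exp.mul (hρ.smooth.pow _),
    fun v hv => by rw [hgdef]; simp only; rw [hρ.supp v hv, zero_pow (by omega), mul_zero]⟩
  have hg0 : ∀ v, 0 ≤ g v := fun v => by
    rw [hgdef]
    simp only
    rw [pow_mul]
    positivity
  obtain ⟨C, hC, hmean⟩ := mean hg hg0 m
  have hI : 0 ≤ ∫ v, g v := integral_nonneg hg0
  refine ⟨C + ∫ v, g v, by linarith, ?_⟩
  intro l hl hl0 X H Y N M0 R P hX hH hY hR hP
  set S := SP l Y N M0 P with hS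
  set U := ∑ p ∈ P, bU l Y N M0 p with hU
  set u := ∑ p ∈ P, bu l Y N M0 p with hu
  have hUN : NN U := NN_sum fun p _ => bU_NN hl0 N M0 p
  have hD : Dom (u ^ (2 * k)) (U ^ (2 * k)) := Dom_pow (Dom_sum fun p _ => bu_Dom hl0 N M0 p) _
  have hsep : ∀ α, (U ^ (2 * k)).coeff α ≠ 0 → α ≠ 0 → 1 / (R : ℝ) ^ (2 * k) ≤ |(α : ℝ)| := by
    have h1 : In (PN R (2 * k)) (U ^ (2 * k)) := by
      refine In_pow (P := PN R) ⟨1, le_rfl, by simp, 0, by simp⟩ ?_ PN_add _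
      refine In_sum fun p hp => In_sum fun i hi => ?_
      have h := fr_PN hl hY (hP p hp).1 (hP p hp).2 hi
      exact In_sym _ h.1 h.2
    exact fun α hα h0 => PN_sep (h1 α hα) h0 hR
  have hR0 : (0 : ℝ) < R := by exact_mod_cast hR
  have hm := hmean X (1 / (R : ℝ) ^ (2 * k)) (u ^ (2 * k)) (U ^ (2 * k)) hX (by positivity) hD hsep
  set G : ℝ → ℝ := GG ρ B X S th (cf H l Y) with hG
  obtain ⟨K, hK0, hK⟩ := rho_lip hρ
  have hWl := WW_lip (B := B) hX hK0.le hK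
  have hWc : Continuous (WW ρ (X * Real.exp (-B)) X) := by
    have : LipschitzWith (K / (X * Real.exp (-B))).toNNReal (WW ρ (X * Real.exp (-B)) X) := by
      refine LipschitzWith.of_dist_le_mul fun y z => ?_
      rw [Real.dist_eq, Real.dist_eq, Real.coe_toNNReal _ (by positivity)]
      exact hWl y z
    exact this.continuous
  have hGc : Continuous G := hWc.mul (Complex.continuous_re.comp (BB_cont _ _ _))
  have hcov := cov hB hX (fun y => |G y| ^ (2 * k)) ((continuous_abs.comp hGc).pow _)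
    (fun y hy => by
      have : G y = 0 := by
        rw [hG]; unfold GG
        rw [WW_low hρ hB hX hy, zero_mul]
      rw [this, abs_zero, zero_pow (by omega)])
    (fun y hy => by
      have : G y = 0 := by
        rw [hG]; unfold GG
        rw [WW_high hρ0 hX hy, zero_mul]
      rw [this, abs_zero, zero_pow (by omega)])
  rw [hcov, smul_eq_mul, mul_assoc X]
  apply mul_le_mul_of_nonneg_left _ hX.le
  have hpt : ∀ v, ((Real.exp v • |G (X * Real.exp v)| ^ (2 * k) : ℝ) : ℂ) =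
      ((H ^ (2 * k) : ℝ) : ℂ) * ((g v : ℂ) * ev (X * Real.exp v) (u ^ (2 * k))) := by
    intro v
    have h1 : G (X * Real.exp v) = ρ v * (BB S th (cf H l Y) (X * Real.exp v)).re := by
      rw [hG]; unfold GG
      rw [WW_exp hρ hB hX]
    have h2 : |G (X * Real.exp v)| ^ (2 * k) = G (X * Real.exp v) ^ (2 * k) := by
      rw [pow_mul, sq_abs, ← pow_mul]
    rw [h2, h1, smul_eq_mul, mul_pow, map_pow]
    have h3 := BB_re H l Y N M0 P (X * Real.exp v)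
    rw [← hS, ← hu] at h3
    rw [hgdef]
    push_cast
    rw [h3]
    ring
  have hnn : 0 ≤ ∫ v, Real.exp v • |G (X * Real.exp v)| ^ (2 * k) :=
    integral_nonneg fun v => by
      have : 0 ≤ |G (X * Real.exp v)| ^ (2 * k) := by positivity
      rw [Pi.zero_apply, smul_eq_mul]
      positivity
  have h4 : ∫ v, Real.exp v • |G (X * Real.exp v)| ^ (2 * k) =
      ‖((H ^ (2 * k) : ℝ) : ℂ) * ∫ v, (g v : ℂ) * ev (X * Real.exp v) (u ^ (2 * k))‖ := by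
    rw [← integral_const_mul, ← integral_congr_ae (Filter.Eventually.of_forall hpt),
      integral_complex_ofReal, Complex.norm_real, Real.norm_of_nonneg hnn]
  rw [h4, norm_mul, Complex.norm_real, Real.norm_of_nonneg (by positivity)]
  apply mul_le_mul_of_nonneg_left _ (by positivity)
  refine hm.trans ?_
  rw [mass_pow]
  have h5 : 0 ≤ (U ^ (2 * k)).coeff 0 := NN_pow hUN _ 0
  have h6 : 0 ≤ mass U := sum_nonneg fun α _ => hUN α
  have e : X * (1 / (R : ℝ) ^ (2 * k)) = X / (R : ℝ) ^ (2 * k) := by ring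
  rw [e]
  have h7 : 0 < X / (R : ℝ) ^ (2 * k) := by positivity
  apply add_le_add
  · apply mul_le_mul_of_nonneg_right _ h5
    linarith
  · apply mul_le_mul_of_nonneg_left _ (by positivity)
    gcongr
    linarith

/-- the moduli -/
noncomputable def WM (M0 : ℕ) (P : Finset ℕ) : Finset ℕ :=
  (P ×ˢ Mod 0 M0).image (fun x => x.1 * x.2)

lemma sum_WM {E : Type*} [AddCommMonoid E] (M0 : ℕ) (P : Finset ℕ)
    (hP : ∀ p ∈ P, p.Prime ∧ M0 < p) (f : ℕ → E) :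
    ∑ q ∈ WM M0 P, f q = ∑ p ∈ P, ∑ m ∈ Mod 0 M0, f (p * m) := by
  rw [WM, sum_image, sum_product]
  intro x hx y hy hxy
  rw [mem_coe, mem_product, H343.Mod, mem_filter, mem_Ioc] at hx hy
  obtain ⟨hx1, ⟨hx2, hx3⟩, hx4⟩ := hx
  obtain ⟨hy1, ⟨hy2, hy3⟩, hy4⟩ := hy
  obtain ⟨px, qx⟩ := hP _ hx1
  obtain ⟨py, qy⟩ := hP _ hy1
  have h1 : x.1 ∣ y.1 * y.2 := ⟨x.2, hxy.symm⟩
  rcases px.dvd_mul.1 h1 with h | h
  · have h2 : x.1 = y.1 := (Nat.prime_dvd_prime_iff_eq px py).1 h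
    have h3 : x.1 * x.2 = x.1 * y.2 := by
      have : x.1 * x.2 = y.1 * y.2 := hxy
      rw [this, h2]
    exact Prod.ext h2 (Nat.eq_of_mul_eq_mul_left px.pos h3)
  · have := Nat.le_of_dvd hy2 h
    omega

lemma WM_sub {M0 Q R : ℕ} {P : Finset ℕ} (hP : ∀ p ∈ P, p.Prime ∧ M0 < p ∧ Q < p ∧ p * M0 ≤ R) :
    WM M0 P ⊆ Mod Q R := by
  intro q hq
  rw [WM, mem_image] at hq
  obtain ⟨⟨p, m⟩, hpm, rfl⟩ := hq
  rw [mem_product, H343.Mod, mem_filter, mem_Ioc] at hpm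
  obtain ⟨hp, ⟨hm1, hm2⟩, hm3⟩ := hpm
  obtain ⟨h1, h2, h3, h4⟩ := hP p hp
  simp only at hm1 hm2 hm3 ⊢
  rw [H343.Mod, mem_filter, mem_Ioc]
  refine ⟨⟨?_, (Nat.mul_le_mul_left p hm2).trans h4⟩, ?_⟩
  · calc Q < p := h3
      _ ≤ p * m := Nat.le_mul_of_pos_right p hm1
  · rw [Nat.squarefree_mul ((Nat.Prime.coprime_iff_not_dvd h1).2 fun h => by
      have := Nat.le_of_dvd hm1 h
      omega)]
    exact ⟨h1.prime.squarefree, hm3⟩

/-- the scalar product with the primes -/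
lemma lin_sum {B : ℝ} {l1 l2 : ℝ → ℝ} (hl1 : Test B l1) {X H Y κ : ℝ} (hκ : 0 < κ) (hH : 0 < H)
    (hY : 0 < Y) (hYH : Y * H = κ)
    (hl2 : ∀ v, l2 v = l1 v * sn (v + Real.log κ)) (ρ : ℝ → ℝ) (N M M0 : ℕ)
    {P : Finset ℕ} (hP : ∀ p ∈ P, p.Prime ∧ M0 < p) :
    ∑ n ∈ Icc 1 M, (ArithmeticFunction.vonMangoldt n : ℂ) * (ρ (Real.log (n / X)) : ℂ) *
      ∑ i ∈ SP l1 Y N M0 P, ((cf H l1 Y i * sg H (th i) : ℝ) : ℂ) * ex (n * th i) =
    ((H ^ 2 : ℝ) : ℂ) * ∑ q ∈ WM M0 P, ∑ a ∈ (Icc 1 N).filter (fun a => a.Coprime q),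
        (((ArithmeticFunction.moebius q : ℤ) : ℝ) / (Nat.totient q : ℝ)
          * l2 (Real.log (a / (q * Y))) : ℝ) *
        ∑ n ∈ Icc 1 M, ((ArithmeticFunction.vonMangoldt n * ρ (Real.log (n / X)) : ℝ) : ℂ) *
          ex (n * (a / q)) := by
  classical
  simp_rw [mul_sum]
  rw [sum_comm, sum_SP, sum_WM M0 P hP]
  refine sum_congr rfl fun p hp => ?_
  obtain ⟨hpp, hpM⟩ := hP p hp
  have h1 : ∑ m ∈ Mod 0 M0, ∑ a ∈ (Icc 1 N).filter (fun a => a.Coprime (p * m)),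
      ∑ n ∈ Icc 1 M, ((H ^ 2 : ℝ) : ℂ) *
      ((((ArithmeticFunction.moebius (p * m) : ℤ) : ℝ) / (Nat.totient (p * m) : ℝ)
          * l2 (Real.log (a / ((p * m : ℕ) * Y))) : ℝ) *
        (((ArithmeticFunction.vonMangoldt n * ρ (Real.log (n / X)) : ℝ) : ℂ) *
          ex (n * (a / (p * m : ℕ))))) =
      ∑ i ∈ IP l1 Y N M0 p, ∑ n ∈ Icc 1 M, ((H ^ 2 : ℝ) : ℂ) *
      ((((ArithmeticFunction.moebius (p * i.1) : ℤ) : ℝ) / (Nat.totient (p * i.1) : ℝ)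
          * l2 (Real.log (i.2 / ((p * i.1 : ℕ) * Y))) : ℝ) *
        (((ArithmeticFunction.vonMangoldt n * ρ (Real.log (n / X)) : ℝ) : ℂ) *
          ex (n * (i.2 / (p * i.1 : ℕ))))) := by
    rw [IP, sum_filter, sum_product]
    refine sum_congr rfl fun m _ => ?_
    rw [sum_filter]
    refine sum_congr rfl fun a _ => ?_
    simp only
    by_cases h2 : a.Coprime (p * m)
    · rw [if_pos h2]
      by_cases h3 : l1 (Real.log (a / ((p * m : ℕ) * Y))) = 0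
      · rw [if_neg (fun h => h.2 h3)]
        refine sum_eq_zero fun n _ => ?_
        rw [hl2, h3]
        simp
      · rw [if_pos ⟨h2, h3⟩]
    · rw [if_neg h2, if_neg (fun h => h2 h.1)]
  rw [h1]
  refine sum_congr rfl fun i hi => sum_congr rfl fun n _ => ?_
  obtain ⟨h2, h3, -, h4, h5, h6, h7⟩ := IP_mem hl1 hY hpp.one_le hi
  have hq1 : 1 ≤ p * i.1 := Nat.one_le_iff_ne_zero.2 (by have := hpp.pos; positivity)
  have hq0 : (0 : ℝ) < (p * i.1 : ℕ) := by exact_mod_cast hq1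
  have ha0 : (0 : ℝ) < i.2 := by exact_mod_cast h4
  have h8 : cf H l1 Y (p, i) * sg H (th (p, i)) = H ^ 2 *
      (((ArithmeticFunction.moebius (p * i.1) : ℤ) : ℝ) / (Nat.totient (p * i.1) : ℝ)
          * l2 (Real.log (i.2 / ((p * i.1 : ℕ) * Y)))) := by
    rw [hl2]
    unfold cf wt sg th sn
    simp only
    have e1 : Real.exp (Real.log ((i.2 : ℝ) / ((p * i.1 : ℕ) * Y)) + Real.log κ) =
        H * (i.2 / (p * i.1 : ℕ)) := by
      rw [Real.exp_add, Real.exp_log (by positivity), Real.exp_log hκ, ← hYH]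
      field_simp
    rw [e1]
    have e2 : Real.pi * H * ((i.2 : ℝ) / (p * i.1 : ℕ)) = Real.pi * (H * (i.2 / (p * i.1 : ℕ))) := by
      ring
    rw [e2]
    have hpi := Real.pi_pos
    have ht : (0 : ℝ) < (Nat.totient (p * i.1) : ℝ) := by exact_mod_cast Nat.totient_pos.2 hq1
    field_simp
  rw [h8]
  unfold th
  simp only
  push_cast
  ring

end TH819.PL
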