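import Pool.Agent.TH819.PL.Sym
import Pool.Agent.H343R2.MainSum

/-! The frequencies `a / (p m)`: independence of different primes. -/

open Finset

namespace TH819.PL

open H343

/-- the indices `(m, a)` belonging to the prime `p` -/
noncomputable def IP (l : ℝ → ℝ) (Y : ℝ) (N M0 p : ℕ) : Finset (ℕ × ℕ) :=
  ((Mod 0 M0) ×ˢ Icc 1 N).filter (fun i => i.2.Coprime (p * i.1) ∧
    l (Real.log (i.2 / ((p * i.1 : ℕ) * Y))) ≠ 0)

/-- frequency -/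
noncomputable def fr (p : ℕ) (i : ℕ × ℕ) : ℚ := (i.2 : ℚ) / ((p * i.1 : ℕ) : ℚ)

/-- weight -/
noncomputable def wt (l : ℝ → ℝ) (Y : ℝ) (p : ℕ) (i : ℕ × ℕ) : ℝ :=
  1 / (Nat.totient (p * i.1) : ℝ) * l (Real.log (i.2 / ((p * i.1 : ℕ) * Y)))

/-- the part of the polynomial belonging to `p`, without signs -/
noncomputable def bU (l : ℝ → ℝ) (Y : ℝ) (N M0 p : ℕ) : AA :=
  ∑ i ∈ IP l Y N M0 p, sym (fr p i) (wt l Y p i)

/-- the part of the polynomial belonging to `p` -/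
noncomputable def bu (l : ℝ → ℝ) (Y : ℝ) (N M0 p : ℕ) : AA :=
  ∑ i ∈ IP l Y N M0 p, sym (fr p i)
    (((ArithmeticFunction.moebius (p * i.1) : ℤ) : ℝ) * wt l Y p i)

section

variable {B Y : ℝ} {l : ℝ → ℝ} (hl : Test B l) (hl0 : ∀ v, 0 ≤ l v) (hl1 : ∀ v, l v ≤ 1)
  (hY : 0 < Y) {N M0 p : ℕ} (hp : 1 ≤ p)

include hl hY hp in
lemma IP_mem {i : ℕ × ℕ} (hi : i ∈ IP l Y N M0 p) : 1 ≤ i.1 ∧ i.1 ≤ M0 ∧ Squarefree i.1 ∧
    1 ≤ i.2 ∧ i.2.Coprime (p * i.1) ∧ (i.2 : ℝ) ≤ Real.exp B * (p * i.1) * Y ∧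
      Real.exp (-B) * (p * i.1) * Y ≤ i.2 := by
  rw [IP, mem_filter, mem_product, H343.Mod, mem_filter, mem_Ioc, mem_Icc] at hi
  obtain ⟨⟨⟨⟨h1, h2⟩, hsq⟩, h3, -⟩, h5, h4⟩ := hi
  have hm : 1 ≤ i.1 := h1
  have hq1 : 1 ≤ p * i.1 := Nat.one_le_iff_ne_zero.2 (by positivity)
  have hq0 : (0 : ℝ) < (p * i.1 : ℕ) := by exact_mod_cast hq1
  have ha0 : (0 : ℝ) < i.2 := by exact_mod_cast h3
  have h5' : |Real.log (i.2 / ((p * i.1 : ℕ) * Y))| < B := by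
    by_contra h
    push Not at h
    exact h4 (hl.supp _ h)
  rw [abs_lt] at h5'
  have h6 : Real.exp (Real.log (i.2 / ((p * i.1 : ℕ) * Y))) = i.2 / ((p * i.1 : ℕ) * Y) :=
    Real.exp_log (by positivity)
  have h7 : (i.2 : ℝ) / ((p * i.1 : ℕ) * Y) ≤ Real.exp B := by
    rw [← h6]; exact Real.exp_le_exp.2 h5'.2.le
  have h8 : Real.exp (-B) ≤ (i.2 : ℝ) / ((p * i.1 : ℕ) * Y) := by
    rw [← h6]; exact Real.exp_le_exp.2 h5'.1.le
  rw [div_le_iff₀ (by positivity)] at h7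
  rw [le_div_iff₀ (by positivity)] at h8
  push_cast at h7 h8
  exact ⟨hm, h2, hsq, h3, h5, by linarith, by linarith⟩

include hl hY hp in
lemma fr_pos {i : ℕ × ℕ} (hi : i ∈ IP l Y N M0 p) : 0 < fr p i := by
  obtain ⟨h1, -, -, h4, -⟩ := IP_mem hl hY hp hi
  unfold fr
  have hq1 : 1 ≤ p * i.1 := Nat.one_le_iff_ne_zero.2 (by positivity)
  have h2 : (0 : ℚ) < (p * i.1 : ℕ) := by exact_mod_cast hq1
  have h3 : (0 : ℚ) < i.2 := by exact_mod_cast h4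
  positivity

include hl hY hp in
lemma fr_inj {i j : ℕ × ℕ} (hi : i ∈ IP l Y N M0 p) (hj : j ∈ IP l Y N M0 p)
    (h : fr p i = fr p j) : i = j := by
  obtain ⟨h1, -, -, h4, h5, -⟩ := IP_mem hl hY hp hi
  obtain ⟨g1, -, -, g4, g5, -⟩ := IP_mem hl hY hp hj
  unfold fr at h
  have hq1 : 1 ≤ p * i.1 := Nat.one_le_iff_ne_zero.2 (by positivity)
  have hq2 : 1 ≤ p * j.1 := Nat.one_le_iff_ne_zero.2 (by positivity)
  have e1 : ((p * i.1 : ℕ) : ℚ) ≠ 0 := by exact_mod_cast (by omega : p * i.1 ≠ 0)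
  have e2 : ((p * j.1 : ℕ) : ℚ) ≠ 0 := by exact_mod_cast (by omega : p * j.1 ≠ 0)
  rw [div_eq_div_iff e1 e2] at h
  have h' : i.2 * (p * j.1) = j.2 * (p * i.1) := by exact_mod_cast h
  have d1 : p * i.1 ∣ p * j.1 := by
    have : p * i.1 ∣ i.2 * (p * j.1) := ⟨j.2, by rw [h']; ring⟩
    exact (h5.symm).dvd_of_dvd_mul_left this
  have d2 : p * j.1 ∣ p * i.1 := by
    have : p * j.1 ∣ j.2 * (p * i.1) := ⟨i.2, by rw [← h']; ring⟩
    exact (g5.symm).dvd_of_dvd_mul_left this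
  have d3 : p * i.1 = p * j.1 := Nat.dvd_antisymm d1 d2
  have d4 : i.1 = j.1 := Nat.eq_of_mul_eq_mul_left (by omega) d3
  have d5 : i.2 = j.2 := by
    rw [d3] at h'
    exact Nat.eq_of_mul_eq_mul_right (by omega) h'
  exact Prod.ext d4 d5

lemma wt_nonneg (hl0 : ∀ v, 0 ≤ l v) (p : ℕ) (i : ℕ × ℕ) : 0 ≤ wt l Y p i := by
  unfold wt
  have := hl0 (Real.log (i.2 / ((p * i.1 : ℕ) * Y)))
  positivity

lemma bU_NN (hl0 : ∀ v, 0 ≤ l v) (N M0 p : ℕ) : NN (bU l Y N M0 p) :=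
  NN_sum fun i _ => sym_NN _ (wt_nonneg hl0 p i)

lemma abs_mu_le (n : ℕ) : |((ArithmeticFunction.moebius n : ℤ) : ℝ)| ≤ 1 := by
  have := ArithmeticFunction.abs_moebius_le_one (n := n)
  exact_mod_cast this

lemma sym_le (r : ℚ) {c c' : ℝ} (h : |c| ≤ c') : Dom (sym r c) (sym r c') := by
  intro α
  refine (sym_Dom r c α).trans ?_
  rw [sym_coeff, sym_coeff]
  have h0 : |c| / 2 ≤ c' / 2 := by linarith
  apply add_le_add
  · split_ifs <;> linarith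
  · split_ifs <;> linarith

lemma bu_Dom (hl0 : ∀ v, 0 ≤ l v) (N M0 p : ℕ) : Dom (bu l Y N M0 p) (bU l Y N M0 p) := by
  refine Dom_sum fun i _ => sym_le _ ?_
  rw [abs_mul, abs_of_nonneg (wt_nonneg hl0 p i)]
  exact mul_le_of_le_one_left (wt_nonneg hl0 p i) (abs_mu_le _)

/-- `p`-integral rationals -/
def PD (p : ℕ) (α : ℚ) : Prop := ∃ d : ℕ, ¬ p ∣ d ∧ ∃ z : ℤ, α * d = z

/-- small rationals with denominator `p m` -/
def PE (p : ℕ) (Y' : ℝ) (M0 j : ℕ) (α : ℚ) : Prop :=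
  |(α : ℝ)| ≤ j * Y' ∧ ∃ m : ℕ, 1 ≤ m ∧ m ≤ M0 ^ j ∧ ∃ z : ℤ, α * (p * m : ℕ) = z

/-- rationals with small denominator -/
def PN (R n : ℕ) (α : ℚ) : Prop := ∃ d : ℕ, 1 ≤ d ∧ d ≤ R ^ n ∧ ∃ z : ℤ, α * d = z

lemma PD_add {p : ℕ} (hp : p.Prime) {a b : ℚ} (ha : PD p a) (hb : PD p b) : PD p (a + b) := by
  obtain ⟨d, hd, z, hz⟩ := ha
  obtain ⟨e, he, w, hw⟩ := hb
  refine ⟨d * e, fun h => (hp.dvd_mul.1 h).elim hd he, z * e + w * d, ?_⟩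
  push_cast
  rw [← hz, ← hw]
  ring

lemma PD_zero {p : ℕ} (hp : p.Prime) : PD p 0 :=
  ⟨1, hp.one_lt.ne' ∘ Nat.dvd_one.1, 0, by simp⟩

lemma PE_add {p : ℕ} {Y' : ℝ} {M0 : ℕ} (n : ℕ) (a b : ℚ) (ha : PE p Y' M0 n a)
    (hb : PE p Y' M0 1 b) : PE p Y' M0 (n + 1) (a + b) := by
  obtain ⟨h1, m, hm1, hm2, z, hz⟩ := ha
  obtain ⟨g1, k, hk1, hk2, w, hw⟩ := hb
  refine ⟨?_, m * k, Nat.one_le_iff_ne_zero.2 (by positivity), ?_, z * k + w * m, ?_⟩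
  · push_cast at g1 ⊢
    refine (abs_add_le _ _).trans ?_
    linarith
  · rw [pow_succ]
    rw [pow_one] at hk2
    exact Nat.mul_le_mul hm2 hk2
  · push_cast at hz hw ⊢
    rw [← hz, ← hw]
    ring

lemma PN_add {R : ℕ} (n : ℕ) (a b : ℚ) (ha : PN R n a) (hb : PN R 1 b) :
    PN R (n + 1) (a + b) := by
  obtain ⟨m, hm1, hm2, z, hz⟩ := ha
  obtain ⟨k, hk1, hk2, w, hw⟩ := hb
  refine ⟨m * k, Nat.one_le_iff_ne_zero.2 (by positivity), ?_, z * k + w * m, ?_⟩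
  · rw [pow_succ]
    rw [pow_one] at hk2
    exact Nat.mul_le_mul hm2 hk2
  · push_cast at hz hw ⊢
    rw [← hz, ← hw]
    ring

/-- separation -/
lemma PN_sep {R n : ℕ} {α : ℚ} (h : PN R n α) (h0 : α ≠ 0) (hR : 1 ≤ R) :
    1 / (R : ℝ) ^ n ≤ |(α : ℝ)| := by
  obtain ⟨d, hd1, hd2, z, hz⟩ := h
  have hd0 : (0 : ℝ) < d := by exact_mod_cast hd1
  have hR0 : (0 : ℝ) < R := by exact_mod_cast hR
  have hz0 : z ≠ 0 := by
    intro hz0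
    rw [hz0, Int.cast_zero] at hz
    rcases mul_eq_zero.1 hz with h | h
    · exact h0 h
    · have : d = 0 := by exact_mod_cast h
      omega
  have h1 : (1 : ℝ) ≤ |(z : ℝ)| := by
    have := Int.one_le_abs hz0
    exact_mod_cast this
  have h2 : (α : ℝ) * d = z := by exact_mod_cast hz
  have h3 : |(α : ℝ)| * d = |(z : ℝ)| := by rw [← h2, abs_mul, abs_of_pos hd0]
  have h4 : (d : ℝ) ≤ (R : ℝ) ^ n := by exact_mod_cast hd2
  rw [div_le_iff₀ (by positivity)]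
  calc (1 : ℝ) ≤ |(α : ℝ)| * d := by rw [h3]; exact h1
    _ ≤ |(α : ℝ)| * (R : ℝ) ^ n := by gcongr

/-- small and `p`-integral means zero -/
lemma PE_PD {p : ℕ} (hp : p.Prime) {Y' : ℝ} {M0 j : ℕ} {α : ℚ} (h : PE p Y' M0 j α)
    (h2 : PD p (-α)) (hsm : (j : ℝ) * Y' * (M0 : ℝ) ^ j < 1) (hY' : 0 ≤ Y') : α = 0 := by
  obtain ⟨h1, m, hm1, hm2, z, hz⟩ := h
  obtain ⟨d, hd, w, hw⟩ := h2
  have e1 : (z * d : ℤ) = -(w * m) * p := by
    have : ((z * d : ℤ) : ℚ) = ((-(w * m) * p : ℤ) : ℚ) := by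
      push_cast at hz ⊢
      rw [← hz, ← hw]
      ring
    exact_mod_cast this
  have h3 : (p : ℤ) ∣ z * d := ⟨-(w * m), by rw [e1]; ring⟩
  have hpi : Prime (p : ℤ) := Nat.prime_iff_prime_int.1 hp
  have h4 : (p : ℤ) ∣ z := by
    rcases hpi.dvd_or_dvd h3 with h | h
    · exact h
    · exact absurd (by exact_mod_cast h) hd
  obtain ⟨t, ht⟩ := h4
  have hp0 : (p : ℚ) ≠ 0 := by exact_mod_cast hp.ne_zero
  have h5 : α * m = t := by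
    have : (p : ℚ) * (α * m) = p * t := by
      push_cast at hz
      have h6 : ((z : ℤ) : ℚ) = p * t := by rw [ht]; push_cast; ring
      rw [← h6, ← hz]
      ring
    exact mul_left_cancel₀ hp0 this
  have hm0 : (0 : ℝ) < m := by exact_mod_cast hm1
  have h6 : |(t : ℝ)| < 1 := by
    have h7 : (α : ℝ) * m = t := by exact_mod_cast h5
    rw [← h7, abs_mul, abs_of_pos hm0]
    have h8 : (m : ℝ) ≤ (M0 : ℝ) ^ j := by exact_mod_cast hm2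
    calc |(α : ℝ)| * m ≤ (j * Y') * (M0 : ℝ) ^ j := by gcongr
      _ < 1 := hsm
  have h7 : t = 0 := by
    have : |t| < 1 := by exact_mod_cast h6
    exact Int.abs_lt_one_iff.1 this
  rw [h7, Int.cast_zero] at h5
  rcases mul_eq_zero.1 h5 with h | h
  · exact h
  · have : m = 0 := by exact_mod_cast h
    omega

include hl hY in
lemma fr_PE {i : ℕ × ℕ} (hp : 1 ≤ p) (hi : i ∈ IP l Y N M0 p) :
    PE p (Real.exp B * Y) M0 1 (fr p i) ∧ PE p (Real.exp B * Y) M0 1 (-fr p i) := by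
  obtain ⟨h1, h2, -, h4, h5, h6, -⟩ := IP_mem hl hY hp hi
  have hq1 : 1 ≤ p * i.1 := Nat.one_le_iff_ne_zero.2 (by positivity)
  have hq0 : ((p * i.1 : ℕ) : ℚ) ≠ 0 := by exact_mod_cast (by omega : p * i.1 ≠ 0)
  have hqr : (0 : ℝ) < (p * i.1 : ℕ) := by exact_mod_cast hq1
  have hfr : (fr p i : ℝ) = (i.2 : ℝ) / (p * i.1 : ℕ) := by
    unfold fr
    push_cast
    ring
  have hab : |(fr p i : ℝ)| ≤ ((1 : ℕ) : ℝ) * (Real.exp B * Y) := by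
    rw [hfr, abs_of_nonneg (by positivity), div_le_iff₀ hqr]
    push_cast
    linarith
  refine ⟨⟨hab, i.1, h1, by rwa [pow_one], i.2, ?_⟩, ⟨?_, i.1, h1, by rwa [pow_one], -(i.2 : ℤ), ?_⟩⟩
  · unfold fr
    rw [div_mul_cancel₀ _ hq0]
    push_cast
    ring
  · rw [Rat.cast_neg, abs_neg]
    exact hab
  · unfold fr
    rw [neg_mul, div_mul_cancel₀ _ hq0]
    push_cast
    ring

include hl hY in
lemma fr_PD {i : ℕ × ℕ} {q : ℕ} (hp : p.Prime) (hq : q.Prime) (hpq : p ≠ q) (hM : M0 < p)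
    (hi : i ∈ IP l Y N M0 q) : PD p (fr q i) ∧ PD p (-fr q i) := by
  obtain ⟨h1, h2, -, h4, h5, h6, -⟩ := IP_mem hl hY hq.one_le hi
  have hq1 : 1 ≤ q * i.1 := Nat.one_le_iff_ne_zero.2 (by have := hq.pos; positivity)
  have hq0 : ((q * i.1 : ℕ) : ℚ) ≠ 0 := by exact_mod_cast (by omega : q * i.1 ≠ 0)
  have hnd : ¬ p ∣ q * i.1 := by
    intro h
    rcases hp.dvd_mul.1 h with h | h
    · exact hpq ((Nat.prime_dvd_prime_iff_eq hp hq).1 h)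
    · have := Nat.le_of_dvd (by omega) h
      omega
  refine ⟨⟨q * i.1, hnd, i.2, ?_⟩, ⟨q * i.1, hnd, -(i.2 : ℤ), ?_⟩⟩
  · unfold fr
    rw [div_mul_cancel₀ _ hq0]
    push_cast
    ring
  · unfold fr
    rw [neg_mul, div_mul_cancel₀ _ hq0]
    push_cast
    ring

include hl hY in
lemma fr_PN {i : ℕ × ℕ} {R : ℕ} (hp : 1 ≤ p) (hR : p * M0 ≤ R) (hi : i ∈ IP l Y N M0 p) :
    PN R 1 (fr p i) ∧ PN R 1 (-fr p i) := by
  obtain ⟨h1, h2, -, h4, h5, h6, -⟩ := IP_mem hl hY hp hi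
  have hq1 : 1 ≤ p * i.1 := Nat.one_le_iff_ne_zero.2 (by positivity)
  have hq0 : ((p * i.1 : ℕ) : ℚ) ≠ 0 := by exact_mod_cast (by omega : p * i.1 ≠ 0)
  have hqR : p * i.1 ≤ R ^ 1 := by
    rw [pow_one]
    exact (Nat.mul_le_mul_left p h2).trans hR
  refine ⟨⟨p * i.1, hq1, hqR, i.2, ?_⟩, ⟨p * i.1, hq1, hqR, -(i.2 : ℤ), ?_⟩⟩
  · unfold fr
    rw [div_mul_cancel₀ _ hq0]
    push_cast
    ring
  · unfold fr
    rw [neg_mul, div_mul_cancel₀ _ hq0]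
    push_cast
    ring

end

/-- independence -/
lemma bU_factor {B Y : ℝ} {l : ℝ → ℝ} (hl : Test B l) (hY : 0 < Y) {N M0 : ℕ} {P : Finset ℕ}
    (hP : ∀ p ∈ P, p.Prime ∧ M0 < p) {n : ℕ}
    (hsm : (n : ℝ) * (Real.exp B * Y) * (M0 : ℝ) ^ n < 1) (hM0 : 1 ≤ M0) :
    ∀ p ∈ P, ∀ j i, j + i ≤ n →
      (bU l Y N M0 p ^ j * (∑ q ∈ P.erase p, bU l Y N M0 q) ^ i).coeff 0 =
      (bU l Y N M0 p ^ j).coeff 0 * ((∑ q ∈ P.erase p, bU l Y N M0 q) ^ i).coeff 0 := by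
  intro p hp j i hji
  obtain ⟨hpp, hpM⟩ := hP p hp
  have hin1 : In (PE p (Real.exp B * Y) M0 j) (bU l Y N M0 p ^ j) := by
    refine In_pow (P := PE p (Real.exp B * Y) M0) ?_ ?_ PE_add j
    · exact ⟨by simp, 1, le_rfl, by simp, 0, by simp⟩
    · exact In_sum fun i hi => In_sym _ (fr_PE hl hY hpp.one_le hi).1 (fr_PE hl hY hpp.one_le hi).2
  have hin2 : In (PD p) ((∑ q ∈ P.erase p, bU l Y N M0 q) ^ i) := by
    refine In_pow (P := fun _ => PD p) (PD_zero hpp) ?_ (fun _ a b => PD_add hpp) i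
    refine In_sum fun q hq => In_sum fun i hi => ?_
    rw [mem_erase] at hq
    have h := fr_PD hl hY hpp (hP q hq.2).1 hq.1.symm hpM hi
    exact In_sym _ h.1 h.2
  refine factor hin1 hin2 fun a h1 h2 => PE_PD hpp h1 h2 ?_ (by positivity)
  refine lt_of_le_of_lt ?_ hsm
  have hj : (j : ℝ) ≤ n := by exact_mod_cast (by omega : j ≤ n)
  have hM : (1 : ℝ) ≤ M0 := by exact_mod_cast hM0
  have : (M0 : ℝ) ^ j ≤ (M0 : ℝ) ^ n := pow_le_pow_right₀ hM (by omega)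
  gcongr

end TH819.PL
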