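import Pool.Agent.TH819.PL.Alg

/-! Cosine polynomials with distinct positive frequencies. -/

open Finset

namespace TH819.PL

/-- `c cos(2 π r y)` -/
noncomputable def sym (r : ℚ) (c : ℝ) : AA :=
  AddMonoidAlgebra.single r (c / 2) + AddMonoidAlgebra.single (-r) (c / 2)

lemma sym_coeff (r : ℚ) (c : ℝ) (α : ℚ) :
    (sym r c).coeff α = (if r = α then c / 2 else 0) + (if -r = α then c / 2 else 0) := by
  classical
  unfold sym
  rw [AddMonoidAlgebra.coeff_add, Finsupp.add_apply, AddMonoidAlgebra.coeff_single,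
    AddMonoidAlgebra.coeff_single, Finsupp.single_apply, Finsupp.single_apply]

lemma sym_NN (r : ℚ) {c : ℝ} (hc : 0 ≤ c) : NN (sym r c) := by
  intro α
  rw [sym_coeff]
  have : 0 ≤ c / 2 := by linarith
  split_ifs <;> linarith

lemma sym_Dom (r : ℚ) (c : ℝ) : Dom (sym r c) (sym r |c|) := by
  intro α
  rw [sym_coeff, sym_coeff]
  refine (abs_add_le _ _).trans (add_le_add ?_ ?_)
  · split_ifs
    · rw [abs_div, abs_two]
    · rw [abs_zero]
  · split_ifs
    · rw [abs_div, abs_two]
    · rw [abs_zero]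

lemma Dom_sum {ι : Type*} {s : Finset ι} {f g : ι → AA} (h : ∀ i ∈ s, Dom (f i) (g i)) :
    Dom (∑ i ∈ s, f i) (∑ i ∈ s, g i) := by
  intro α
  rw [coeff_sum', coeff_sum']
  exact (abs_sum_le_sum_abs _ _).trans (sum_le_sum fun i hi => h i hi α)

lemma sym_mass (r : ℚ) (c : ℝ) : mass (sym r c) = c := by
  have h : ((mass (sym r c) : ℝ) : ℂ) = (c : ℂ) := by
    rw [mass_ev, sym, map_add, ev_single, ev_single]
    simp
  exact_mod_cast h

lemma ev_sym (y : ℝ) (r : ℚ) (c : ℝ) :
    ev y (sym r c) = ((c * Real.cos (2 * Real.pi * (y * (r : ℝ))) : ℝ) : ℂ) := by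
  unfold sym
  rw [map_add, ev_single, ev_single]
  have e : ((2 * Real.pi * (y * (((-r : ℚ)) : ℝ)) : ℝ) : ℂ) * Complex.I =
      -((2 * Real.pi * (y * (r : ℝ)) : ℝ) : ℂ) * Complex.I := by push_cast; ring
  rw [e, ← mul_add]
  have h : ((c * Real.cos (2 * Real.pi * (y * (r : ℝ))) : ℝ) : ℂ) =
      (c : ℂ) * ((Real.cos (2 * Real.pi * (y * (r : ℝ))) : ℝ) : ℂ) := by push_cast; ring
  rw [h, Complex.ofReal_cos, Complex.cos]
  push_cast
  ring

lemma In_sym {P : ℚ → Prop} {r : ℚ} (c : ℝ) (h : P r) (h' : P (-r)) : In P (sym r c) := by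
  intro α hα
  rw [sym_coeff] at hα
  by_cases h1 : r = α
  · rwa [← h1]
  · by_cases h2 : -r = α
    · rwa [← h2]
    · rw [if_neg h1, if_neg h2, add_zero] at hα
      exact absurd rfl hα

variable {ι : Type*} {I : Finset ι} {r : ι → ℚ} {c : ι → ℝ}

lemma sum_sym_zero (hr : ∀ i ∈ I, 0 < r i) : (∑ i ∈ I, sym (r i) (c i)).coeff 0 = 0 := by
  rw [coeff_sum']
  refine sum_eq_zero fun i hi => ?_
  have := hr i hi
  rw [sym_coeff, if_neg this.ne', if_neg (by linarith), add_zero]

lemma sum_sym_sup (hr : ∀ i ∈ I, 0 < r i) (hinj : ∀ i ∈ I, ∀ j ∈ I, r i = r j → i = j)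
    {s : ℝ} (hs : 0 ≤ s) (hc : ∀ i ∈ I, c i ≤ s) (α : ℚ) :
    (∑ i ∈ I, sym (r i) (c i)).coeff α ≤ s := by
  classical
  rw [coeff_sum']
  by_cases hex : ∃ i ∈ I, r i = α ∨ -r i = α
  · obtain ⟨i, hi, h⟩ := hex
    rw [sum_eq_single i]
    · rw [sym_coeff]
      have h1 := hc i hi
      have h2 := hr i hi
      rcases h with h | h
      · rw [if_pos h, if_neg (by rw [← h]; linarith)]
        linarith
      · rw [if_pos h, if_neg (by rw [← h]; linarith)]
        linarith
    · intro j hj hji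
      have h2 := hr i hi
      have h3 := hr j hj
      rw [sym_coeff]
      rcases h with h | h
      · rw [if_neg (fun h4 => hji (hinj j hj i hi (by rw [h4, h]))), if_neg (by rw [← h]; linarith),
          add_zero]
      · rw [if_neg (by rw [← h]; linarith), if_neg (fun h4 => hji (hinj j hj i hi (by
          rw [← h] at h4; linarith))), add_zero]
    · exact fun h5 => absurd hi h5
  · push Not at hex
    rw [sum_eq_zero]
    · exact hs
    · intro i hi
      have := hex i hi
      rw [sym_coeff, if_neg this.1, if_neg this.2, add_zero]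

lemma sym_mul_zero {r r' : ℚ} (hr : 0 < r) (hr' : 0 < r') (c c' : ℝ) :
    (sym r c * sym r' c').coeff 0 = if r = r' then c * c' / 2 else 0 := by
  classical
  unfold sym
  rw [add_mul, mul_add, mul_add, AddMonoidAlgebra.single_mul_single,
    AddMonoidAlgebra.single_mul_single, AddMonoidAlgebra.single_mul_single,
    AddMonoidAlgebra.single_mul_single]
  simp only [AddMonoidAlgebra.coeff_add, Finsupp.add_apply, AddMonoidAlgebra.coeff_single,
    Finsupp.single_apply]
  by_cases h : r = r'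
  · rw [if_pos h, if_neg (by linarith), if_pos (by linarith), if_pos (by linarith),
      if_neg (by linarith)]
    ring
  · rw [if_neg h, if_neg (by linarith), if_neg (fun h2 => h (by linarith)),
      if_neg (fun h2 => h (by linarith)), if_neg (by linarith)]
    ring

lemma sum_sym_sq (hr : ∀ i ∈ I, 0 < r i) (hinj : ∀ i ∈ I, ∀ j ∈ I, r i = r j → i = j) :
    ((∑ i ∈ I, sym (r i) (c i)) ^ 2).coeff 0 = (∑ i ∈ I, c i ^ 2) / 2 := by
  classical
  rw [_root_.sq, sum_mul_sum, coeff_sum', sum_div]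
  refine sum_congr rfl fun i hi => ?_
  rw [coeff_sum', sum_eq_single i]
  · rw [sym_mul_zero (hr i hi) (hr i hi), if_pos rfl]
    ring
  · intro j hj hji
    rw [sym_mul_zero (hr i hi) (hr j hj), if_neg (fun h => hji (hinj j hj i hi h.symm))]
  · exact fun h => absurd hi h

end TH819.PL
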